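import Pool.Agent.Helper460_CSP.Bls

/-!
# Transvections in subgroups of `SL(n, ℤ)`
-/

set_option autoImplicit false
set_option maxHeartbeats 400000
set_option linter.unusedSectionVars false
set_option linter.unusedSimpArgs false

namespace Pool.Agent.L5helper65.SL

open Matrix
open Pool.Agent.Helper460_CSP

variable {ι : Type} [DecidableEq ι] [Fintype ι]

/-- the rational matrix -/
def qm (g : SpecialLinearGroup ι ℤ) : Matrix ι ι ℚ := (mt g).map (Int.castRingHom ℚ)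

theorem qm_mul (g h : SpecialLinearGroup ι ℤ) : qm (g * h) = qm g * qm h := by
  unfold qm
  rw [mt_mul, Matrix.map_mul]

theorem qm_one : qm (1 : SpecialLinearGroup ι ℤ) = 1 := by
  unfold qm
  rw [mt_one, Matrix.map_one _ (map_zero _) (map_one _)]

theorem qm_inv_mul (g : SpecialLinearGroup ι ℤ) : qm g⁻¹ * qm g = 1 := by
  rw [← qm_mul, inv_mul_cancel, qm_one]

theorem qm_mul_inv (g : SpecialLinearGroup ι ℤ) : qm g * qm g⁻¹ = 1 := by
  rw [← qm_mul, mul_inv_cancel, qm_one]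

theorem qm_inj {g h : SpecialLinearGroup ι ℤ} (H : qm g = qm h) : g = h := by
  apply mt_inj
  ext i j
  have := congrFun (congrFun H i) j
  simpa [qm] using this

/-- the inverse from a one-sided inverse -/
theorem qm_inv_of {g : SpecialLinearGroup ι ℤ} {N : Matrix ι ι ℚ} (H : N * qm g = 1) : qm g⁻¹ = N := by
  calc qm g⁻¹ = (N * qm g) * qm g⁻¹ := by rw [H, one_mul]
    _ = N := by rw [mul_assoc, qm_mul_inv, mul_one]

theorem qm_zpow {g : SpecialLinearGroup ι ℤ} {N : Matrix ι ι ℚ} (hg : qm g = 1 + N) (hN : N * N = 0)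
    (p : ℤ) : qm (g ^ p) = 1 + (p : ℚ) • N := by
  have hnat : ∀ m : ℕ, qm (g ^ m) = 1 + (m : ℚ) • N := by
    intro m
    induction m with
    | zero => rw [pow_zero, qm_one]; simp
    | succ m ih =>
      rw [pow_succ, qm_mul, ih, hg]
      rw [add_mul, mul_add, mul_add, one_mul, one_mul, smul_mul_assoc, smul_mul_assoc, mul_one, hN,
        smul_zero, add_zero, Nat.cast_succ, add_smul, one_smul]
      abel
  cases p with
  | ofNat m =>
    rw [Int.ofNat_eq_natCast, zpow_natCast, hnat]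
    simp
  | negSucc m =>
    rw [zpow_negSucc]
    apply qm_inv_of
    rw [hnat]
    rw [add_mul, mul_add, mul_add, one_mul, one_mul, mul_one, smul_mul_smul_comm, hN, smul_zero,
      add_zero, add_assoc, ← add_smul]
    simp

theorem vv_mul (v w φ ψ : ι → ℚ) : vecMulVec v φ * vecMulVec w ψ = (φ ⬝ᵥ w) • vecMulVec v ψ := by
  rw [vecMulVec_mul_vecMulVec, vecMulVec_smul]

theorem vv_sq {v φ : ι → ℚ} (h : φ ⬝ᵥ v = 0) : vecMulVec v φ * vecMulVec v φ = 0 := by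
  rw [vv_mul, h, zero_smul]

theorem vv_mulVec (v φ x : ι → ℚ) : vecMulVec v φ *ᵥ x = (φ ⬝ᵥ x) • v := by
  rw [vecMulVec_mulVec]
  ext i
  simp [mul_comm]

variable {H : Subgroup (SpecialLinearGroup ι ℤ)}

/-- a power of the rational transvection `1 + v φ` is in `H` -/
def T (H : Subgroup (SpecialLinearGroup ι ℤ)) (v φ : ι → ℚ) : Prop :=
  φ ⬝ᵥ v = 0 ∧ ∃ k : ℤ, k ≠ 0 ∧ ∃ g ∈ H, qm g = 1 + (k : ℚ) • vecMulVec v φ

theorem T.zero_left (φ : ι → ℚ) : T H 0 φ :=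
  ⟨by simp, 1, one_ne_zero, 1, H.one_mem, by simp [qm_one]⟩

theorem T.zero_right (v : ι → ℚ) : T H v 0 :=
  ⟨by simp, 1, one_ne_zero, 1, H.one_mem, by simp [qm_one]⟩

/-- the powers -/
theorem T.pow {v φ : ι → ℚ} {k : ℤ} {g : SpecialLinearGroup ι ℤ} (h0 : φ ⬝ᵥ v = 0)
    (hg : qm g = 1 + (k : ℚ) • vecMulVec v φ) (p : ℤ) :
    qm (g ^ p) = 1 + ((k * p : ℤ) : ℚ) • vecMulVec v φ := by
  rw [qm_zpow hg (by rw [smul_mul_smul_comm, vv_sq h0, smul_zero]), smul_smul]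
  push_cast
  rw [mul_comm]

theorem T.smul_right {v φ : ι → ℚ} (h : T H v φ) (c : ℚ) : T H v (c • φ) := by
  obtain ⟨h0, k, hk, g, hg, e⟩ := h
  refine ⟨by rw [smul_dotProduct, h0, smul_zero], k * c.den, ?_, g ^ c.num, H.zpow_mem hg _, ?_⟩
  · exact mul_ne_zero hk (Int.natCast_ne_zero.2 c.den_nz)
  · rw [T.pow h0 e, vecMulVec_smul, smul_smul]
    congr 2
    have : (c : ℚ) * (c.den : ℚ) = c.num := Rat.mul_den_eq_num c
    push_cast
    rw [mul_assoc, mul_comm (c.den : ℚ) c, this]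

theorem T.smul_left {v φ : ι → ℚ} (h : T H v φ) (c : ℚ) : T H (c • v) φ := by
  have h1 := h.smul_right c
  obtain ⟨h0, k, hk, g, hg, e⟩ := h1
  refine ⟨by rw [dotProduct_smul]; rw [smul_dotProduct] at h0; exact h0, k, hk, g, hg, ?_⟩
  rw [e, vecMulVec_smul, smul_vecMulVec]

theorem T.add_right {v φ ψ : ι → ℚ} (h : T H v φ) (h' : T H v ψ) : T H v (φ + ψ) := by
  obtain ⟨h0, k, hk, g, hg, e⟩ := h
  obtain ⟨h0', k', hk', g', hg', e'⟩ := h'
  refine ⟨by rw [add_dotProduct, h0, h0', add_zero], k * k', mul_ne_zero hk hk', g ^ k' * g' ^ k,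
    H.mul_mem (H.zpow_mem hg _) (H.zpow_mem hg' _), ?_⟩
  rw [qm_mul, T.pow h0 e, T.pow h0' e', mul_comm k' k, add_mul, mul_add, mul_add, one_mul, one_mul,
    mul_one, smul_mul_smul_comm, vv_mul, h0, zero_smul, smul_zero, add_zero, vecMulVec_add, smul_add]
  abel

theorem T.add_left {v w φ : ι → ℚ} (h : T H v φ) (h' : T H w φ) : T H (v + w) φ := by
  obtain ⟨h0, k, hk, g, hg, e⟩ := h
  obtain ⟨h0', k', hk', g', hg', e'⟩ := h'
  refine ⟨by rw [dotProduct_add, h0, h0', add_zero], k * k', mul_ne_zero hk hk', g ^ k' * g' ^ k,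
    H.mul_mem (H.zpow_mem hg _) (H.zpow_mem hg' _), ?_⟩
  rw [qm_mul, T.pow h0 e, T.pow h0' e', mul_comm k' k, add_mul, mul_add, mul_add, one_mul, one_mul,
    mul_one, smul_mul_smul_comm, vv_mul, h0', zero_smul, smul_zero, add_zero, add_vecMulVec, smul_add]
  abel

theorem T.conj {v φ : ι → ℚ} (h : T H v φ) {x : SpecialLinearGroup ι ℤ} (hx : x ∈ H) :
    T H (qm x *ᵥ v) (φ ᵥ* qm x⁻¹) := by
  obtain ⟨h0, k, hk, g, hg, e⟩ := h
  refine ⟨?_, k, hk, x * g * x⁻¹, H.mul_mem (H.mul_mem hx hg) (H.inv_mem hx), ?_⟩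
  · rw [← dotProduct_mulVec, mulVec_mulVec, qm_inv_mul, one_mulVec, h0]
  · rw [qm_mul, qm_mul, e, mul_add, add_mul, mul_one, qm_mul_inv, mul_smul_comm, smul_mul_assoc,
      mul_vecMulVec, vecMulVec_mul]

theorem T.comm {v φ w ψ : ι → ℚ} (h : T H v φ) (h' : T H w ψ) (h1 : ψ ⬝ᵥ v = 0)
    (h2 : φ ⬝ᵥ w ≠ 0) : T H v ψ := by
  obtain ⟨h0, k, hk, g, hg, e⟩ := h
  obtain ⟨h0', k', hk', g', hg', e'⟩ := h'
  have key : T H ((φ ⬝ᵥ w) • v) ψ := by
    refine ⟨by rw [dotProduct_smul, h1, smul_zero], k * k', mul_ne_zero hk hk',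
      g * g' * (g⁻¹ * g'⁻¹),
      H.mul_mem (H.mul_mem hg hg') (H.mul_mem (H.inv_mem hg) (H.inv_mem hg')), ?_⟩
    have i1 := T.pow h0 e (-1)
    have i2 := T.pow h0' e' (-1)
    rw [_root_.zpow_neg_one] at i1 i2
    rw [qm_mul, qm_mul, qm_mul, e, e', i1, i2]
    obtain ⟨A, hA⟩ : ∃ A, A = vecMulVec v φ := ⟨_, rfl⟩
    obtain ⟨B, hB⟩ : ∃ B, B = vecMulVec w ψ := ⟨_, rfl⟩
    have aa : A * A = 0 := by rw [hA, vv_sq h0]
    have bb : B * B = 0 := by rw [hB, vv_sq h0']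
    have ba : B * A = 0 := by rw [hA, hB, vv_mul, h1, zero_smul]
    have ab : A * B = vecMulVec ((φ ⬝ᵥ w) • v) ψ := by rw [hA, hB, vv_mul, smul_vecMulVec]
    rw [← hA, ← hB, ← ab]
    push_cast
    have e1 : (1 + (k : ℚ) • A) * (1 + (k' : ℚ) • B) =
        1 + (k : ℚ) • A + (k' : ℚ) • B + ((k : ℚ) * k') • (A * B) := by
      rw [add_mul, mul_add, mul_add, one_mul, one_mul, mul_one, smul_mul_smul_comm]
      abel
    have e2 : (1 + ((k : ℚ) * -1) • A) * (1 + ((k' : ℚ) * -1) • B) =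
        1 - (k : ℚ) • A - (k' : ℚ) • B + ((k : ℚ) * k') • (A * B) := by
      rw [add_mul, mul_add, mul_add, one_mul, one_mul, mul_one, smul_mul_smul_comm]
      rw [show (k : ℚ) * -1 * ((k' : ℚ) * -1) = (k : ℚ) * k' by ring, mul_neg_one, mul_neg_one,
        neg_smul, neg_smul]
      abel
    rw [e1, e2]
    have aab : A * (A * B) = 0 := by rw [← mul_assoc, aa, zero_mul]
    have bab : B * (A * B) = 0 := by rw [← mul_assoc, ba, zero_mul]
    have aba : A * B * A = 0 := by rw [mul_assoc, ba, mul_zero]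
    have abb : A * B * B = 0 := by rw [mul_assoc, bb, mul_zero]
    have abab : A * B * (A * B) = 0 := by rw [mul_assoc, bab, mul_zero]
    simp only [mul_add, mul_sub, add_mul, one_mul, mul_one, smul_mul_smul_comm, aa, bb, ba, aab,
      bab, aba, abb, abab, smul_zero]
    abel
  have := key.smul_left (φ ⬝ᵥ w)⁻¹
  rwa [smul_smul, inv_mul_cancel₀ h2, one_smul] at this

end Pool.Agent.L5helper65.SL
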