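import Pool.Agent.L5helper65.SL.Two

/-!
# Integral vectors
-/

set_option autoImplicit false
set_option maxHeartbeats 400000
set_option linter.unusedSectionVars false
set_option linter.unusedSimpArgs false

namespace Pool.Agent.L5helper65.SL

open Matrix
open Pool.Agent.Helper460_CSP

variable {ι : Type} [DecidableEq ι] [Fintype ι] {H : Subgroup (SpecialLinearGroup ι ℤ)}

/-- the rational vector -/
def cv (v : ι → ℤ) : ι → ℚ := fun i => (v i : ℚ)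

theorem cv_dot (φ v : ι → ℤ) : cv φ ⬝ᵥ cv v = ((φ ⬝ᵥ v : ℤ) : ℚ) := by
  unfold dotProduct cv
  push_cast
  rfl

theorem cv_ne {v : ι → ℤ} (h : v ≠ 0) : cv v ≠ 0 := by
  intro h0
  apply h
  funext i
  have h1 : (v i : ℚ) = 0 := congrFun h0 i
  show v i = 0
  exact_mod_cast h1

theorem cv_smul (c : ℤ) (v : ι → ℤ) : cv (c • v) = (c : ℚ) • cv v := by
  funext i
  show ((c * v i : ℤ) : ℚ) = (c : ℚ) * (v i : ℚ)
  push_cast
  rfl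

theorem cv_qm {g : SpecialLinearGroup ι ℤ} {v φ : ι → ℤ} (h : mt g = 1 + vecMulVec v φ) :
    qm g = 1 + vecMulVec (cv v) (cv φ) := by
  ext i j
  show ((mt g i j : ℤ) : ℚ) = (1 : Matrix ι ι ℚ) i j + (v i : ℚ) * (φ j : ℚ)
  rw [h]
  show (((1 : Matrix ι ι ℤ) i j + v i * φ j : ℤ) : ℚ) = _
  push_cast
  congr 1
  rw [one_apply, one_apply]
  split_ifs <;> simp

theorem cv_T {g : SpecialLinearGroup ι ℤ} {v φ : ι → ℤ} (hg : g ∈ H) (h0 : φ ⬝ᵥ v = 0)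
    (h : mt g = 1 + vecMulVec v φ) : T H (cv v) (cv φ) :=
  ⟨by rw [cv_dot, h0, Int.cast_zero], 1, one_ne_zero, g, hg, by
    rw [cv_qm h, Int.cast_one, one_smul]⟩

theorem cv_indep {φ ψ : ι → ℤ} (h : ∀ s t : ℤ, s • φ + t • ψ = 0 → s = 0 ∧ t = 0) (a b : ℚ)
    (hab : a • cv φ + b • cv ψ = 0) : a = 0 ∧ b = 0 := by
  obtain ⟨d, hd, z, hz⟩ := int_mul (ι := Bool) (fun x => if x then a else b)
  have hdQ : (d : ℚ) ≠ 0 := by exact_mod_cast hd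
  have z1 : (d : ℚ) * a = z true := hz true
  have z2 : (d : ℚ) * b = z false := hz false
  have h1 : z true • φ + z false • ψ = 0 := by
    funext i
    have h2 := congrFun hab i
    have h3 : a * φ i + b * ψ i = 0 := h2
    have h4 : ((z true * φ i + z false * ψ i : ℤ) : ℚ) = 0 := by
      push_cast
      rw [← z1, ← z2]
      linear_combination (d : ℚ) * h3
    exact_mod_cast h4
  obtain ⟨e1, e2⟩ := h _ _ h1
  rw [e1, Int.cast_zero] at z1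
  rw [e2, Int.cast_zero] at z2
  exact ⟨(mul_eq_zero.1 z1).resolve_left hdQ, (mul_eq_zero.1 z2).resolve_left hdQ⟩

/-- two transvections in `H` which are linked -/
theorem two_full (hH : ZDense H) (h3 : 3 ≤ Fintype.card ι) {x y : SpecialLinearGroup ι ℤ}
    (hx : x ∈ H) (hy : y ∈ H) {v φ w ψ : ι → ℤ} (hv : v ≠ 0) (hφ : φ ≠ 0) (hw : w ≠ 0) (hψ : ψ ≠ 0)
    (h1 : φ ⬝ᵥ v = 0) (h2 : ψ ⬝ᵥ w = 0) (ex : mt x = 1 + vecMulVec v φ)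
    (ey : mt y = 1 + vecMulVec w ψ)
    (hl : ((φ ⬝ᵥ w) * (ψ ⬝ᵥ v) ≠ 0 ∧ |(φ ⬝ᵥ w) * (ψ ⬝ᵥ v)| < 4) ∨
      (φ ⬝ᵥ w ≠ 0 ∧ ψ ⬝ᵥ v = 0) ∨ (φ ⬝ᵥ w = 0 ∧ ψ ⬝ᵥ v ≠ 0) ∨
      ((∃ c d : ℤ, c ≠ 0 ∧ d ≠ 0 ∧ c • v = d • w) ∧ LinearIndependent ℤ ![φ, ψ]) ∨
      ((∃ c d : ℤ, c ≠ 0 ∧ d ≠ 0 ∧ c • φ = d • ψ) ∧ LinearIndependent ℤ ![v, w])) :
    ∃ p ≠ 0, Full H p := by
  have Tx := cv_T hx h1 ex
  have Ty := cv_T hy h2 ey
  rcases hl with ⟨h4, h5⟩ | ⟨h4, h5⟩ | ⟨h4, h5⟩ | ⟨⟨c, d, hc, hd, hcd⟩, h5⟩ | ⟨⟨c, d, hc, hd, hcd⟩, h5⟩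
  · have := full_braid hH h3 (v := cv v) (φ := cv φ) (w := cv w) (ψ := cv ψ) (e := ψ ⬝ᵥ v)
      (f := φ ⬝ᵥ w) ⟨x, hx, cv_qm ex⟩ ⟨y, hy, cv_qm ey⟩ (by rw [cv_dot, h1, Int.cast_zero])
      (by rw [cv_dot, h2, Int.cast_zero]) (cv_dot _ _) (cv_dot _ _) (left_ne_zero_of_mul h4)
      (right_ne_zero_of_mul h4) (by rw [mul_comm]; omega)
    exact ⟨cv v, this.1, this.2⟩
  · exact ⟨cv v, cv_ne hv, full_heis hH (cv_ne hv) (cv_ne hψ) Tx Ty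
      (by rw [cv_dot, h5, Int.cast_zero]) (by rw [cv_dot]; exact_mod_cast h4)⟩
  · exact ⟨cv w, cv_ne hw, full_heis hH (cv_ne hw) (cv_ne hφ) Ty Tx
      (by rw [cv_dot, h4, Int.cast_zero]) (by rw [cv_dot]; exact_mod_cast h5)⟩
  · have hcQ : (c : ℚ) ≠ 0 := by exact_mod_cast hc
    have h6 : cv v = ((c : ℚ)⁻¹ * d) • cv w := by
      rw [← smul_smul, ← cv_smul, ← hcd, cv_smul, smul_smul, inv_mul_cancel₀ hcQ, one_smul]
    have h7 : T H (cv v) (cv ψ) := by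
      rw [h6]
      exact Ty.smul_left _
    exact ⟨cv v, cv_ne hv, full_of_two hH (cv_ne hv) Tx h7
      (cv_indep (LinearIndependent.pair_iff.1 h5))⟩
  · have hcQ : (c : ℚ) ≠ 0 := by exact_mod_cast hc
    have h6 : cv φ = ((c : ℚ)⁻¹ * d) • cv ψ := by
      rw [← smul_smul, ← cv_smul, ← hcd, cv_smul, smul_smul, inv_mul_cancel₀ hcQ, one_smul]
    have h7 : T H (cv w) (cv φ) := by
      rw [h6]
      exact Ty.smul_right _
    exact full_dual hH (cv_ne hφ) Tx h7 (cv_indep (LinearIndependent.pair_iff.1 h5))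

end Pool.Agent.L5helper65.SL
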