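import Pool.Agent.L5helper65.SL.Cast

/-!
# Centralizers of transvections
-/

set_option autoImplicit false
set_option maxHeartbeats 400000
set_option linter.unusedSectionVars false
set_option linter.unusedSimpArgs false

namespace Pool.Agent.L5helper65.SL

open Matrix
open Pool.Agent.Helper460_CSP

variable {ι : Type} [DecidableEq ι] [Fintype ι] {H : Subgroup (SpecialLinearGroup ι ℤ)}

theorem cv_mulVec (g : SpecialLinearGroup ι ℤ) (v : ι → ℤ) : qm g *ᵥ cv v = cv (mt g *ᵥ v) := by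
  funext i
  show ∑ j, ((mt g i j : ℤ) : ℚ) * (v j : ℚ) = ((∑ j, mt g i j * v j : ℤ) : ℚ)
  push_cast
  rfl

theorem cv_vecMul (g : SpecialLinearGroup ι ℤ) (φ : ι → ℤ) : cv φ ᵥ* qm g = cv (φ ᵥ* mt g) := by
  funext i
  show ∑ j, (φ j : ℚ) * ((mt g j i : ℤ) : ℚ) = ((∑ j, φ j * mt g j i : ℤ) : ℚ)
  push_cast
  rfl

/-- matrices which commute with a transvection -/
theorem cent_eig {G : Matrix ι ι ℚ} {v φ : ι → ℚ} (hv : v ≠ 0) (hφ : φ ≠ 0)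
    (h : vecMulVec v φ * G = G * vecMulVec v φ) : ∃ c : ℚ, G *ᵥ v = c • v ∧ φ ᵥ* G = c • φ := by
  rw [vecMulVec_mul, mul_vecMulVec] at h
  have h1 : ∀ i j, v i * (φ ᵥ* G) j = (G *ᵥ v) i * φ j := fun i j => congrFun (congrFun h i) j
  obtain ⟨i₀, hi⟩ : ∃ i, v i ≠ 0 := Function.ne_iff.1 hv
  obtain ⟨j₀, hj⟩ : ∃ j, φ j ≠ 0 := Function.ne_iff.1 hφ
  have h2 : ∀ j, (φ ᵥ* G) j = ((G *ᵥ v) i₀ / v i₀) * φ j := by
    intro j
    rw [div_mul_eq_mul_div, ← h1 i₀ j, mul_div_cancel_left₀ _ hi]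
  refine ⟨(G *ᵥ v) i₀ / v i₀, ?_, ?_⟩
  · funext i
    have h3 := h1 i j₀
    rw [h2 j₀] at h3
    have h4 : (v i * ((G *ᵥ v) i₀ / v i₀) - (G *ᵥ v) i) * φ j₀ = 0 := by linear_combination h3
    have h5 := (mul_eq_zero.1 h4).resolve_right hj
    rw [Pi.smul_apply, smul_eq_mul]
    linear_combination -h5
  · funext j
    rw [h2 j, Pi.smul_apply, smul_eq_mul]

theorem one_le_eig {g : SpecialLinearGroup ι ℤ} {v : ι → ℤ} (hv : v ≠ 0) {c : ℚ}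
    (h : qm g *ᵥ cv v = c • cv v) : 1 ≤ |c| := by
  by_contra hc
  push Not at hc
  obtain ⟨i, hi⟩ : ∃ i, v i ≠ 0 := Function.ne_iff.1 hv
  have hi' : (v i : ℚ) ≠ 0 := by exact_mod_cast hi
  have hc0 : c ≠ 0 := by
    rintro rfl
    rw [zero_smul] at h
    have h1 := congrArg (qm g⁻¹ *ᵥ ·) h
    simp only [mulVec_mulVec, qm_inv_mul, one_mulVec, mulVec_zero] at h1
    exact cv_ne hv h1
  have hk : ∀ k : ℕ, qm (g ^ k) *ᵥ cv v = c ^ k • cv v := by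
    intro k
    induction k with
    | zero => rw [pow_zero, qm_one, one_mulVec, pow_zero, one_smul]
    | succ k ih =>
      rw [pow_succ, qm_mul, ← mulVec_mulVec, h, mulVec_smul, ih, smul_smul, pow_succ, mul_comm]
  obtain ⟨k, hk'⟩ := exists_pow_lt_of_lt_one (show 0 < |(v i : ℚ)|⁻¹ by positivity) hc
  have h1 : (c ^ k) * (v i : ℚ) = (((mt (g ^ k) *ᵥ v) i : ℤ) : ℚ) := by
    have := congrFun (hk k) i
    rw [cv_mulVec] at this
    exact this.symm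
  have h2 : ((mt (g ^ k) *ᵥ v) i : ℤ) ≠ 0 := by
    intro h0
    rw [h0, Int.cast_zero] at h1
    rcases mul_eq_zero.1 h1 with h3 | h3
    · exact pow_ne_zero k hc0 h3
    · exact hi' h3
  have h3 : (1 : ℚ) ≤ |(((mt (g ^ k) *ᵥ v) i : ℤ) : ℚ)| := by
    have := Int.one_le_abs h2
    exact_mod_cast this
  rw [← h1, abs_mul, abs_pow] at h3
  have h4 : |c| ^ k * |(v i : ℚ)| < 1 := by
    calc |c| ^ k * |(v i : ℚ)| < |(v i : ℚ)|⁻¹ * |(v i : ℚ)| :=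
          mul_lt_mul_of_pos_right hk' (abs_pos.2 hi')
      _ = 1 := inv_mul_cancel₀ (abs_ne_zero.2 hi')
  linarith

theorem eig_sq {g : SpecialLinearGroup ι ℤ} {v : ι → ℤ} (hv : v ≠ 0) {c : ℚ}
    (h : qm g *ᵥ cv v = c • cv v) : c * c = 1 := by
  have h1 := one_le_eig hv h
  have hc0 : c ≠ 0 := by
    rintro rfl
    norm_num at h1
  have h2 : qm g⁻¹ *ᵥ cv v = c⁻¹ • cv v := by
    have h3 := congrArg (qm g⁻¹ *ᵥ ·) h
    simp only [mulVec_mulVec, qm_inv_mul, one_mulVec, mulVec_smul] at h3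
    have h4 := congrArg (c⁻¹ • ·) h3
    simp only [smul_smul, inv_mul_cancel₀ hc0, one_smul] at h4
    exact h4.symm
  have h3 := one_le_eig hv h2
  rw [abs_inv] at h3
  have h4 : |c| ≤ 1 := by
    by_contra h5
    push Not at h5
    have := inv_lt_one_of_one_lt₀ h5
    linarith
  have h5 : |c| = 1 := le_antisymm h4 h1
  rw [← abs_mul_abs_self, h5, one_mul]

/-- the span of the symmetric powers -/
def B (g : SpecialLinearGroup ι ℤ) (m : ℕ) : Submodule ℚ (Matrix ι ι ℚ) :=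
  Submodule.span ℚ {X | ∃ j : ℕ, X = qm (g ^ (m * j)) + qm (g ^ (m * j))⁻¹}

theorem B_mul (g : SpecialLinearGroup ι ℤ) (m n : ℕ) : B g (m * n) ≤ B g m := by
  refine Submodule.span_le.2 ?_
  rintro _ ⟨j, rfl⟩
  exact Submodule.subset_span ⟨n * j, by rw [mul_assoc]⟩

theorem exists_stable (g : SpecialLinearGroup ι ℤ) :
    ∃ m₀ : ℕ, 0 < m₀ ∧ ∀ m : ℕ, 0 < m → B g (m₀ * m) = B g m₀ := by
  let S : Set ℕ := {d | ∃ m : ℕ, 0 < m ∧ Module.finrank ℚ (B g m) = d}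
  have hS : S.Nonempty := ⟨_, 1, one_pos, rfl⟩
  obtain ⟨m₀, hm₀, hd⟩ := Nat.sInf_mem hS
  refine ⟨m₀, hm₀, fun m hm => ?_⟩
  refine Submodule.eq_of_le_of_finrank_le (B_mul g m₀ m) ?_
  rw [hd]
  exact Nat.sInf_le ⟨m₀ * m, Nat.mul_pos hm₀ hm, rfl⟩

theorem exists_y {A : Matrix ι ι ℚ} {φ : ι → ℚ} (hA : A ≠ 0) (hφ : φ ≠ 0) :
    ∃ y, A *ᵥ y ≠ 0 ∧ φ ⬝ᵥ y ≠ 0 := by
  obtain ⟨a, ha⟩ : ∃ a, A *ᵥ a ≠ 0 := by
    by_contra hcon
    push Not at hcon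
    apply hA
    ext i j
    have := congrFun (hcon (Pi.single j 1)) i
    rw [mulVec_single_one] at this
    exact this
  obtain ⟨j, hj⟩ : ∃ j, φ j ≠ 0 := Function.ne_iff.1 hφ
  have hb : φ ⬝ᵥ (Pi.single j 1) ≠ 0 := by
    rw [dotProduct_single, mul_one]
    exact hj
  by_cases h1 : φ ⬝ᵥ a = 0
  · by_cases h2 : A *ᵥ (Pi.single j 1) = 0
    · refine ⟨a + Pi.single j 1, ?_, ?_⟩
      · rw [mulVec_add, h2, add_zero]
        exact ha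
      · rw [dotProduct_add, h1, zero_add]
        exact hb
    · exact ⟨_, h2, hb⟩
  · exact ⟨a, ha, h1⟩

theorem exists_eta {y p q : ι → ℚ} (hp : p ∉ Submodule.span ℚ {y}) (hq : q ∉ Submodule.span ℚ {y}) :
    ∃ η : ι → ℚ, η ⬝ᵥ y = 0 ∧ η ⬝ᵥ p ≠ 0 ∧ η ⬝ᵥ q ≠ 0 := by
  obtain ⟨a, ha, hap⟩ := sep _ hp
  obtain ⟨b, hb, hbq⟩ := sep _ hq
  have ha' : a ⬝ᵥ y = 0 := by
    rw [dotProduct_comm]
    exact ha _ (Submodule.mem_span_singleton_self _)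
  have hb' : b ⬝ᵥ y = 0 := by
    rw [dotProduct_comm]
    exact hb _ (Submodule.mem_span_singleton_self _)
  rw [dotProduct_comm] at hap hbq
  by_cases h1 : a ⬝ᵥ q = 0
  · by_cases h2 : b ⬝ᵥ p = 0
    · exact ⟨a + b, by rw [add_dotProduct, ha', hb', add_zero],
        by rw [add_dotProduct, h2, add_zero]; exact hap,
        by rw [add_dotProduct, h1, zero_add]; exact hbq⟩
    · exact ⟨b, hb', h2, hbq⟩
  · exact ⟨a, ha', hap, h1⟩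

/-- general position for a matrix which is not scalar -/
theorem exists_pos {A : Matrix ι ι ℚ} {v φ : ι → ℚ} {r : ℚ} (hA : A - r • 1 ≠ 0) (hv : v ≠ 0)
    (hφ : φ ≠ 0) (h0 : φ ⬝ᵥ v = 0) (hAv : A *ᵥ v = r • v) (hφA : φ ᵥ* A = r • φ) :
    ∃ g : SpecialLinearGroup ι ℤ, (φ ⬝ᵥ (qm g⁻¹ *ᵥ v)) * ((φ ⬝ᵥ (qm g *ᵥ v)) *
      (φ ⬝ᵥ (qm g⁻¹ *ᵥ (A *ᵥ (qm g *ᵥ v))))) ≠ 0 := by
  obtain ⟨y, hy1, hy2⟩ := exists_y hA hφ
  have hy3 : (A - r • 1) *ᵥ y = A *ᵥ y - r • y := by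
    rw [sub_mulVec, smul_mulVec, one_mulVec]
  have n1 : v ∉ Submodule.span ℚ {y} := by
    intro hm
    obtain ⟨c, hc⟩ := Submodule.mem_span_singleton.1 hm
    have hc0 : c ≠ 0 := by
      rintro rfl
      exact hv (by rw [← hc, zero_smul])
    apply hy1
    have h1 : (A - r • 1) *ᵥ v = 0 := by
      rw [sub_mulVec, smul_mulVec, one_mulVec, hAv, sub_self]
    rw [← hc, mulVec_smul] at h1
    exact (smul_eq_zero.1 h1).resolve_left hc0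
  have n2 : (A - r • 1) *ᵥ y ∉ Submodule.span ℚ {y} := by
    intro hm
    obtain ⟨c, hc⟩ := Submodule.mem_span_singleton.1 hm
    have h1 : φ ⬝ᵥ ((A - r • 1) *ᵥ y) = 0 := by
      rw [hy3, dotProduct_sub, dotProduct_mulVec, hφA, smul_dotProduct, dotProduct_smul, sub_self]
    rw [← hc, dotProduct_smul, smul_eq_mul] at h1
    have hc0 : c = 0 := (mul_eq_zero.1 h1).resolve_right hy2
    rw [hc0, zero_smul] at hc
    exact hy1 hc.symm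
  obtain ⟨η, hη0, hη1, hη2⟩ := exists_eta n1 n2
  obtain ⟨-, s, hs, g, -, hg⟩ := T_top hη0
  have hsQ : (s : ℚ) ≠ 0 := by exact_mod_cast hs
  refine ⟨g, ?_⟩
  have hη3 : η ⬝ᵥ (A *ᵥ y) = η ⬝ᵥ ((A - r • 1) *ᵥ y) := by
    rw [hy3, dotProduct_sub, dotProduct_smul, hη0, smul_zero, sub_zero]
  have hφy : φ ⬝ᵥ (A *ᵥ y) = r * (φ ⬝ᵥ y) := by
    rw [dotProduct_mulVec, hφA, smul_dotProduct, smul_eq_mul]
  have e1 : φ ⬝ᵥ (qm g *ᵥ v) = s * (η ⬝ᵥ v) * (φ ⬝ᵥ y) := by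
    rw [act hg, dotProduct_add, dotProduct_smul, h0, zero_add, smul_eq_mul]
  have e2 : φ ⬝ᵥ (qm g⁻¹ *ᵥ v) = -(s * (η ⬝ᵥ v) * (φ ⬝ᵥ y)) := by
    rw [act_inv hη0 hg, dotProduct_sub, dotProduct_smul, h0, zero_sub, smul_eq_mul]
  have e3 : φ ⬝ᵥ (qm g⁻¹ *ᵥ (A *ᵥ (qm g *ᵥ v))) =
      -(s ^ 2 * (η ⬝ᵥ v) * (φ ⬝ᵥ y) * (η ⬝ᵥ ((A - r • 1) *ᵥ y))) := by
    rw [act hg, mulVec_add, mulVec_smul, hAv, act_inv hη0 hg]
    simp only [dotProduct_add, dotProduct_sub, dotProduct_smul, h0, hφy, hη3, smul_eq_mul]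
    ring
  rw [e1, e2, e3]
  refine mul_ne_zero (neg_ne_zero.2 ?_) (mul_ne_zero ?_ (neg_ne_zero.2 ?_))
  · exact mul_ne_zero (mul_ne_zero hsQ hη1) hy2
  · exact mul_ne_zero (mul_ne_zero hsQ hη1) hy2
  · exact mul_ne_zero (mul_ne_zero (mul_ne_zero (pow_ne_zero _ hsQ) hη1) hy2) hη2

/-- **the centralizer of a transvection**, for an element which fixes the vector and the functional -/
theorem full_cent_aux (hH : ZDense H) {x g : SpecialLinearGroup ι ℤ} (hx : x ∈ H) (hg : g ∈ H)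
    {v φ : ι → ℤ} (hv : v ≠ 0) (hφ : φ ≠ 0) (h0 : φ ⬝ᵥ v = 0) (ex : mt x = 1 + vecMulVec v φ)
    (hgv : qm g *ᵥ cv v = cv v) (hφg : cv φ ᵥ* qm g = cv φ)
    (hsq : ∀ k : ℕ, 0 < k → (qm (g ^ k) - 1) * (qm (g ^ k) - 1) ≠ 0) : ∃ p ≠ 0, Full H p := by
  have hφv : cv φ ⬝ᵥ cv v = 0 := by rw [cv_dot, h0, Int.cast_zero]
  -- powers of `g`
  have hkv : ∀ k : ℕ, qm (g ^ k) *ᵥ cv v = cv v := by
    intro k
    induction k with
    | zero => rw [pow_zero, qm_one, one_mulVec]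
    | succ k ih => rw [pow_succ, qm_mul, ← mulVec_mulVec, hgv, ih]
  have hkφ : ∀ k : ℕ, cv φ ᵥ* qm (g ^ k) = cv φ := by
    intro k
    induction k with
    | zero => rw [pow_zero, qm_one, vecMul_one]
    | succ k ih => rw [pow_succ, qm_mul, ← vecMul_vecMul, ih, hφg]
  have hkv' : ∀ k : ℕ, qm (g ^ k)⁻¹ *ᵥ cv v = cv v := by
    intro k
    conv_lhs => rw [← hkv k]
    rw [mulVec_mulVec, qm_inv_mul, one_mulVec]
  have hkφ' : ∀ k : ℕ, cv φ ᵥ* qm (g ^ k)⁻¹ = cv φ := by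
    intro k
    conv_lhs => rw [← hkφ k]
    rw [vecMul_vecMul, qm_mul_inv, vecMul_one]
  obtain ⟨m₀, hm₀, hst⟩ := exists_stable g
  obtain ⟨A, hA⟩ : ∃ A, A = qm (g ^ m₀) + qm (g ^ m₀)⁻¹ := ⟨_, rfl⟩
  have hAmem : A ∈ B g m₀ := Submodule.subset_span ⟨1, by rw [mul_one]; exact hA⟩
  have hA2 : A - (2 : ℚ) • 1 ≠ 0 := by
    intro h1
    apply hsq m₀ hm₀
    have h2 : (qm (g ^ m₀) - 1) * (qm (g ^ m₀) - 1) = qm (g ^ m₀) * (A - (2 : ℚ) • 1) := by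
      have h3 : qm (g ^ m₀) * (A - (2 : ℚ) • 1) =
          qm (g ^ m₀) * qm (g ^ m₀) + 1 - (qm (g ^ m₀) + qm (g ^ m₀)) := by
        rw [hA, mul_sub, mul_add (qm (g ^ m₀)), qm_mul_inv, mul_smul_comm, mul_one, two_smul]
      rw [h3]
      noncomm_ring
    rw [h2, h1, mul_zero]
  have hAv : A *ᵥ cv v = (2 : ℚ) • cv v := by
    rw [hA, add_mulVec, hkv, hkv', two_smul]
  have hφA : cv φ ᵥ* A = (2 : ℚ) • cv φ := by
    rw [hA, vecMul_add, hkφ, hkφ', two_smul]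
  obtain ⟨g₁, hg₁⟩ := exists_pos hA2 (cv_ne hv) (cv_ne hφ) hφv hAv hφA
  have hF : (fun z => (cv φ ⬝ᵥ (qm z⁻¹ *ᵥ cv v)) * ((cv φ ⬝ᵥ (qm z *ᵥ cv v)) *
      (cv φ ⬝ᵥ (qm z⁻¹ *ᵥ (A *ᵥ (qm z *ᵥ cv v)))))) ∈ Reg ι :=
    reg_mul (reg_div _ _) (reg_mul (reg_dv _ _) (reg_mid _ _ _))
  obtain ⟨h, hh, hne⟩ : ∃ z ∈ H, (cv φ ⬝ᵥ (qm z⁻¹ *ᵥ cv v)) * ((cv φ ⬝ᵥ (qm z *ᵥ cv v)) *
      (cv φ ⬝ᵥ (qm z⁻¹ *ᵥ (A *ᵥ (qm z *ᵥ cv v))))) ≠ 0 := by
    by_contra hcon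
    push Not at hcon
    exact hg₁ (hH _ hF hcon g₁)
  have n1 := left_ne_zero_of_mul hne
  have n2 := left_ne_zero_of_mul (right_ne_zero_of_mul hne)
  have n3 := right_ne_zero_of_mul (right_ne_zero_of_mul hne)
  -- the conjugate transvection
  obtain ⟨w, hw⟩ : ∃ w, w = mt h *ᵥ v := ⟨_, rfl⟩
  obtain ⟨ψ, hψ⟩ : ∃ ψ, ψ = φ ᵥ* mt h⁻¹ := ⟨_, rfl⟩
  have cw : cv w = qm h *ᵥ cv v := by rw [hw, cv_mulVec]
  have cψ : cv ψ = cv φ ᵥ* qm h⁻¹ := by rw [hψ, cv_vecMul]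
  have hT : T H (cv w) (cv ψ) := by
    rw [cw, cψ]
    exact (cv_T hx h0 ex).conj hh
  have hw0 : cv w ≠ 0 := by
    intro h1
    rw [← cw, h1, dotProduct_zero] at n2
    exact n2 rfl
  have hψ0 : cv ψ ≠ 0 := by
    intro h1
    rw [dotProduct_mulVec, ← cψ, h1, zero_dotProduct] at n1
    exact n1 rfl
  rw [dotProduct_mulVec, ← cψ, cv_dot] at n1
  rw [← cw, cv_dot] at n2
  rw [dotProduct_mulVec, ← cψ, ← cw] at n3
  have g1 : ψ ⬝ᵥ v ≠ 0 := by exact_mod_cast n1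
  have g2 : φ ⬝ᵥ w ≠ 0 := by exact_mod_cast n2
  have hψw : ψ ⬝ᵥ w = 0 := by
    have := hT.1
    rw [cv_dot] at this
    exact_mod_cast this
  obtain ⟨γ, hγ⟩ : ∃ γ : ℤ, γ = (ψ ⬝ᵥ v) * (φ ⬝ᵥ w) := ⟨_, rfl⟩
  have hγ0 : γ ≠ 0 := by
    rw [hγ]
    exact mul_ne_zero g1 g2
  -- the order of `g` modulo `γ`
  have : NeZero γ.natAbs := ⟨Int.natAbs_ne_zero.2 hγ0⟩
  obtain ⟨m, hm, hmg⟩ : ∃ m : ℕ, 0 < m ∧ ∀ j : ℕ, Cgr γ (g ^ (m * j)) := by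
    refine ⟨orderOf (SpecialLinearGroup.map (n := ι) (Int.castRingHom (ZMod γ.natAbs)) g),
      orderOf_pos _, fun j => ?_⟩
    rw [cgr_iff, MonoidHom.mem_ker, map_pow, pow_mul, pow_orderOf_eq_one, one_pow]
  by_contra hnone
  push Not at hnone
  -- the key computation
  have key : ∀ j : ℕ, cv ψ ⬝ᵥ ((qm (g ^ (m₀ * m * j)) + qm (g ^ (m₀ * m * j))⁻¹) *ᵥ cv w) = 0 := by
    intro j
    obtain ⟨k, hk⟩ : ∃ k, k = m₀ * m * j := ⟨_, rfl⟩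
    rw [← hk]
    have hkγ : Cgr γ (g ^ k) := by
      have := hmg (m₀ * j)
      rw [show m * (m₀ * j) = k by rw [hk]; ring] at this
      exact this
    have hdvd : γ ∣ ψ ⬝ᵥ (mt (g ^ k) *ᵥ w) := by
      have e : ψ ⬝ᵥ (mt (g ^ k) *ᵥ w) = ψ ⬝ᵥ (mt (g ^ k) *ᵥ w) - ψ ⬝ᵥ ((1 : Matrix ι ι ℤ) *ᵥ w) := by
        rw [one_mulVec, hψw, sub_zero]
      rw [e, ← dotProduct_sub, ← sub_mulVec]
      refine Finset.dvd_sum fun a _ => Dvd.dvd.mul_left (Finset.dvd_sum fun b _ => ?_) _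
      exact (hkγ a b).mul_right _
    obtain ⟨t, ht⟩ := hdvd
    have ht' : cv ψ ⬝ᵥ (qm (g ^ k) *ᵥ cv w) = (γ : ℚ) * t := by
      rw [cv_mulVec, cv_dot, ht]
      push_cast
      rfl
    -- the element `u`
    have hxz : ∀ r : ℤ, ∀ z, qm (x ^ r) *ᵥ z = z + ((r : ℚ) * (cv φ ⬝ᵥ z)) • cv v := by
      intro r z
      have h1 : qm x = 1 + ((1 : ℤ) : ℚ) • vecMulVec (cv v) (cv φ) := by
        rw [cv_qm ex, Int.cast_one, one_smul]
      have := T.pow hφv h1 r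
      rw [one_mul] at this
      exact act this z
    obtain ⟨u, hu⟩ : ∃ u, u = x ^ (-t) * g ^ k := ⟨_, rfl⟩
    have huH : u ∈ H := by
      rw [hu]
      exact H.mul_mem (H.zpow_mem hx _) (H.pow_mem hg _)
    have e1 : cv ψ ⬝ᵥ (qm u *ᵥ cv w) = 0 := by
      rw [hu, qm_mul, ← mulVec_mulVec, hxz, dotProduct_add, dotProduct_smul, ht', dotProduct_mulVec
        (cv φ), hkφ, cv_dot, cv_dot, hγ]
      push_cast
      simp only [smul_eq_mul]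
      ring
    have e2 : (cv ψ ᵥ* qm u⁻¹) ⬝ᵥ cv w =
        cv ψ ⬝ᵥ ((qm (g ^ k) + qm (g ^ k)⁻¹) *ᵥ cv w) := by
      rw [← dotProduct_mulVec, hu, _root_.mul_inv_rev, ← _root_.zpow_neg, neg_neg, qm_mul, ← mulVec_mulVec, hxz,
        mulVec_add, mulVec_smul, hkv', dotProduct_add, dotProduct_smul, add_mulVec, dotProduct_add,
        ht', cv_dot, cv_dot, hγ]
      push_cast
      simp only [smul_eq_mul]
      ring
    by_contra hne0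
    rw [← e2] at hne0
    have hTu := hT.conj huH
    have hTu2 : T H (qm u *ᵥ cv w) (cv ψ) := hTu.comm hT e1 hne0
    have hu0 : qm u *ᵥ cv w ≠ 0 := by
      intro h1
      apply hw0
      have := congrArg (qm u⁻¹ *ᵥ ·) h1
      simp only [mulVec_mulVec, qm_inv_mul, one_mulVec, mulVec_zero] at this
      exact this
    exact hnone _ hu0 (full_of_two hH hu0 hTu2 hTu fun a b => not_prop_of hψ0 hT.1 hne0 a b)
  -- conclusion
  have hker : ∀ X ∈ B g (m₀ * m), cv ψ ⬝ᵥ (X *ᵥ cv w) = 0 := by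
    intro X hX
    unfold B at hX
    induction hX using Submodule.span_induction with
    | mem X hX =>
      obtain ⟨j, rfl⟩ := hX
      exact key j
    | zero => rw [zero_mulVec, dotProduct_zero]
    | add X Y _ _ hX hY => rw [add_mulVec, dotProduct_add, hX, hY, add_zero]
    | smul c X _ hX => rw [smul_mulVec, dotProduct_smul, hX, smul_zero]
  rw [hst m hm] at hker
  exact n3 (hker A hAmem)

/-- **the centralizer of a transvection** -/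
theorem full_cent (hH : ZDense H) {x g : SpecialLinearGroup ι ℤ} (hx : x ∈ H) (hg : g ∈ H)
    {v φ : ι → ℤ} (hv : v ≠ 0) (hφ : φ ≠ 0) (h0 : φ ⬝ᵥ v = 0) (ex : mt x = 1 + vecMulVec v φ)
    (hxg : x * g = g * x) (hsq : ∀ k : ℕ, 0 < k → (mt (g ^ k) - 1) * (mt (g ^ k) - 1) ≠ 0) :
    ∃ p ≠ 0, Full H p := by
  have h1 : vecMulVec (cv v) (cv φ) * qm g = qm g * vecMulVec (cv v) (cv φ) := by
    have h2 := congrArg qm hxg
    rw [qm_mul, qm_mul, cv_qm ex, add_mul, mul_add, one_mul, mul_one] at h2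
    exact add_left_cancel h2
  obtain ⟨c, h2, h3⟩ := cent_eig (cv_ne hv) (cv_ne hφ) h1
  have h4 := eig_sq hv h2
  refine full_cent_aux hH hx (H.mul_mem hg hg) hv hφ h0 ex ?_ ?_ ?_
  · rw [qm_mul, ← mulVec_mulVec, h2, mulVec_smul, h2, smul_smul, h4, one_smul]
  · rw [qm_mul, ← vecMul_vecMul, h3, smul_vecMul, h3, smul_smul, h4, one_smul]
  · intro k hk h5
    apply hsq (2 * k) (by omega)
    have h6 : (g * g) ^ k = g ^ (2 * k) := by rw [pow_mul, pow_two]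
    rw [h6] at h5
    have h7 : ∀ i j, ((((mt (g ^ (2 * k)) - 1) * (mt (g ^ (2 * k)) - 1)) i j : ℤ) : ℚ) =
        ((qm (g ^ (2 * k)) - 1) * (qm (g ^ (2 * k)) - 1)) i j := by
      intro i j
      rw [mul_apply, mul_apply]
      push_cast
      have h8 : ∀ a b, (((mt (g ^ (2 * k)) - 1) a b : ℤ) : ℚ) = (qm (g ^ (2 * k)) - 1) a b := by
        intro a b
        rw [Matrix.sub_apply, Matrix.sub_apply]
        push_cast
        congr 1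
        rw [one_apply, one_apply]
        split_ifs <;> simp
      exact Finset.sum_congr rfl fun a _ => by rw [h8, h8]
    ext i j
    have h9 := h7 i j
    rw [h5] at h9
    show ((mt (g ^ (2 * k)) - 1) * (mt (g ^ (2 * k)) - 1)) i j = 0
    have h10 : (((mt (g ^ (2 * k)) - 1) * (mt (g ^ (2 * k)) - 1)) i j : ℚ) = (0 : Matrix ι ι ℚ) i j := h9
    rw [Matrix.zero_apply] at h10
    exact_mod_cast h10

end Pool.Agent.L5helper65.SL
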