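import Pool.Agent.L5helper65.SL.Three

/-!
# Transvections with a centralizer which is not virtually cyclic
-/

set_option autoImplicit false
set_option maxHeartbeats 400000
set_option linter.unusedSectionVars false
set_option linter.unusedSimpArgs false

namespace Pool.Agent.L5helper65.SL

open Matrix
open Pool.Agent.Helper460_CSP

variable {ι : Type} [DecidableEq ι] [Fintype ι] {H : Subgroup (SpecialLinearGroup ι ℤ)}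

/-- a product of two transvections in a hyperbolic position -/
theorem hyp_pow {P : Matrix ι ι ℚ} {w v : ι → ℚ} {m₁ m₂ M : ℚ} (hM : m₁ * m₂ = M) (hM0 : 0 < M)
    (h1 : P *ᵥ w = (1 + M) • w + m₁ • v) (h2 : P *ᵥ v = m₂ • w + v)
    (hind : ∀ a b : ℚ, a • w + b • v = 0 → a = 0 ∧ b = 0) (k : ℕ) (hk : 0 < k) :
    (P ^ k - 1) * (P ^ k - 1) ≠ 0 := by
  have key : ∀ k : ℕ, ∃ α β γ δ : ℚ, 0 < α ∧ 0 < β ∧ 0 < γ ∧ 0 < δ ∧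
      P ^ (k + 1) *ᵥ w = α • w + (m₁ * β) • v ∧ P ^ (k + 1) *ᵥ v = (m₂ * γ) • w + δ • v := by
    intro k
    induction k with
    | zero =>
      refine ⟨1 + M, 1, 1, 1, by linarith, one_pos, one_pos, one_pos, ?_, ?_⟩
      · rw [zero_add, pow_one, h1, mul_one]
      · rw [zero_add, pow_one, h2, mul_one, one_smul]
    | succ k ih =>
      obtain ⟨α, β, γ, δ, hα, hβ, hγ, hδ, e1, e2⟩ := ih
      refine ⟨(1 + M) * α + M * γ, (1 + M) * β + δ, α + γ, M * β + δ, by positivity, by positivity,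
        by positivity, by positivity, ?_, ?_⟩
      · rw [pow_succ, ← mulVec_mulVec, h1, mulVec_add, mulVec_smul, mulVec_smul, e1, e2, ← hM]
        module
      · rw [pow_succ, ← mulVec_mulVec, h2, mulVec_add, mulVec_smul, e1, e2, ← hM]
        module
  obtain ⟨j, rfl⟩ : ∃ j, k = j + 1 := ⟨k - 1, by omega⟩
  obtain ⟨α, β, γ, δ, hα, hβ, hγ, hδ, e1, e2⟩ := key j
  intro h0
  have h3 : ((P ^ (j + 1) - 1) * (P ^ (j + 1) - 1)) *ᵥ w =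
      ((α - 1) ^ 2 + M * (β * γ)) • w + (α * (m₁ * β) + m₁ * β * δ - 2 * (m₁ * β)) • v := by
    have e3 : (P ^ (j + 1) - 1) *ᵥ w = (α - 1) • w + (m₁ * β) • v := by
      rw [sub_mulVec, one_mulVec, e1]
      module
    rw [← mulVec_mulVec, e3, sub_mulVec, one_mulVec, mulVec_add, mulVec_smul, mulVec_smul, e1, e2,
      ← hM]
    module
  rw [h0, zero_mulVec] at h3
  have h4 := (hind _ _ h3.symm).1
  have h5 : 0 < (α - 1) ^ 2 + M * (β * γ) := by positivity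
  linarith

theorem qm_pow' (g : SpecialLinearGroup ι ℤ) (k : ℕ) : qm (g ^ k) = qm g ^ k := by
  induction k with
  | zero => rw [pow_zero, pow_zero, qm_one]
  | succ k ih => rw [pow_succ, pow_succ, qm_mul, ih]

/-- the product of a commuting pair -/
theorem u_act {x g : SpecialLinearGroup ι ℤ} {v φ : ι → ℚ} {A : Matrix ι ι ℚ}
    (hx : qm x = 1 + vecMulVec v φ) (hg : qm g = 1 + A) (hφv : φ ⬝ᵥ v = 0) (hA : A * A = 0)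
    (hAv : A *ᵥ v = 0) (hφA : φ ᵥ* A = 0) (s k : ℤ) (t : ι → ℚ) :
    qm (x ^ s * g ^ k) *ᵥ t = t + (k : ℚ) • (A *ᵥ t) + ((s : ℚ) * (φ ⬝ᵥ t)) • v ∧
    qm (x ^ s * g ^ k)⁻¹ *ᵥ t = t - (k : ℚ) • (A *ᵥ t) - ((s : ℚ) * (φ ⬝ᵥ t)) • v := by
  have e1 : ∀ r : ℤ, ∀ t, qm (x ^ r) *ᵥ t = t + ((r : ℚ) * (φ ⬝ᵥ t)) • v := by
    intro r t
    rw [qm_zpow hx (vv_sq hφv), add_mulVec, one_mulVec, smul_mulVec, vv_mulVec, smul_smul]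
  have e2 : ∀ r : ℤ, ∀ t, qm (g ^ r) *ᵥ t = t + (r : ℚ) • (A *ᵥ t) := by
    intro r t
    rw [qm_zpow hg hA, add_mulVec, one_mulVec, smul_mulVec]
  have e3 : ∀ t, φ ⬝ᵥ (A *ᵥ t) = 0 := by
    intro t
    rw [dotProduct_mulVec, hφA, zero_dotProduct]
  refine ⟨?_, ?_⟩
  · rw [qm_mul, ← mulVec_mulVec, e2, e1, dotProduct_add, dotProduct_smul, e3, smul_zero, add_zero]
  · rw [_root_.mul_inv_rev, ← _root_.zpow_neg, ← _root_.zpow_neg, qm_mul, ← mulVec_mulVec, e1, e2,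
      mulVec_add, mulVec_smul, hAv, smul_zero, add_zero]
    push_cast
    rw [neg_mul, neg_smul, neg_smul]
    abel

/-- **the commuting conjugate**: `h` in general position gives a conjugate of `x` commuting with `x` -/
theorem comm_conj {x g h : SpecialLinearGroup ι ℤ} {v φ : ι → ℤ} {A : Matrix ι ι ℚ}
    (hx : mt x = 1 + vecMulVec v φ) (hg : qm g = 1 + A) (hφv : φ ⬝ᵥ v = 0) (hA : A * A = 0)
    (hAv : A *ᵥ cv v = 0) (hφA : cv φ ᵥ* A = 0) (hxH : x ∈ H) (hgH : g ∈ H) (hhH : h ∈ H) :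
    ∃ q ∈ H, cv φ ⬝ᵥ (qm q *ᵥ cv v) = 0 ∧ cv φ ⬝ᵥ (qm q⁻¹ *ᵥ cv v) = 0 ∧
      (∀ θ : ι → ℚ, θ ⬝ᵥ cv v = 0 → θ ⬝ᵥ (qm q *ᵥ cv v) = (cv φ ⬝ᵥ (qm h *ᵥ cv v)) *
        ((cv φ ⬝ᵥ (qm h⁻¹ *ᵥ cv v)) * (θ ⬝ᵥ (qm h⁻¹ *ᵥ (A *ᵥ (qm h *ᵥ cv v)))) -
          (cv φ ⬝ᵥ (qm h⁻¹ *ᵥ (A *ᵥ (qm h *ᵥ cv v)))) * (θ ⬝ᵥ (qm h⁻¹ *ᵥ cv v)))) ∧
      (∀ t : ι → ℚ, cv φ ⬝ᵥ t = 0 → cv φ ⬝ᵥ (qm q⁻¹ *ᵥ t) = -(cv φ ⬝ᵥ (qm h⁻¹ *ᵥ cv v)) *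
        ((cv φ ⬝ᵥ (qm h *ᵥ cv v)) * (cv φ ⬝ᵥ (qm h⁻¹ *ᵥ (A *ᵥ (qm h *ᵥ t)))) -
          (cv φ ⬝ᵥ (qm h⁻¹ *ᵥ (A *ᵥ (qm h *ᵥ cv v)))) * (cv φ ⬝ᵥ (qm h *ᵥ t)))) := by
  have hφv' : cv φ ⬝ᵥ cv v = 0 := by rw [cv_dot, hφv, Int.cast_zero]
  -- the exponents
  obtain ⟨k, hk⟩ : ∃ k : ℤ, (k : ℚ) = (cv φ ⬝ᵥ (qm h⁻¹ *ᵥ cv v)) * (cv φ ⬝ᵥ (qm h *ᵥ cv v)) := by
    rw [cv_mulVec, cv_mulVec, cv_dot, cv_dot]
    exact ⟨_, Int.cast_mul _ _⟩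
  obtain ⟨s, hs⟩ : ∃ s : ℤ, (s : ℚ) = -(cv φ ⬝ᵥ (qm h⁻¹ *ᵥ (A *ᵥ (qm h *ᵥ cv v)))) := by
    have e : A *ᵥ (qm h *ᵥ cv v) = qm g *ᵥ (qm h *ᵥ cv v) - qm h *ᵥ cv v := by
      rw [hg, add_mulVec, one_mulVec]
      abel
    rw [e, mulVec_sub, mulVec_mulVec, mulVec_mulVec, mulVec_mulVec, ← qm_mul, ← qm_mul, ← qm_mul,
      inv_mul_cancel, qm_one, one_mulVec, dotProduct_sub, hφv', sub_zero, cv_mulVec, cv_dot]
    exact ⟨_, Int.cast_neg _⟩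
  obtain ⟨Z, hZ⟩ : ∃ Z, Z = qm h *ᵥ cv v := ⟨_, rfl⟩
  have hu := u_act (cv_qm hx) hg hφv' hA hAv hφA s k
  refine ⟨h⁻¹ * (x ^ s * g ^ k) * h, H.mul_mem (H.mul_mem (H.inv_mem hhH)
    (H.mul_mem (H.zpow_mem hxH _) (H.zpow_mem hgH _))) hhH, ?_⟩
  have hinv : ∀ t, qm h⁻¹ *ᵥ (qm h *ᵥ t) = t := by
    intro t
    rw [mulVec_mulVec, qm_inv_mul, one_mulVec]
  have q1 : ∀ t, qm (h⁻¹ * (x ^ s * g ^ k) * h) *ᵥ t = t + (k : ℚ) • (qm h⁻¹ *ᵥ (A *ᵥ (qm h *ᵥ t))) +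
      ((s : ℚ) * (cv φ ⬝ᵥ (qm h *ᵥ t))) • (qm h⁻¹ *ᵥ cv v) := by
    intro t
    rw [qm_mul, qm_mul, ← mulVec_mulVec, ← mulVec_mulVec, (hu _).1, mulVec_add, mulVec_add,
      mulVec_smul, mulVec_smul, hinv]
  have q2 : ∀ t, qm (h⁻¹ * (x ^ s * g ^ k) * h)⁻¹ *ᵥ t = t - (k : ℚ) • (qm h⁻¹ *ᵥ (A *ᵥ (qm h *ᵥ t))) -
      ((s : ℚ) * (cv φ ⬝ᵥ (qm h *ᵥ t))) • (qm h⁻¹ *ᵥ cv v) := by
    intro t
    have e : (h⁻¹ * (x ^ s * g ^ k) * h)⁻¹ = h⁻¹ * (x ^ s * g ^ k)⁻¹ * h := by group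
    rw [e, qm_mul, qm_mul, ← mulVec_mulVec, ← mulVec_mulVec, (hu _).2, mulVec_sub, mulVec_sub,
      mulVec_smul, mulVec_smul, hinv]
  refine ⟨?_, ?_, ?_, ?_⟩
  · rw [q1, dotProduct_add, dotProduct_add, dotProduct_smul, dotProduct_smul, hφv', hk, hs]
    simp only [smul_eq_mul]
    ring
  · rw [q2, dotProduct_sub, dotProduct_sub, dotProduct_smul, dotProduct_smul, hφv', hk, hs]
    simp only [smul_eq_mul]
    ring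
  · intro θ hθ
    rw [q1, dotProduct_add, dotProduct_add, dotProduct_smul, dotProduct_smul, hθ, hk, hs]
    simp only [smul_eq_mul]
    ring
  · intro t ht
    rw [q2, dotProduct_sub, dotProduct_sub, dotProduct_smul, dotProduct_smul, ht, hk, hs]
    simp only [smul_eq_mul]
    ring

/-- **orthogonal commuting transvections** -/
theorem full_orth (hH : ZDense H) {x g : SpecialLinearGroup ι ℤ} (hxH : x ∈ H) (hgH : g ∈ H)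
    {v φ w ψ : ι → ℤ} (hx : mt x = 1 + vecMulVec v φ) (hg : mt g = 1 + vecMulVec w ψ)
    (hφv : φ ⬝ᵥ v = 0) (hψw : ψ ⬝ᵥ w = 0) (hφw : φ ⬝ᵥ w = 0) (hψv : ψ ⬝ᵥ v = 0)
    (h1 : ∀ a b : ℚ, a • cv v + b • cv w = 0 → a = 0 ∧ b = 0)
    (h2 : ∀ a b : ℚ, a • cv φ + b • cv ψ = 0 → a = 0 ∧ b = 0) : ∃ p ≠ 0, Full H p := by
  have q1 : cv φ ⬝ᵥ cv v = 0 := by rw [cv_dot, hφv, Int.cast_zero]
  have q2 : cv ψ ⬝ᵥ cv w = 0 := by rw [cv_dot, hψw, Int.cast_zero]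
  have q3 : cv φ ⬝ᵥ cv w = 0 := by rw [cv_dot, hφw, Int.cast_zero]
  have q4 : cv ψ ⬝ᵥ cv v = 0 := by rw [cv_dot, hψv, Int.cast_zero]
  have hv0 : v ≠ 0 := by
    rintro rfl
    have := (h1 1 0 (by
      rw [one_smul, zero_smul, add_zero]
      funext i
      simp [cv])).1
    exact one_ne_zero this
  have hφ0 : φ ≠ 0 := by
    rintro rfl
    have := (h2 1 0 (by
      rw [one_smul, zero_smul, add_zero]
      funext i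
      simp [cv])).1
    exact one_ne_zero this
  -- functionals dual to `v`, `w`
  obtain ⟨ξ, hξw, hξv⟩ : ∃ ξ : ι → ℚ, ξ ⬝ᵥ cv w = 0 ∧ ξ ⬝ᵥ cv v ≠ 0 := by
    have hn : cv v ∉ Submodule.span ℚ {cv w} := by
      intro hm
      obtain ⟨c, hc⟩ := Submodule.mem_span_singleton.1 hm
      have := (h1 (-1) c (by rw [hc]; simp)).1
      norm_num at this
    obtain ⟨ξ, e1, e2⟩ := sep _ hn
    exact ⟨ξ, by rw [dotProduct_comm]; exact e1 _ (Submodule.mem_span_singleton_self _),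
      by rw [dotProduct_comm]; exact e2⟩
  obtain ⟨η, hηv, hηw⟩ : ∃ η : ι → ℚ, η ⬝ᵥ cv v = 0 ∧ η ⬝ᵥ cv w ≠ 0 := by
    have hn : cv w ∉ Submodule.span ℚ {cv v} := by
      intro hm
      obtain ⟨c, hc⟩ := Submodule.mem_span_singleton.1 hm
      have := (h1 c (-1) (by rw [hc]; simp)).2
      norm_num at this
    obtain ⟨ξ, e1, e2⟩ := sep _ hn
    exact ⟨ξ, by rw [dotProduct_comm]; exact e1 _ (Submodule.mem_span_singleton_self _),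
      by rw [dotProduct_comm]; exact e2⟩
  -- vectors dual to `φ`, `ψ` in the kernel of `ξ`, `η`
  have ev : ∀ (χ χ' : ι → ℚ), χ ⬝ᵥ cv v = 0 → χ ⬝ᵥ cv w = 0 → χ' ⬝ᵥ cv v = 0 → χ' ⬝ᵥ cv w = 0 →
      χ ∈ Submodule.span ℚ {χ', ξ, η} → ∃ a : ℚ, a • χ' = χ := by
    intro χ χ' e1 e2 e3 e4 hm
    obtain ⟨a, b, c, rfl⟩ := Submodule.mem_span_triple.1 hm
    rw [add_dotProduct, add_dotProduct, smul_dotProduct, smul_dotProduct, smul_dotProduct, e3, hηv,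
      smul_zero, smul_zero, zero_add, add_zero, smul_eq_mul] at e1
    have hb : b = 0 := (mul_eq_zero.1 e1).resolve_right hξv
    rw [add_dotProduct, add_dotProduct, smul_dotProduct, smul_dotProduct, smul_dotProduct, e4, hξw,
      smul_zero, smul_zero, zero_add, zero_add, smul_eq_mul] at e2
    have hc : c = 0 := (mul_eq_zero.1 e2).resolve_right hηw
    exact ⟨a, by rw [hb, hc, zero_smul, zero_smul, add_zero, add_zero]⟩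
  have n1 : cv φ ∉ Submodule.span ℚ {cv ψ, ξ, η} := by
    intro hm
    obtain ⟨a, ha⟩ := ev _ _ q1 q3 q4 q2 hm
    have := (h2 (-1) a (by rw [ha]; simp)).1
    norm_num at this
  have n2 : cv ψ ∉ Submodule.span ℚ {cv φ, ξ, η} := by
    intro hm
    obtain ⟨a, ha⟩ := ev _ _ q4 q2 q1 q3 hm
    have := (h2 a (-1) (by rw [ha]; simp)).2
    norm_num at this
  obtain ⟨y₁, hy₁, hφy₁⟩ := sep _ n1
  obtain ⟨y₂, hy₂, hψy₂⟩ := sep _ n2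
  have a1 : cv ψ ⬝ᵥ y₁ = 0 := hy₁ _ (Submodule.subset_span (by simp))
  have a2 : ξ ⬝ᵥ y₁ = 0 := hy₁ _ (Submodule.subset_span (by simp))
  have a3 : η ⬝ᵥ y₁ = 0 := hy₁ _ (Submodule.subset_span (by simp))
  have b1 : cv φ ⬝ᵥ y₂ = 0 := hy₂ _ (Submodule.subset_span (by simp))
  have b2 : ξ ⬝ᵥ y₂ = 0 := hy₂ _ (Submodule.subset_span (by simp))
  have b3 : η ⬝ᵥ y₂ = 0 := hy₂ _ (Submodule.subset_span (by simp))
  have c1 : ξ ⬝ᵥ (y₁ + y₂) = 0 := by rw [dotProduct_add, a2, b2, add_zero]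
  have c2 : η ⬝ᵥ (y₁ + y₂) = 0 := by rw [dotProduct_add, a3, b3, add_zero]
  obtain ⟨-, s, hs, g₁, -, hg₁⟩ := T_top c1
  obtain ⟨-, t, ht, g₂, -, hg₂⟩ := T_top a3
  have hsQ : (s : ℚ) ≠ 0 := by exact_mod_cast hs
  have htQ : (t : ℚ) ≠ 0 := by exact_mod_cast ht
  -- the regular function
  obtain ⟨F, hF⟩ : ∃ F : SpecialLinearGroup ι ℤ → ℚ, F = fun z =>
      ((cv φ ⬝ᵥ (qm z *ᵥ cv v)) * (cv φ ⬝ᵥ (qm z⁻¹ *ᵥ cv v))) *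
      (((cv φ ⬝ᵥ (qm z⁻¹ *ᵥ cv w)) * (cv ψ ⬝ᵥ (qm z *ᵥ cv v))) *
      (((cv φ ⬝ᵥ (qm z *ᵥ cv v)) * (cv ψ ⬝ᵥ (qm z *ᵥ cv w)) -
        (cv ψ ⬝ᵥ (qm z *ᵥ cv v)) * (cv φ ⬝ᵥ (qm z *ᵥ cv w))) *
      ((cv φ ⬝ᵥ (qm z⁻¹ *ᵥ cv v)) * (cv ψ ⬝ᵥ (qm z⁻¹ *ᵥ cv w)) -
        (cv φ ⬝ᵥ (qm z⁻¹ *ᵥ cv w)) * (cv ψ ⬝ᵥ (qm z⁻¹ *ᵥ cv v))))) := ⟨_, rfl⟩
  have hFR : F ∈ Reg ι := by
    rw [hF]
    exact reg_mul (reg_mul (reg_dv _ _) (reg_div _ _)) (reg_mul (reg_mul (reg_div _ _) (reg_dv _ _))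
      (reg_mul (reg_sub (reg_mul (reg_dv _ _) (reg_dv _ _)) (reg_mul (reg_dv _ _) (reg_dv _ _)))
      (reg_sub (reg_mul (reg_div _ _) (reg_div _ _)) (reg_mul (reg_div _ _) (reg_div _ _)))))
  have hFg : F (g₁ * g₂) ≠ 0 := by
    have e1 : ∀ r, η ⬝ᵥ r = 0 → qm (g₁ * g₂) *ᵥ r = r + ((s : ℚ) * (ξ ⬝ᵥ r)) • (y₁ + y₂) := by
      intro r hr
      rw [qm_mul, ← mulVec_mulVec, act hg₂, hr, mul_zero, zero_smul, add_zero, act hg₁]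
    have e2 : qm (g₁ * g₂) *ᵥ cv w = cv w + ((t : ℚ) * (η ⬝ᵥ cv w)) • y₁ := by
      rw [qm_mul, ← mulVec_mulVec, act hg₂, act hg₁, dotProduct_add, dotProduct_smul, hξw, a2]
      simp
    have e3 : qm (g₁ * g₂)⁻¹ *ᵥ cv v = cv v - ((s : ℚ) * (ξ ⬝ᵥ cv v)) • (y₁ + y₂) := by
      rw [_root_.mul_inv_rev, qm_mul, ← mulVec_mulVec, act_inv c1 hg₁, act_inv a3 hg₂,
        dotProduct_sub, dotProduct_smul, hηv, c2]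
      simp
    have e4 : qm (g₁ * g₂)⁻¹ *ᵥ cv w = cv w - ((t : ℚ) * (η ⬝ᵥ cv w)) • y₁ := by
      rw [_root_.mul_inv_rev, qm_mul, ← mulVec_mulVec, act_inv c1 hg₁, hξw, mul_zero, zero_smul,
        sub_zero, act_inv a3 hg₂]
    rw [hF]
    beta_reduce
    rw [e1 _ hηv, e2, e3, e4]
    simp only [dotProduct_add, dotProduct_sub, dotProduct_smul, q1, q2, q3, q4, a1, b1, smul_eq_mul,
      mul_zero, zero_add, add_zero, zero_sub, sub_zero, neg_zero]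
    have p1 : (s : ℚ) * (ξ ⬝ᵥ cv v) ≠ 0 := mul_ne_zero hsQ hξv
    have p2 : (t : ℚ) * (η ⬝ᵥ cv w) ≠ 0 := mul_ne_zero htQ hηw
    obtain ⟨X, hX⟩ : ∃ X, X = (s : ℚ) * (ξ ⬝ᵥ cv v) := ⟨_, rfl⟩
    obtain ⟨Y, hY⟩ : ∃ Y, Y = (t : ℚ) * (η ⬝ᵥ cv w) := ⟨_, rfl⟩
    obtain ⟨a, ha⟩ : ∃ a, a = cv φ ⬝ᵥ y₁ := ⟨_, rfl⟩
    obtain ⟨b, hb⟩ : ∃ b, b = cv ψ ⬝ᵥ y₂ := ⟨_, rfl⟩
    rw [← hX] at p1 ⊢
    rw [← hY] at p2 ⊢
    rw [← ha] at hφy₁ ⊢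
    rw [← hb] at hψy₂ ⊢
    have : X ^ 5 * Y ^ 3 * a ^ 5 * b ^ 3 ≠ 0 :=
      mul_ne_zero (mul_ne_zero (mul_ne_zero (pow_ne_zero _ p1) (pow_ne_zero _ p2))
        (pow_ne_zero _ hφy₁)) (pow_ne_zero _ hψy₂)
    intro h0
    apply this
    first
      | linear_combination h0
      | linear_combination -h0
  obtain ⟨h, hh, hne⟩ : ∃ z ∈ H, F z ≠ 0 := by
    by_contra hcon
    push Not at hcon
    exact hFg (hH F hFR hcon _)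
  rw [hF] at hne
  beta_reduce at hne
  have z1 := left_ne_zero_of_mul (left_ne_zero_of_mul hne)
  have z2 := right_ne_zero_of_mul (left_ne_zero_of_mul hne)
  have z3 := left_ne_zero_of_mul (left_ne_zero_of_mul (right_ne_zero_of_mul hne))
  have z4 := right_ne_zero_of_mul (left_ne_zero_of_mul (right_ne_zero_of_mul hne))
  have z5 := left_ne_zero_of_mul (right_ne_zero_of_mul (right_ne_zero_of_mul hne))
  have z6 := right_ne_zero_of_mul (right_ne_zero_of_mul (right_ne_zero_of_mul hne))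
  have hAA : vecMulVec (cv w) (cv ψ) * vecMulVec (cv w) (cv ψ) = 0 := vv_sq q2
  obtain ⟨q, hq, d1, d2, d3, d4⟩ := comm_conj (A := vecMulVec (cv w) (cv ψ)) hx (cv_qm hg) hφv hAA
    (by rw [vv_mulVec, q4, zero_smul]) (by rw [vecMul_vecMulVec, q3, zero_smul]) hxH hgH hh
  have d3' := d3 (cv ψ) q4
  have d4' := d4 (cv w) q3
  simp only [vv_mulVec, mulVec_smul, dotProduct_smul, smul_eq_mul] at d3' d4'
  -- the second transvection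
  obtain ⟨v₁, hv₁⟩ : ∃ v₁, v₁ = mt q *ᵥ v := ⟨_, rfl⟩
  obtain ⟨φ₁, hφ₁⟩ : ∃ φ₁, φ₁ = φ ᵥ* mt q⁻¹ := ⟨_, rfl⟩
  have cv₁ : cv v₁ = qm q *ᵥ cv v := by rw [hv₁, cv_mulVec]
  have cφ₁ : cv φ₁ = cv φ ᵥ* qm q⁻¹ := by rw [hφ₁, cv_vecMul]
  have r1 : cv ψ ⬝ᵥ cv v₁ ≠ 0 := by
    rw [cv₁, d3']
    have : (cv φ ⬝ᵥ (qm h *ᵥ cv v)) * ((cv φ ⬝ᵥ (qm h⁻¹ *ᵥ cv v)) *
        ((cv ψ ⬝ᵥ (qm h *ᵥ cv v)) * (cv ψ ⬝ᵥ (qm h⁻¹ *ᵥ cv w))) -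
        (cv ψ ⬝ᵥ (qm h *ᵥ cv v)) * (cv φ ⬝ᵥ (qm h⁻¹ *ᵥ cv w)) * (cv ψ ⬝ᵥ (qm h⁻¹ *ᵥ cv v))) =
        (cv φ ⬝ᵥ (qm h *ᵥ cv v)) * ((cv ψ ⬝ᵥ (qm h *ᵥ cv v)) *
        ((cv φ ⬝ᵥ (qm h⁻¹ *ᵥ cv v)) * (cv ψ ⬝ᵥ (qm h⁻¹ *ᵥ cv w)) -
        (cv φ ⬝ᵥ (qm h⁻¹ *ᵥ cv w)) * (cv ψ ⬝ᵥ (qm h⁻¹ *ᵥ cv v)))) := by ring
    rw [this]
    exact mul_ne_zero z1 (mul_ne_zero z4 z6)
  have r2 : cv φ₁ ⬝ᵥ cv w ≠ 0 := by
    rw [cφ₁, ← dotProduct_mulVec, d4']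
    have : -(cv φ ⬝ᵥ (qm h⁻¹ *ᵥ cv v)) * ((cv φ ⬝ᵥ (qm h *ᵥ cv v)) *
        ((cv ψ ⬝ᵥ (qm h *ᵥ cv w)) * (cv φ ⬝ᵥ (qm h⁻¹ *ᵥ cv w))) -
        (cv ψ ⬝ᵥ (qm h *ᵥ cv v)) * (cv φ ⬝ᵥ (qm h⁻¹ *ᵥ cv w)) * (cv φ ⬝ᵥ (qm h *ᵥ cv w))) =
        -(cv φ ⬝ᵥ (qm h⁻¹ *ᵥ cv v)) * ((cv φ ⬝ᵥ (qm h⁻¹ *ᵥ cv w)) *
        ((cv φ ⬝ᵥ (qm h *ᵥ cv v)) * (cv ψ ⬝ᵥ (qm h *ᵥ cv w)) -
        (cv ψ ⬝ᵥ (qm h *ᵥ cv v)) * (cv φ ⬝ᵥ (qm h *ᵥ cv w)))) := by ring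
    rw [this]
    exact mul_ne_zero (neg_ne_zero.2 z2) (mul_ne_zero z3 z5)
  have hφ₁v₁ : cv φ₁ ⬝ᵥ cv v₁ = 0 := by
    rw [cφ₁, cv₁, ← dotProduct_mulVec, mulVec_mulVec, qm_inv_mul, one_mulVec, q1]
  obtain ⟨y, hy⟩ : ∃ y, y = q * x * q⁻¹ := ⟨_, rfl⟩
  have hyH : y ∈ H := by
    rw [hy]
    exact H.mul_mem (H.mul_mem hq hxH) (H.inv_mem hq)
  have ey : qm y = 1 + vecMulVec (cv v₁) (cv φ₁) := by
    rw [hy, qm_mul, qm_mul, cv_qm hx, mul_add, add_mul, mul_one, qm_mul_inv, mul_vecMulVec,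
      vecMulVec_mul, cv₁, cφ₁]
  -- it commutes with `x`
  have hxy : x * y = y * x := by
    apply qm_inj
    rw [qm_mul, qm_mul, cv_qm hx, ey]
    have e1 : cv φ ⬝ᵥ cv v₁ = 0 := by rw [cv₁, d1]
    have e2 : cv φ₁ ⬝ᵥ cv v = 0 := by rw [cφ₁, ← dotProduct_mulVec, d2]
    simp only [add_mul, mul_add, one_mul, mul_one, vv_mul, e1, e2, zero_smul, add_zero]
    abel
  have hxg : x * g = g * x := by
    apply qm_inj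
    rw [qm_mul, qm_mul, cv_qm hx, cv_qm hg]
    simp only [add_mul, mul_add, one_mul, mul_one, vv_mul, q3, q4, zero_smul, add_zero]
    abel
  -- the hyperbolic element
  obtain ⟨m₁, hm₁⟩ : ∃ m₁, m₁ = cv φ₁ ⬝ᵥ cv w := ⟨_, rfl⟩
  obtain ⟨m₂, hm₂⟩ : ∃ m₂, m₂ = cv ψ ⬝ᵥ cv v₁ := ⟨_, rfl⟩
  rw [← hm₁] at r2
  rw [← hm₂] at r1
  obtain ⟨a, ha⟩ : ∃ a : ℤ, 0 < m₁ * ((a : ℚ) * m₂) := by
    rcases lt_or_gt_of_ne (mul_ne_zero r2 r1) with h3 | h3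
    · exact ⟨-1, by push_cast; nlinarith⟩
    · exact ⟨1, by push_cast; linarith⟩
  have hga : ∀ r, qm (g ^ a) *ᵥ r = r + ((a : ℚ) * (cv ψ ⬝ᵥ r)) • cv w := by
    intro r
    rw [qm_zpow (cv_qm hg) (vv_sq q2), add_mulVec, one_mulVec, smul_mulVec, vv_mulVec, smul_smul]
  have hya : ∀ r, qm y *ᵥ r = r + (cv φ₁ ⬝ᵥ r) • cv v₁ := by
    intro r
    rw [ey, add_mulVec, one_mulVec, vv_mulVec]
  have hPw : qm (g ^ a * y) *ᵥ cv w = (1 + m₁ * ((a : ℚ) * m₂)) • cv w + m₁ • cv v₁ := by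
    rw [qm_mul, ← mulVec_mulVec, hya, hga, dotProduct_add, dotProduct_smul, q2, ← hm₁, ← hm₂]
    simp only [smul_eq_mul]
    module
  have hPv : qm (g ^ a * y) *ᵥ cv v₁ = ((a : ℚ) * m₂) • cv w + cv v₁ := by
    rw [qm_mul, ← mulVec_mulVec, hya, hφ₁v₁, zero_smul, add_zero, hga, ← hm₂]
    abel
  have hind : ∀ α β : ℚ, α • cv w + β • cv v₁ = 0 → α = 0 ∧ β = 0 := by
    intro α β h0
    have h3 := congrArg (cv ψ ⬝ᵥ ·) h0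
    simp only [dotProduct_add, dotProduct_smul, q2, smul_eq_mul, mul_zero, zero_add,
      dotProduct_zero] at h3
    rw [← hm₂] at h3
    have hβ : β = 0 := (mul_eq_zero.1 h3).resolve_right r1
    rw [hβ, zero_smul, add_zero] at h0
    have h4 := h1 0 α (by rw [zero_smul, zero_add, h0])
    exact ⟨h4.2, hβ⟩
  refine full_cent hH hxH (H.mul_mem (H.zpow_mem hgH a) hyH) hv0 hφ0 hφv hx ?_ ?_
  · have e1 : Commute x (g ^ a) := (show Commute x g from hxg).zpow_right a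
    have e2 : Commute x y := hxy
    exact (e1.mul_right e2)
  · intro k hk h5
    have h6 := hyp_pow rfl ha hPw hPv hind k hk
    apply h6
    rw [← qm_pow' (g ^ a * y) k]
    ext i j
    have h8 := congrFun (congrFun h5 i) j
    rw [mul_apply] at h8 ⊢
    have h9 : ∀ b c, (qm ((g ^ a * y) ^ k) - 1) b c = (((mt ((g ^ a * y) ^ k) - 1) b c : ℤ) : ℚ) := by
      intro b c
      rw [Matrix.sub_apply, Matrix.sub_apply]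
      push_cast
      congr 1
      rw [one_apply, one_apply]
      split_ifs <;> simp
    rw [Finset.sum_congr rfl fun b _ => by rw [h9, h9]]
    have h10 : (∑ b, (mt ((g ^ a * y) ^ k) - 1) i b * (mt ((g ^ a * y) ^ k) - 1) b j) = 0 := h8
    rw [Matrix.zero_apply, ← Int.cast_zero, ← h10]
    push_cast
    rfl

end Pool.Agent.L5helper65.SL
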