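import Pool.Agent.L5helper65.SL.Full

/-!
# Finite index
-/

set_option autoImplicit false
set_option maxHeartbeats 400000
set_option linter.unusedSectionVars false
set_option linter.unusedSimpArgs false

namespace Pool.Agent.L5helper65.SL

open Matrix
open Pool.Agent.Helper460_CSP

variable {ι : Type} [DecidableEq ι] [Fintype ι] {H : Subgroup (SpecialLinearGroup ι ℤ)}

/-- transvections of a given level -/
def TL (H : Subgroup (SpecialLinearGroup ι ℤ)) (M : ℤ) (v φ : ι → ℚ) : Prop :=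
  φ ⬝ᵥ v = 0 ∧ ∃ g ∈ H, qm g = 1 + (M : ℚ) • vecMulVec v φ

theorem TL.zero_left (M : ℤ) (φ : ι → ℚ) : TL H M 0 φ :=
  ⟨by simp, 1, H.one_mem, by simp [qm_one]⟩

theorem TL.zero_right (M : ℤ) (v : ι → ℚ) : TL H M v 0 :=
  ⟨by simp, 1, H.one_mem, by simp [qm_one]⟩

theorem TL.add_right {M : ℤ} {v φ ψ : ι → ℚ} (h : TL H M v φ) (h' : TL H M v ψ) :
    TL H M v (φ + ψ) := by
  obtain ⟨h0, g, hg, e⟩ := h
  obtain ⟨h0', g', hg', e'⟩ := h'
  refine ⟨by rw [add_dotProduct, h0, h0', add_zero], g * g', H.mul_mem hg hg', ?_⟩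
  rw [qm_mul, e, e', add_mul, mul_add, mul_add, one_mul, one_mul,
    mul_one, smul_mul_smul_comm, vv_mul, h0, zero_smul, smul_zero, add_zero, vecMulVec_add, smul_add]
  abel

theorem TL.add_left {M : ℤ} {v w φ : ι → ℚ} (h : TL H M v φ) (h' : TL H M w φ) :
    TL H M (v + w) φ := by
  obtain ⟨h0, g, hg, e⟩ := h
  obtain ⟨h0', g', hg', e'⟩ := h'
  refine ⟨by rw [dotProduct_add, h0, h0', add_zero], g * g', H.mul_mem hg hg', ?_⟩
  rw [qm_mul, e, e', add_mul, mul_add, mul_add, one_mul, one_mul,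
    mul_one, smul_mul_smul_comm, vv_mul, h0', zero_smul, smul_zero, add_zero, add_vecMulVec, smul_add]
  abel

theorem TL.sum_right {M : ℤ} {v : ι → ℚ} {κ : Type} (s : Finset κ) {φ : κ → ι → ℚ}
    (h : ∀ k ∈ s, TL H M v (φ k)) : TL H M v (∑ k ∈ s, φ k) := by
  classical
  induction s using Finset.induction_on with
  | empty => exact TL.zero_right M v
  | insert a s ha ih =>
    rw [Finset.sum_insert ha]
    exact (h a (Finset.mem_insert_self _ _)).add_right
      (ih fun k hk => h k (Finset.mem_insert_of_mem hk))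

theorem TL.sum_left {M : ℤ} {φ : ι → ℚ} {κ : Type} (s : Finset κ) {v : κ → ι → ℚ}
    (h : ∀ k ∈ s, TL H M (v k) φ) : TL H M (∑ k ∈ s, v k) φ := by
  classical
  induction s using Finset.induction_on with
  | empty => exact TL.zero_left M φ
  | insert a s ha ih =>
    rw [Finset.sum_insert ha]
    exact (h a (Finset.mem_insert_self _ _)).add_left
      (ih fun k hk => h k (Finset.mem_insert_of_mem hk))

theorem TL.comm {M M' : ℤ} {v φ w ψ : ι → ℚ} (h : TL H M v φ) (h' : TL H M' w ψ)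
    (h1 : ψ ⬝ᵥ v = 0) (h2 : φ ⬝ᵥ w = 1) : TL H (M * M') v ψ := by
  obtain ⟨h0, g, hg, e⟩ := h
  obtain ⟨h0', g', hg', e'⟩ := h'
  refine ⟨h1, g * g' * (g⁻¹ * g'⁻¹),
      H.mul_mem (H.mul_mem hg hg') (H.mul_mem (H.inv_mem hg) (H.inv_mem hg')), ?_⟩
  have i1 := T.pow h0 e (-1)
  have i2 := T.pow h0' e' (-1)
  rw [_root_.zpow_neg_one] at i1 i2
  rw [qm_mul, qm_mul, qm_mul, e, e', i1, i2]
  obtain ⟨A, hA⟩ : ∃ A, A = vecMulVec v φ := ⟨_, rfl⟩
  obtain ⟨B, hB⟩ : ∃ B, B = vecMulVec w ψ := ⟨_, rfl⟩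
  have aa : A * A = 0 := by rw [hA, vv_sq h0]
  have bb : B * B = 0 := by rw [hB, vv_sq h0']
  have ba : B * A = 0 := by rw [hA, hB, vv_mul, h1, zero_smul]
  have ab : A * B = vecMulVec v ψ := by rw [hA, hB, vv_mul, h2, one_smul]
  rw [← hA, ← hB, ← ab]
  push_cast
  obtain ⟨k, hk⟩ : ∃ k : ℚ, k = M := ⟨_, rfl⟩
  obtain ⟨k', hk'⟩ : ∃ k : ℚ, k = M' := ⟨_, rfl⟩
  rw [← hk, ← hk']
  have e1 : (1 + k • A) * (1 + k' • B) =
      1 + k • A + k' • B + (k * k') • (A * B) := by
    rw [add_mul, mul_add, mul_add, one_mul, one_mul, mul_one, smul_mul_smul_comm]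
    abel
  have e2 : (1 + (k * -1) • A) * (1 + (k' * -1) • B) =
      1 - k • A - k' • B + (k * k') • (A * B) := by
    rw [add_mul, mul_add, mul_add, one_mul, one_mul, mul_one, smul_mul_smul_comm]
    rw [show k * -1 * (k' * -1) = k * k' by ring, mul_neg_one, mul_neg_one,
      neg_smul, neg_smul]
    abel
  rw [e1, e2]
  have aab : A * (A * B) = 0 := by rw [← mul_assoc, aa, zero_mul]
  have bab : B * (A * B) = 0 := by rw [← mul_assoc, ba, zero_mul]
  have aba : A * B * A = 0 := by rw [mul_assoc, ba, mul_zero]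
  have abb : A * B * B = 0 := by rw [mul_assoc, bb, mul_zero]
  have abab : A * B * (A * B) = 0 := by rw [mul_assoc, bab, mul_zero]
  simp only [mul_add, mul_sub, add_mul, one_mul, mul_one, smul_mul_smul_comm, aa, bb, ba, aab,
    bab, aba, abb, abab, smul_zero]
  abel

theorem qm_tv (i j : ι) (h : i ≠ j) (t : ℤ) :
    qm (tv i j h t) = 1 + (t : ℚ) • vecMulVec (Pi.single i 1) (Pi.single j 1) := by
  ext a b
  show ((transvection i j t a b : ℤ) : ℚ) = (1 : Matrix ι ι ℚ) a b +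
    (t : ℚ) * ((Pi.single i 1 : ι → ℚ) a * (Pi.single j 1 : ι → ℚ) b)
  unfold transvection
  have e1 : (((1 : Matrix ι ι ℤ) a b : ℤ) : ℚ) = (1 : Matrix ι ι ℚ) a b := by
    rw [one_apply, one_apply]
    split_ifs <;> simp
  rw [Matrix.add_apply, Int.cast_add, e1, single_apply, Pi.single_apply, Pi.single_apply]
  congr 1
  by_cases h2 : a = i
  · subst h2
    by_cases h3 : b = j
    · subst h3
      simp
    · simp [h3, Ne.symm h3]
  · simp [h2, Ne.symm h2]

/-- elementary matrices -/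
theorem TL_el {K : ℤ} (hK : ∀ (i j : ι) (h : i ≠ j), tv i j h K ∈ H) {i j : ι} (h : i ≠ j) {M : ℤ}
    (hM : K ∣ M) (a b : ℤ) :
    TL H M ((a : ℚ) • (Pi.single i 1 : ι → ℚ)) ((b : ℚ) • (Pi.single j 1 : ι → ℚ)) := by
  refine ⟨?_, tv i j h (M * a * b), tv_mem (hK i j h) ((hM.mul_right a).mul_right b), ?_⟩
  · rw [smul_dotProduct, dotProduct_smul, single_dotProduct, Pi.single_apply, if_neg h.symm]
    simp
  · rw [qm_tv, smul_vecMulVec, vecMulVec_smul, smul_smul, smul_smul]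
    push_cast
    ring_nf

/-- a special form -/
theorem TL_koszul {K : ℤ} (hK : ∀ (i j : ι) (h : i ≠ j), tv i j h K ∈ H) (h3 : 3 ≤ Fintype.card ι)
    (w : ι → ℤ) (c : ℤ) {a b : ι} (hab : a ≠ b) :
    TL H (K * K) (fun i => (w i : ℚ))
      (((c * w a : ℤ) : ℚ) • (Pi.single b 1 : ι → ℚ) + ((-(c * w b) : ℤ) : ℚ) • (Pi.single a 1 : ι → ℚ)) := by
  obtain ⟨q, hq⟩ : ∃ q : ι → ℚ, q = ((c * w a : ℤ) : ℚ) • (Pi.single b 1 : ι → ℚ) +
    ((-(c * w b) : ℤ) : ℚ) • (Pi.single a 1 : ι → ℚ) := ⟨_, rfl⟩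
  rw [← hq]
  have hsum : (fun i => (w i : ℚ)) = ∑ i, (w i : ℚ) • (Pi.single i 1 : ι → ℚ) := by
    ext j
    rw [Finset.sum_apply, Finset.sum_eq_single j]
    · simp
    · intro i _ hi
      simp [Pi.single_apply, hi.symm]
    · simp
  rw [hsum, ← Finset.sum_erase_add Finset.univ _ (Finset.mem_univ b),
    ← Finset.sum_erase_add (Finset.univ.erase b) _ (Finset.mem_erase.2 ⟨hab, Finset.mem_univ a⟩),
    add_assoc]
  have hdvd : K ∣ K * K := dvd_mul_right K K
  refine TL.add_left (TL.sum_left _ fun l hl => ?_) ?_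
  · have hla : l ≠ a := (Finset.mem_erase.1 hl).1
    have hlb : l ≠ b := (Finset.mem_erase.1 (Finset.mem_erase.1 hl).2).1
    rw [hq]
    exact (TL_el hK hlb hdvd _ _).add_right (TL_el hK hla hdvd _ _)
  · obtain ⟨l, hla, hlb⟩ : ∃ l : ι, l ≠ a ∧ l ≠ b := by
      by_contra hcon
      push Not at hcon
      have : (Finset.univ : Finset ι) ⊆ {a, b} := by
        intro l _
        rw [Finset.mem_insert, Finset.mem_singleton]
        by_cases hl : l = a
        · exact Or.inl hl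
        · exact Or.inr (hcon l hl)
      have h5 := (Finset.card_le_card this).trans Finset.card_le_two
      rw [Finset.card_univ] at h5
      omega
    have k1 : TL H K ((w a : ℚ) • (Pi.single a 1 : ι → ℚ) + (w b : ℚ) • (Pi.single b 1 : ι → ℚ))
        (Pi.single l 1 : ι → ℚ) := by
      have e1 := TL_el hK hla.symm (dvd_refl K) (w a) 1
      have e2 := TL_el hK hlb.symm (dvd_refl K) (w b) 1
      rw [Int.cast_one, one_smul] at e1 e2
      exact e1.add_left e2
    have k2 : TL H K (Pi.single l 1 : ι → ℚ) q := by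
      have e1 := TL_el hK hlb (dvd_refl K) 1 (c * w a)
      have e2 := TL_el hK hla (dvd_refl K) 1 (-(c * w b))
      rw [Int.cast_one, one_smul] at e1 e2
      rw [hq]
      exact e1.add_right e2
    refine k1.comm k2 ?_ ?_
    · rw [hq]
      simp only [add_dotProduct, dotProduct_add, smul_dotProduct, dotProduct_smul, single_dotProduct,
        Pi.single_apply, smul_eq_mul, one_mul]
      simp only [if_neg hab, if_neg hab.symm, if_true]
      push_cast
      ring
    · rw [single_dotProduct, Pi.single_apply, if_pos rfl, one_mul]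

/-- all transvections of level `K ^ 2` -/
theorem TL_all {K : ℤ} (hK : ∀ (i j : ι) (h : i ≠ j), tv i j h K ∈ H) (h3 : 3 ≤ Fintype.card ι)
    (w r χ : ι → ℤ) (hr : r ⬝ᵥ w = 1) (hχ : χ ⬝ᵥ w = 0) :
    TL H (K * K) (fun i => (w i : ℚ)) (fun i => (χ i : ℚ)) := by
  have key : (fun i => (χ i : ℚ)) = ∑ a, ∑ b, ((((χ b * r a) * w a : ℤ) : ℚ) • (Pi.single b 1 : ι → ℚ) +
      ((-((χ b * r a) * w b) : ℤ) : ℚ) • (Pi.single a 1 : ι → ℚ)) := by
    have hr' : ∑ a, r a * w a = 1 := hr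
    have hχ' : ∑ b, χ b * w b = 0 := hχ
    ext j
    simp only [Finset.sum_apply, Pi.add_apply, Pi.smul_apply, smul_eq_mul, Finset.sum_add_distrib]
    have s1 : ∀ a, ∑ b, (((χ b * r a) * w a : ℤ) : ℚ) * (Pi.single b 1 : ι → ℚ) j =
        (((χ j * r a) * w a : ℤ) : ℚ) := by
      intro a
      rw [Finset.sum_eq_single j]
      · simp
      · intro b _ hb
        simp [Pi.single_apply, hb.symm]
      · simp
    have s2 : ∑ a, ∑ b, ((-((χ b * r a) * w b) : ℤ) : ℚ) * (Pi.single a 1 : ι → ℚ) j =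
        ∑ b, ((-((χ b * r j) * w b) : ℤ) : ℚ) := by
      rw [Finset.sum_eq_single j]
      · simp
      · intro a _ ha
        apply Finset.sum_eq_zero
        intro b _
        simp [Pi.single_apply, ha.symm]
      · simp
    rw [Finset.sum_congr rfl fun a _ => s1 a, s2, ← Int.cast_sum, ← Int.cast_sum, ← Int.cast_add]
    congr 1
    have t1 : ∑ a, χ j * r a * w a = χ j := by
      calc ∑ a, χ j * r a * w a = χ j * ∑ a, r a * w a := by
            rw [Finset.mul_sum]
            exact Finset.sum_congr rfl fun a _ => by ring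
        _ = χ j := by rw [hr', mul_one]
    have t2 : ∑ b, -(χ b * r j * w b) = 0 := by
      calc ∑ b, -(χ b * r j * w b) = -(r j) * ∑ b, χ b * w b := by
            rw [Finset.mul_sum]
            exact Finset.sum_congr rfl fun a _ => by ring
        _ = 0 := by rw [hχ', mul_zero]
    rw [t1, t2, add_zero]
  rw [key]
  refine TL.sum_right _ fun a _ => TL.sum_right _ fun b _ => ?_
  by_cases hab : a = b
  · subst hab
    rw [← add_smul]
    have : (((χ a * r a) * w a : ℤ) : ℚ) + ((-((χ a * r a) * w a) : ℤ) : ℚ) = 0 := by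
      push_cast
      ring
    rw [this, zero_smul]
    exact TL.zero_right _ _
  · exact TL_koszul hK h3 w (χ b * r a) hab

/-- the subgroup contains a congruence subgroup -/
theorem El_le_H {K : ℤ} (hK : ∀ (i j : ι) (h : i ≠ j), tv i j h K ∈ H) (h3 : 3 ≤ Fintype.card ι) :
    El ι (K * K) ≤ H := by
  unfold El Subgroup.normalClosure
  rw [Subgroup.closure_le]
  intro x hx
  obtain ⟨a, ⟨i, j, hij, rfl⟩, hc⟩ := Group.mem_conjugatesOfSet_iff.1 hx
  obtain ⟨g, rfl⟩ := isConj_iff.1 hc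
  have h1 : TL H (K * K) (fun s => (mt g s i : ℚ)) (fun s => (mt g⁻¹ j s : ℚ)) := by
    refine TL_all hK h3 (fun s => mt g s i) (fun s => mt g⁻¹ i s) (fun s => mt g⁻¹ j s) ?_ ?_
    · have := congrFun (congrFun (show mt g⁻¹ * mt g = 1 by
        rw [← mt_mul, inv_mul_cancel, mt_one]) i) i
      rw [one_apply_eq] at this
      exact this
    · have := congrFun (congrFun (show mt g⁻¹ * mt g = 1 by
        rw [← mt_mul, inv_mul_cancel, mt_one]) j) i
      rw [one_apply_ne hij.symm] at this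
      exact this
  obtain ⟨-, y, hy, e⟩ := h1
  have : g * tv i j hij (K * K) * g⁻¹ = y := by
    apply qm_inj
    rw [e, qm_mul, qm_mul, qm_tv, mul_add, add_mul, mul_one, qm_mul_inv, mul_smul_comm,
      smul_mul_assoc, mul_vecMulVec, vecMulVec_mul]
    congr 3
    · ext s
      simp [qm]
    · ext s
      simp [qm]
  rw [this]
  exact hy

/-- full vectors give elementary matrices -/
theorem exists_level (hH : ZDense H) (h3 : 3 ≤ Fintype.card ι) {v : ι → ℚ} (hv : v ≠ 0)
    (h : Full H v) : ∃ M : ℤ, M ≠ 0 ∧ El ι M ≤ H := by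
  have h1 : ∀ i j : ι, ∃ k : ℤ, k ≠ 0 ∧ ∀ hij : i ≠ j, tv i j hij k ∈ H := by
    intro i j
    by_cases hij : i = j
    · exact ⟨1, one_ne_zero, fun h => absurd hij h⟩
    · obtain ⟨-, k, hk, g, hg, e⟩ := all_full hH h3 hv h (Pi.single i 1) (Pi.single j 1) (by
        rw [single_dotProduct, Pi.single_apply, if_neg (Ne.symm hij), mul_zero])
      refine ⟨k, hk, fun h' => ?_⟩
      have : tv i j h' k = g := qm_inj (by rw [qm_tv, e])
      rw [this]
      exact hg
  choose k hk hk' using h1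
  refine ⟨(∏ i, ∏ j, k i j) * (∏ i, ∏ j, k i j), ?_, El_le_H (K := ∏ i, ∏ j, k i j) ?_ h3⟩
  · have : (∏ i, ∏ j, k i j) ≠ 0 :=
      Finset.prod_ne_zero_iff.2 fun i _ => Finset.prod_ne_zero_iff.2 fun j _ => hk i j
    exact mul_ne_zero this this
  · intro i j hij
    refine tv_mem (hk' i j hij) ?_
    exact (Finset.dvd_prod_of_mem (fun j => k i j) (Finset.mem_univ j)).trans
      (Finset.dvd_prod_of_mem (fun i => ∏ j, k i j) (Finset.mem_univ i))

end Pool.Agent.L5helper65.SL
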