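import Pool.Agent.L5helper65.SL.Noncyc

/-!
# Two transvections with `|φ(w) ψ(v)| ≤ 4`
-/

set_option autoImplicit false
set_option maxHeartbeats 400000
set_option linter.unusedSectionVars false
set_option linter.unusedSimpArgs false

namespace Pool.Agent.L5helper65.SL

open Matrix
open Pool.Agent.Helper460_CSP

variable {ι : Type} [DecidableEq ι] [Fintype ι] {H : Subgroup (SpecialLinearGroup ι ℤ)}

/-- the third cusp for `φ(w) ψ(v) = ± 4` -/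
theorem cusp {v φ w ψ : ι → ℚ} {e f σ : ℤ} (hx : ∃ x ∈ H, qm x = 1 + vecMulVec v φ)
    (hy : ∃ y ∈ H, qm y = 1 + vecMulVec w ψ) (h1 : φ ⬝ᵥ v = 0) (h2 : ψ ⬝ᵥ w = 0)
    (hf : φ ⬝ᵥ w = f) (he : ψ ⬝ᵥ v = e) (hσ : σ * σ = 1) (hef : e * f = 4 * σ) :
    T H (v + (e / 2 : ℚ) • w) (φ - (f / 2 : ℚ) • ψ) := by
  obtain ⟨x, hxH, hx⟩ := hx
  obtain ⟨y, hyH, hy⟩ := hy
  have hσQ : (σ : ℚ) * σ = 1 := by exact_mod_cast hσ
  have hefQ : (e : ℚ) * f = 4 * σ := by exact_mod_cast hef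
  have hσ0 : σ ≠ 0 := by
    rintro rfl
    simp at hσ
  refine ⟨?_, 2 * σ, mul_ne_zero two_ne_zero hσ0, y * x ^ (-σ) * (y * x ^ (-σ)),
    H.mul_mem (H.mul_mem hyH (H.zpow_mem hxH _)) (H.mul_mem hyH (H.zpow_mem hxH _)), ?_⟩
  · simp only [sub_dotProduct, dotProduct_add, smul_dotProduct, dotProduct_smul, h1, h2, hf, he,
      smul_eq_mul]
    ring
  · have hxσ : qm (x ^ (-σ)) = 1 + ((-σ : ℤ) : ℚ) • vecMulVec v φ := qm_zpow hx (vv_sq h1) _
    obtain ⟨A, hA⟩ : ∃ A, A = vecMulVec v φ := ⟨_, rfl⟩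
    obtain ⟨B, hB⟩ : ∃ B, B = vecMulVec w ψ := ⟨_, rfl⟩
    obtain ⟨C, hC⟩ : ∃ C, C = vecMulVec v ψ := ⟨_, rfl⟩
    obtain ⟨D, hD⟩ : ∃ D, D = vecMulVec w φ := ⟨_, rfl⟩
    have AA : A * A = 0 := by rw [hA, vv_mul, h1, zero_smul]
    have BB : B * B = 0 := by rw [hB, vv_mul, h2, zero_smul]
    have AB : A * B = (f : ℚ) • C := by rw [hA, hB, hC, vv_mul, hf]
    have BA : B * A = (e : ℚ) • D := by rw [hA, hB, hD, vv_mul, he]
    have AD : A * D = (f : ℚ) • A := by rw [hA, hD, vv_mul, hf]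
    have BD : B * D = 0 := by rw [hB, hD, vv_mul, h2, zero_smul]
    have DA : D * A = 0 := by rw [hA, hD, vv_mul, h1, zero_smul]
    have DB : D * B = (f : ℚ) • B := by rw [hB, hD, vv_mul, hf]
    have DD : D * D = (f : ℚ) • D := by rw [hD, vv_mul, hf]
    have e1 : qm (y * x ^ (-σ)) = 1 + B - (σ : ℚ) • A - ((σ : ℚ) * e) • D := by
      rw [qm_mul, hxσ, hy, ← hA, ← hB]
      simp only [add_mul, mul_add, one_mul, mul_one, mul_smul_comm, BA]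
      push_cast
      module
    have e2 : vecMulVec (v + (e / 2 : ℚ) • w) (φ - (f / 2 : ℚ) • ψ) =
        A - (f / 2 : ℚ) • C + (e / 2 : ℚ) • D - (e / 2 * (f / 2) : ℚ) • B := by
      rw [hA, hB, hC, hD]
      ext i j
      simp only [vecMulVec_apply, Matrix.add_apply, Matrix.sub_apply, Matrix.smul_apply,
        Pi.add_apply, Pi.sub_apply, Pi.smul_apply, smul_eq_mul]
      ring
    rw [qm_mul, e1, e2]
    have e3 : (1 + B - (σ : ℚ) • A - ((σ : ℚ) * e) • D) * (1 + B - (σ : ℚ) • A - ((σ : ℚ) * e) • D) =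
        1 + (-2 * σ + σ * σ * (e * f) : ℚ) • A + (2 - σ * (e * f) : ℚ) • B - (σ * f : ℚ) • C +
          (-3 * (σ * e) + σ * σ * ((e * f) * e) : ℚ) • D := by
      simp only [mul_add, add_mul, mul_sub, sub_mul, one_mul, mul_one, smul_mul_smul_comm,
        smul_mul_assoc, mul_smul_comm, AA, BB, AB, BA, AD, BD, DA, DB, DD, smul_zero, smul_smul]
      module
    have e4 : ((-2 * σ + σ * σ * (e * f) : ℚ)) = 2 * σ := by
      rw [hσQ, hefQ]
      ring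
    have e5 : ((2 - σ * (e * f) : ℚ)) = -2 := by
      rw [hefQ]
      linear_combination -4 * hσQ
    have e6 : ((-3 * (σ * e) + σ * σ * ((e * f) * e) : ℚ)) = σ * e := by
      rw [hσQ, hefQ]
      ring
    have e7 : (e / 2 * (f / 2) : ℚ) = σ := by linear_combination (1 / 4 : ℚ) * hefQ
    rw [e3, e4, e5, e6, e7]
    push_cast
    have e8 : (2 * (σ : ℚ)) • (A - (f / 2 : ℚ) • C + (e / 2 : ℚ) • D - (σ : ℚ) • B) =
        (2 * (σ : ℚ)) • A - (σ * f : ℚ) • C + (σ * e : ℚ) • D - (2 * (σ * σ) : ℚ) • B := by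
      module
    rw [e8, hσQ]
    module

/-- the case of equality in the descent -/
theorem tie {v φ w ψ : ι → ℚ} {e f : ℤ} (hx : ∃ x ∈ H, qm x = 1 + vecMulVec v φ)
    (hy : ∃ y ∈ H, qm y = 1 + vecMulVec w ψ) (h1 : φ ⬝ᵥ v = 0) (h2 : ψ ⬝ᵥ w = 0)
    (hf : φ ⬝ᵥ w = f) (he : ψ ⬝ᵥ v = e) (hef : |e| * |f| = 4) {α β : ℤ}
    (hαβ : |f| * β ^ 2 = |e| * α ^ 2) :
    T H ((α : ℚ) • v + (β : ℚ) • w) ((α * e : ℚ) • φ - (β * f : ℚ) • ψ) := by
  obtain ⟨σ, hσ, hσ'⟩ : ∃ σ : ℤ, σ * σ = 1 ∧ e * f = 4 * σ := by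
    rw [← abs_mul] at hef
    rcases abs_cases (e * f) with ⟨h3, -⟩ | ⟨h3, -⟩
    · exact ⟨1, by norm_num, by omega⟩
    · exact ⟨-1, by norm_num, by omega⟩
  have hp := cusp hx hy h1 h2 hf he hσ hσ'
  have h3 : (e * α) ^ 2 = (2 * β) ^ 2 := by
    have h4 : (e * α) ^ 2 = |e| * (|e| * α ^ 2) := by
      rw [mul_pow, ← sq_abs e]
      ring
    rw [h4, ← hαβ, ← mul_assoc, hef]
    ring
  rcases sq_eq_sq_iff_eq_or_eq_neg.1 h3 with h5 | h5
  · have h5Q : (e : ℚ) * α = 2 * β := by exact_mod_cast h5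
    have h6 := (hp.smul_left (α : ℚ)).smul_right (α * e : ℚ)
    have e1 : (α : ℚ) • (v + (e / 2 : ℚ) • w) = (α : ℚ) • v + (β : ℚ) • w := by
      have : (β : ℚ) = α * (e / 2) := by linear_combination (-1 / 2 : ℚ) * h5Q
      rw [this]
      module
    have hα : T H ((α : ℚ) • v + (β : ℚ) • w) (e • (φ - (f / 2 : ℚ) • ψ)) := by
      have h7 := (hp.smul_left (α : ℚ)).smul_right (e : ℚ)
      rw [e1] at h7
      rwa [← Int.cast_smul_eq_zsmul ℚ]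
    have h8 := hα.smul_right (α : ℚ)
    have e2 : (α : ℚ) • (e • (φ - (f / 2 : ℚ) • ψ)) = (α * e : ℚ) • φ - (β * f : ℚ) • ψ := by
      have : (β : ℚ) = α * (e / 2) := by linear_combination (-1 / 2 : ℚ) * h5Q
      rw [this, ← Int.cast_smul_eq_zsmul ℚ]
      module
    rwa [e2] at h8
  · have h5Q : (e : ℚ) * α = -(2 * β) := by exact_mod_cast h5
    obtain ⟨y, hyH, hyq⟩ := hy
    have hconj := hp.conj (H.inv_mem hyH)
    have hyi : qm y⁻¹ = 1 + ((-1 : ℤ) : ℚ) • vecMulVec w ψ := by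
      have := qm_zpow hyq (vv_sq h2) (-1)
      rwa [_root_.zpow_neg_one] at this
    have e3 : qm y⁻¹ *ᵥ (v + (e / 2 : ℚ) • w) = v - (e / 2 : ℚ) • w := by
      rw [hyi, add_mulVec, one_mulVec, smul_mulVec, vv_mulVec, dotProduct_add, dotProduct_smul, h2,
        he]
      push_cast
      simp only [smul_eq_mul, mul_zero, add_zero]
      module
    have e4 : (φ - (f / 2 : ℚ) • ψ) ᵥ* qm y⁻¹⁻¹ = φ + (f / 2 : ℚ) • ψ := by
      rw [inv_inv, hyq, vecMul_add, vecMul_one, vecMul_vecMulVec, sub_dotProduct, smul_dotProduct,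
        h2, hf]
      simp only [smul_eq_mul, mul_zero, sub_zero]
      module
    rw [e3, e4] at hconj
    have h8 := (hconj.smul_left (α : ℚ)).smul_right (α * e : ℚ)
    have hβ : (β : ℚ) = -(α * (e / 2)) := by linear_combination (1 / 2 : ℚ) * h5Q
    have e1 : (α : ℚ) • (v - (e / 2 : ℚ) • w) = (α : ℚ) • v + (β : ℚ) • w := by
      rw [hβ]
      module
    have e2 : (α * e : ℚ) • (φ + (f / 2 : ℚ) • ψ) = (α : ℚ) • ((e : ℚ) • φ) + (α * e * (f / 2) : ℚ) • ψ := by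
      module
    have e5 : (α * e : ℚ) • (φ + (f / 2 : ℚ) • ψ) = (α * e : ℚ) • φ - (β * f : ℚ) • ψ := by
      rw [hβ]
      module
    rw [e1, e5] at h8
    exact h8

/-- transvections in the plane of two transvections -/
theorem plane' {v φ w ψ : ι → ℚ} {e f : ℤ} (hx : ∃ x ∈ H, qm x = 1 + vecMulVec v φ)
    (hy : ∃ y ∈ H, qm y = 1 + vecMulVec w ψ) (h1 : φ ⬝ᵥ v = 0) (h2 : ψ ⬝ᵥ w = 0)
    (hf : φ ⬝ᵥ w = f) (he : ψ ⬝ᵥ v = e) (hf0 : f ≠ 0) (he0 : e ≠ 0) (hef : |e * f| ≤ 4) :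
    ∀ (N : ℕ) (α β : ℤ), |e| * α ^ 2 + |f| * β ^ 2 = N →
      T H ((α : ℚ) • v + (β : ℚ) • w) ((α * e : ℚ) • φ - (β * f : ℚ) • ψ) := by
  have hxx := hx
  have hyy := hy
  obtain ⟨x, hxH, hx⟩ := hx
  obtain ⟨y, hyH, hy⟩ := hy
  have hTv : T H v φ := ⟨h1, 1, one_ne_zero, x, hxH, by rw [hx, Int.cast_one, one_smul]⟩
  have hTw : T H w ψ := ⟨h2, 1, one_ne_zero, y, hyH, by rw [hy, Int.cast_one, one_smul]⟩
  have hx' : qm x = 1 + ((1 : ℤ) : ℚ) • vecMulVec v φ := by rw [hx, Int.cast_one, one_smul]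
  have hy' : qm y = 1 + ((1 : ℤ) : ℚ) • vecMulVec w ψ := by rw [hy, Int.cast_one, one_smul]
  intro N
  induction N using Nat.strong_induction_on with
  | _ N ih =>
  intro α β hN
  by_cases hα : α = 0
  · subst hα
    have := (hTw.smul_left β).smul_right (-(β * f : ℚ))
    rw [neg_smul] at this
    simpa using this
  by_cases hβ : β = 0
  · subst hβ
    have := (hTv.smul_left α).smul_right (α * e : ℚ)
    simpa using this
  have hea : 0 < |e| := abs_pos.2 he0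
  have hfa : 0 < |f| := abs_pos.2 hf0
  rw [abs_mul] at hef
  rcases le_total (|f| * β ^ 2) (|e| * α ^ 2) with hle | hle
  · -- reduce `α`
    obtain ⟨m, hm⟩ := near α (β * f) (mul_ne_zero hβ hf0)
    obtain ⟨α', hα'⟩ : ∃ α', α' = α + m * (β * f) := ⟨_, rfl⟩
    rw [← hα'] at hm
    have h3 : (2 * α') ^ 2 ≤ (β * f) ^ 2 := sq_le_sq.2 hm
    have h4 : (β * f) ^ 2 = β ^ 2 * |f| ^ 2 := by rw [mul_pow, sq_abs]
    have hβ2 : 0 < β ^ 2 := by positivity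
    have h5 : 4 * (|e| * α' ^ 2) ≤ |e| * |f| * (|f| * β ^ 2) := by
      calc 4 * (|e| * α' ^ 2) = |e| * (2 * α') ^ 2 := by ring
        _ ≤ |e| * (β * f) ^ 2 := mul_le_mul_of_nonneg_left h3 hea.le
        _ = |e| * |f| * (|f| * β ^ 2) := by rw [h4]; ring
    have h6 : |e| * |f| * (|f| * β ^ 2) ≤ 4 * (|f| * β ^ 2) :=
      mul_le_mul_of_nonneg_right hef (by positivity)
    have h7 : 0 < |f| * β ^ 2 := by positivity
    by_cases hlt : |e| * α' ^ 2 < |e| * α ^ 2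
    swap
    · push Not at hlt
      refine tie hxx hyy h1 h2 hf he ?_ (by linarith)
      have h8 : |e| * |f| * (|f| * β ^ 2) = 4 * (|f| * β ^ 2) := by linarith
      exact mul_right_cancel₀ h7.ne' h8
    obtain ⟨N', hN'⟩ : ∃ N' : ℕ, |e| * α' ^ 2 + |f| * β ^ 2 = N' :=
      ⟨(|e| * α' ^ 2 + |f| * β ^ 2).toNat, (Int.toNat_of_nonneg (by positivity)).symm⟩
    have h8 := ih N' (by
      have : (N' : ℤ) < N := by rw [← hN', ← hN]; linarith
      exact_mod_cast this) α' β hN'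
    -- apply `x ^ (-m)`
    have h9 := h8.conj (H.zpow_mem hxH (-m))
    have hxm := T.pow h1 hx' (-m)
    rw [one_mul] at hxm
    have hxm' : qm (x ^ (-m))⁻¹ = 1 + ((m : ℤ) : ℚ) • vecMulVec v φ := by
      have := T.pow h1 hx' m
      rw [one_mul] at this
      rw [← _root_.zpow_neg, neg_neg, this]
    rw [act hxm, hxm', vecMul_add, vecMul_one, vecMul_smul, vecMul_vecMulVec] at h9
    have e1 : ((α' : ℚ) • v + (β : ℚ) • w + (((-m : ℤ) : ℚ) * (φ ⬝ᵥ ((α' : ℚ) • v + (β : ℚ) • w))) • v) =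
        (α : ℚ) • v + (β : ℚ) • w := by
      rw [dotProduct_add, dotProduct_smul, dotProduct_smul, h1, hf, hα']
      simp only [smul_eq_mul, mul_zero, zero_add]
      push_cast
      module
    have e2 : ((α' * e : ℚ) • φ - (β * f : ℚ) • ψ + ((m : ℤ) : ℚ) •
        ((((α' * e : ℚ) • φ - (β * f : ℚ) • ψ) ⬝ᵥ v) • φ)) = (α * e : ℚ) • φ - (β * f : ℚ) • ψ := by
      rw [sub_dotProduct, smul_dotProduct, smul_dotProduct, h1, he, hα']
      simp only [smul_eq_mul, mul_zero, zero_sub]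
      push_cast
      module
    rw [e1, e2] at h9
    exact h9
  · -- reduce `β`
    obtain ⟨m, hm⟩ := near β (α * e) (mul_ne_zero hα he0)
    obtain ⟨β', hβ'⟩ : ∃ β', β' = β + m * (α * e) := ⟨_, rfl⟩
    rw [← hβ'] at hm
    have h3 : (2 * β') ^ 2 ≤ (α * e) ^ 2 := sq_le_sq.2 hm
    have h4 : (α * e) ^ 2 = α ^ 2 * |e| ^ 2 := by rw [mul_pow, sq_abs]
    have hα2 : 0 < α ^ 2 := by positivity
    have h5 : 4 * (|f| * β' ^ 2) ≤ |e| * |f| * (|e| * α ^ 2) := by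
      calc 4 * (|f| * β' ^ 2) = |f| * (2 * β') ^ 2 := by ring
        _ ≤ |f| * (α * e) ^ 2 := mul_le_mul_of_nonneg_left h3 hfa.le
        _ = |e| * |f| * (|e| * α ^ 2) := by rw [h4]; ring
    have h6 : |e| * |f| * (|e| * α ^ 2) ≤ 4 * (|e| * α ^ 2) :=
      mul_le_mul_of_nonneg_right hef (by positivity)
    have h7 : 0 < |e| * α ^ 2 := by positivity
    by_cases hlt : |f| * β' ^ 2 < |f| * β ^ 2
    swap
    · push Not at hlt
      refine tie hxx hyy h1 h2 hf he ?_ (by linarith)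
      have h8 : |e| * |f| * (|e| * α ^ 2) = 4 * (|e| * α ^ 2) := by linarith
      exact mul_right_cancel₀ h7.ne' h8
    obtain ⟨N', hN'⟩ : ∃ N' : ℕ, |e| * α ^ 2 + |f| * β' ^ 2 = N' :=
      ⟨(|e| * α ^ 2 + |f| * β' ^ 2).toNat, (Int.toNat_of_nonneg (by positivity)).symm⟩
    have h8 := ih N' (by
      have : (N' : ℤ) < N := by rw [← hN', ← hN]; linarith
      exact_mod_cast this) α β' hN'
    have h9 := h8.conj (H.zpow_mem hyH (-m))
    have hym := T.pow h2 hy' (-m)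
    rw [one_mul] at hym
    have hym' : qm (y ^ (-m))⁻¹ = 1 + ((m : ℤ) : ℚ) • vecMulVec w ψ := by
      have := T.pow h2 hy' m
      rw [one_mul] at this
      rw [← _root_.zpow_neg, neg_neg, this]
    rw [act hym, hym', vecMul_add, vecMul_one, vecMul_smul, vecMul_vecMulVec] at h9
    have e1 : ((α : ℚ) • v + (β' : ℚ) • w + (((-m : ℤ) : ℚ) * (ψ ⬝ᵥ ((α : ℚ) • v + (β' : ℚ) • w))) • w) =
        (α : ℚ) • v + (β : ℚ) • w := by
      rw [dotProduct_add, dotProduct_smul, dotProduct_smul, h2, he, hβ']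
      simp only [smul_eq_mul, mul_zero, add_zero]
      push_cast
      module
    have e2 : ((α * e : ℚ) • φ - (β' * f : ℚ) • ψ + ((m : ℤ) : ℚ) •
        ((((α * e : ℚ) • φ - (β' * f : ℚ) • ψ) ⬝ᵥ w) • ψ)) = (α * e : ℚ) • φ - (β * f : ℚ) • ψ := by
      rw [sub_dotProduct, smul_dotProduct, smul_dotProduct, h2, hf, hβ']
      simp only [smul_eq_mul, mul_zero, sub_zero]
      push_cast
      module
    rw [e1, e2] at h9
    exact h9

/-- transvections in the plane, rational directions -/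
theorem plane_rat' {v φ w ψ : ι → ℚ} {e f : ℤ} (hx : ∃ x ∈ H, qm x = 1 + vecMulVec v φ)
    (hy : ∃ y ∈ H, qm y = 1 + vecMulVec w ψ) (h1 : φ ⬝ᵥ v = 0) (h2 : ψ ⬝ᵥ w = 0)
    (hf : φ ⬝ᵥ w = f) (he : ψ ⬝ᵥ v = e) (hf0 : f ≠ 0) (he0 : e ≠ 0) (hef : |e * f| ≤ 4) (α β : ℚ) :
    T H (α • v + β • w) ((α * e) • φ - (β * f) • ψ) := by
  obtain ⟨d, hd, z, hz⟩ := int_mul (ι := Bool) (fun b => if b then α else β)
  have hdQ : (d : ℚ) ≠ 0 := by exact_mod_cast hd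
  have z1 : (d : ℚ) * α = z true := hz true
  have z2 : (d : ℚ) * β = z false := hz false
  have hnn : 0 ≤ |e| * (z true) ^ 2 + |f| * (z false) ^ 2 := by positivity
  have h3 := plane' hx hy h1 h2 hf he hf0 he0 hef _ (z true) (z false)
    (Int.toNat_of_nonneg hnn).symm
  have h4 := (h3.smul_left (d : ℚ)⁻¹).smul_right (d : ℚ)⁻¹
  rw [← z1, ← z2] at h4
  have e1 : (d : ℚ)⁻¹ • (((d : ℚ) * α) • v + ((d : ℚ) * β) • w) = α • v + β • w := by
    rw [smul_add, smul_smul, smul_smul, inv_mul_cancel_left₀ hdQ, inv_mul_cancel_left₀ hdQ]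
  have e2 : (d : ℚ)⁻¹ • (((d : ℚ) * α * e) • φ - ((d : ℚ) * β * f) • ψ) =
      (α * e) • φ - (β * f) • ψ := by
    rw [smul_sub, smul_smul, smul_smul, mul_assoc (d : ℚ), mul_assoc (d : ℚ),
      inv_mul_cancel_left₀ hdQ, inv_mul_cancel_left₀ hdQ]
  rw [e1, e2] at h4
  exact h4

/-- **two transvections of small trace** -/
theorem full_braid' (hH : ZDense H) (h3 : 3 ≤ Fintype.card ι) {v φ w ψ : ι → ℚ} {e f : ℤ}
    (hx : ∃ x ∈ H, qm x = 1 + vecMulVec v φ)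
    (hy : ∃ y ∈ H, qm y = 1 + vecMulVec w ψ) (h1 : φ ⬝ᵥ v = 0) (h2 : ψ ⬝ᵥ w = 0)
    (hf : φ ⬝ᵥ w = f) (he : ψ ⬝ᵥ v = e) (hf0 : f ≠ 0) (he0 : e ≠ 0) (hef : |e * f| ≤ 4) :
    v ≠ 0 ∧ Full H v :=
  full_plane hH h3 h1 h2 hf he (by exact_mod_cast hf0) (by exact_mod_cast he0)
    fun α β => plane_rat' hx hy h1 h2 hf he hf0 he0 hef α β

/-- **two transvections without a common power** -/
theorem full_pair (hH : ZDense H) (h3 : 3 ≤ Fintype.card ι) {x y : SpecialLinearGroup ι ℤ}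
    (hx : x ∈ H) (hy : y ∈ H) {v φ w ψ : ι → ℤ} (hv : v ≠ 0) (hφ : φ ≠ 0) (hw : w ≠ 0) (hψ : ψ ≠ 0)
    (h1 : φ ⬝ᵥ v = 0) (h2 : ψ ⬝ᵥ w = 0) (ex : mt x = 1 + vecMulVec v φ)
    (ey : mt y = 1 + vecMulVec w ψ) (hind : ∀ k m : ℤ, y ^ k = x ^ m → k = 0)
    (hl : |(φ ⬝ᵥ w) * (ψ ⬝ᵥ v)| ≤ 4) : ∃ p ≠ 0, Full H p := by
  have Tx := cv_T hx h1 ex
  have Ty := cv_T hy h2 ey
  by_cases c1 : φ ⬝ᵥ w = 0
  · by_cases c2 : ψ ⬝ᵥ v = 0
    · refine full_noncyclic hH hx hy hv hφ h1 ex ?_ hind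
      apply qm_inj
      have q3 : cv φ ⬝ᵥ cv w = 0 := by rw [cv_dot, c1, Int.cast_zero]
      have q4 : cv ψ ⬝ᵥ cv v = 0 := by rw [cv_dot, c2, Int.cast_zero]
      rw [qm_mul, qm_mul, cv_qm ex, cv_qm ey]
      simp only [add_mul, mul_add, one_mul, mul_one, vv_mul, q3, q4, zero_smul, add_zero]
      abel
    · exact ⟨cv w, cv_ne hw, full_heis hH (cv_ne hw) (cv_ne hφ) Ty Tx
        (by rw [cv_dot, c1, Int.cast_zero]) (by rw [cv_dot]; exact_mod_cast c2)⟩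
  · by_cases c2 : ψ ⬝ᵥ v = 0
    · exact ⟨cv v, cv_ne hv, full_heis hH (cv_ne hv) (cv_ne hψ) Tx Ty
        (by rw [cv_dot, c2, Int.cast_zero]) (by rw [cv_dot]; exact_mod_cast c1)⟩
    · have := full_braid' hH h3 (v := cv v) (φ := cv φ) (w := cv w) (ψ := cv ψ) (e := ψ ⬝ᵥ v)
        (f := φ ⬝ᵥ w) ⟨x, hx, cv_qm ex⟩ ⟨y, hy, cv_qm ey⟩ (by rw [cv_dot, h1, Int.cast_zero])
        (by rw [cv_dot, h2, Int.cast_zero]) (cv_dot _ _) (cv_dot _ _) c1 c2
        (by rw [mul_comm]; exact hl)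
      exact ⟨cv v, this.1, this.2⟩

end Pool.Agent.L5helper65.SL
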