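import Pool.Agent.L5helper65.SL.Four
import Mathlib.GroupTheory.CoprodI

/-!
# Two transvections which generate a free group
-/

set_option autoImplicit false
set_option maxHeartbeats 400000
set_option linter.unusedSectionVars false
set_option linter.unusedSimpArgs false

namespace Pool.Agent.L5helper65.SL

open Matrix
open Pool.Agent.Helper460_CSP
open scoped Pointwise

variable {ι : Type} [DecidableEq ι] [Fintype ι]

/-- ping-pong for a family of infinite cyclic groups -/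
theorem free_of_ping_pong {κ : Type} [Nontrivial κ] {G : Type} [Group G] (a : κ → G) {α : Type}
    [MulAction G α] (X : κ → Set α) (hne : ∀ i, (X i).Nonempty)
    (hd : ∀ i j, i ≠ j → Disjoint (X i) (X j))
    (hpp : ∀ i j, i ≠ j → ∀ n : ℤ, n ≠ 0 → ∀ z ∈ X j, a i ^ n • z ∈ X i) :
    Function.Injective (FreeGroup.lift a) := by
  have e1 : FreeGroup.lift a =
      (Monoid.CoprodI.lift fun i => FreeGroup.lift fun _ => a i).comp
        (@freeGroupEquivCoprodI κ).toMonoidHom := by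
    ext i
    simp
  rw [e1, MonoidHom.coe_comp]
  refine Function.Injective.comp ?_ (MulEquiv.injective freeGroupEquivCoprodI)
  change Function.Injective (Monoid.CoprodI.lift fun i : κ => FreeGroup.lift fun _ => a i)
  let F : κ → Type := fun _i => FreeGroup Unit
  let f : ∀ i, F i →* G := fun i => FreeGroup.lift fun _ => a i
  apply Monoid.CoprodI.lift_injective_of_ping_pong f _ X hne
  · intro i j hij
    exact hd i j hij
  · rintro i j hij
    refine FreeGroup.freeGroupUnitEquivInt.forall_congr_left.mpr ?_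
    intro n hne1
    change FreeGroup.lift (fun _ => a i) (FreeGroup.of () ^ n) • X j ⊆ X i
    simp only [map_zpow, FreeGroup.lift_apply_of]
    have hnne0 : n ≠ 0 := by
      rintro rfl
      apply hne1
      simp [F, FreeGroup.freeGroupUnitEquivInt]
    rintro _ ⟨z, hz, rfl⟩
    exact hpp i j hij n hnne0 z hz
  · obtain ⟨k, -⟩ := exists_pair_ne κ
    refine Or.inr ⟨k, ?_⟩
    simp only [F]
    rw [FreeGroup.freeGroupUnitEquivInt.cardinal_eq, Cardinal.mk_denumerable]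
    exact Cardinal.natCast_le_aleph0

/-- the inequality of the ping-pong -/
theorem pong {E F e s t : ℚ} {k : ℤ} (hk : k ≠ 0) (hE : 0 ≤ E) (hF : 0 ≤ F) (he : e ^ 2 = E ^ 2)
    (hEF : 4 ≤ E * F) (h : F * s ^ 2 < E * t ^ 2) : E * t ^ 2 < F * (s + k * e * t) ^ 2 := by
  by_contra hcon
  push Not at hcon
  have h1 : F * ((k * e * t) ^ 2) ≤ 2 * (F * s ^ 2) + 2 * (F * (s + k * e * t) ^ 2) := by
    nlinarith [mul_nonneg hF (sq_nonneg (2 * s + k * e * t))]
  have h2 : F * ((k * e * t) ^ 2) = (k : ℚ) ^ 2 * ((E * F) * (E * t ^ 2)) := by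
    have : (k * e * t : ℚ) ^ 2 = (k : ℚ) ^ 2 * e ^ 2 * t ^ 2 := by ring
    rw [this, he]
    ring
  have hk2 : (1 : ℚ) ≤ (k : ℚ) ^ 2 := by
    have : (1 : ℤ) ≤ k ^ 2 := by
      have := Int.one_le_abs hk
      nlinarith [abs_nonneg k, sq_abs k]
    exact_mod_cast this
  have h3 : 0 ≤ E * t ^ 2 := mul_nonneg hE (sq_nonneg t)
  have h4 : 4 * (E * t ^ 2) ≤ (E * F) * (E * t ^ 2) := mul_le_mul_of_nonneg_right hEF h3
  have h5 : (E * F) * (E * t ^ 2) ≤ (k : ℚ) ^ 2 * ((E * F) * (E * t ^ 2)) := by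
    have h6 : 0 ≤ (E * F) * (E * t ^ 2) := by linarith
    nlinarith
  rw [h2] at h1
  linarith

/-- **two transvections with `|φ(w) ψ(v)| ≥ 4` generate a free group** -/
theorem free_pair {x y : SpecialLinearGroup ι ℤ} {v φ w ψ : ι → ℚ} {e f : ℚ}
    (hx : qm x = 1 + vecMulVec v φ) (hy : qm y = 1 + vecMulVec w ψ) (h1 : φ ⬝ᵥ v = 0)
    (h2 : ψ ⬝ᵥ w = 0) (hf : φ ⬝ᵥ w = f) (he : ψ ⬝ᵥ v = e) (hef : 4 ≤ |e * f|) :
    Function.Injective (FreeGroup.lift ![x, y]) := by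
  have hef0 : e * f ≠ 0 := by
    intro h
    rw [h, abs_zero] at hef
    norm_num at hef
  have he0 := left_ne_zero_of_mul hef0
  have hf0 := right_ne_zero_of_mul hef0
  have hEF : 4 ≤ |e| * |f| := by rwa [← abs_mul]
  have hFE : 4 ≤ |f| * |e| := by rwa [mul_comm]
  let _ : MulAction (SpecialLinearGroup ι ℤ) (ι → ℚ) :=
    { smul := fun g z => qm g *ᵥ z
      one_smul := fun z => by
        show qm 1 *ᵥ z = z
        rw [qm_one, one_mulVec]
      mul_smul := fun g h z => by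
        show qm (g * h) *ᵥ z = qm g *ᵥ (qm h *ᵥ z)
        rw [qm_mul, mulVec_mulVec] }
  have hsm : ∀ (g : SpecialLinearGroup ι ℤ) (z : ι → ℚ), g • z = qm g *ᵥ z := fun _ _ => rfl
  refine free_of_ping_pong ![x, y]
    ![{z | |e| * (φ ⬝ᵥ z) ^ 2 < |f| * (ψ ⬝ᵥ z) ^ 2}, {z | |f| * (ψ ⬝ᵥ z) ^ 2 < |e| * (φ ⬝ᵥ z) ^ 2}]
    ?_ ?_ ?_
  · intro i
    fin_cases i
    · refine ⟨v, ?_⟩
      show |e| * (φ ⬝ᵥ v) ^ 2 < |f| * (ψ ⬝ᵥ v) ^ 2
      rw [h1, he]
      have : 0 < |f| * e ^ 2 := by positivity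
      simpa using this
    · refine ⟨w, ?_⟩
      show |f| * (ψ ⬝ᵥ w) ^ 2 < |e| * (φ ⬝ᵥ w) ^ 2
      rw [h2, hf]
      have : 0 < |e| * f ^ 2 := by positivity
      simpa using this
  · have key : Disjoint {z : ι → ℚ | |e| * (φ ⬝ᵥ z) ^ 2 < |f| * (ψ ⬝ᵥ z) ^ 2}
        {z | |f| * (ψ ⬝ᵥ z) ^ 2 < |e| * (φ ⬝ᵥ z) ^ 2} := by
      rw [Set.disjoint_left]
      intro z h3 h4
      exact lt_asymm (show |e| * (φ ⬝ᵥ z) ^ 2 < |f| * (ψ ⬝ᵥ z) ^ 2 from h3) h4
    intro i j hij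
    fin_cases i <;> fin_cases j
    · exact absurd rfl hij
    · exact key
    · exact key.symm
    · exact absurd rfl hij
  · intro i j hij n hn z hz
    fin_cases i <;> fin_cases j
    · exact absurd rfl hij
    · show |e| * (φ ⬝ᵥ (qm (x ^ n) *ᵥ z)) ^ 2 < |f| * (ψ ⬝ᵥ (qm (x ^ n) *ᵥ z)) ^ 2
      have hz' : |f| * (ψ ⬝ᵥ z) ^ 2 < |e| * (φ ⬝ᵥ z) ^ 2 := hz
      rw [qm_zpow hx (vv_sq h1), add_mulVec, one_mulVec, smul_mulVec, vv_mulVec, dotProduct_add,
        dotProduct_add, dotProduct_smul, dotProduct_smul, dotProduct_smul, dotProduct_smul, h1, he]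
      simp only [smul_eq_mul, mul_zero, add_zero]
      have h5 := pong (e := e) hn (abs_nonneg e) (abs_nonneg f) (sq_abs e).symm hEF hz'
      have h6 : (n : ℚ) * ((φ ⬝ᵥ z) * e) = n * e * (φ ⬝ᵥ z) := by ring
      rw [h6]
      exact h5
    · show |f| * (ψ ⬝ᵥ (qm (y ^ n) *ᵥ z)) ^ 2 < |e| * (φ ⬝ᵥ (qm (y ^ n) *ᵥ z)) ^ 2
      have hz' : |e| * (φ ⬝ᵥ z) ^ 2 < |f| * (ψ ⬝ᵥ z) ^ 2 := hz
      rw [qm_zpow hy (vv_sq h2), add_mulVec, one_mulVec, smul_mulVec, vv_mulVec, dotProduct_add,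
        dotProduct_add, dotProduct_smul, dotProduct_smul, dotProduct_smul, dotProduct_smul, h2, hf]
      simp only [smul_eq_mul, mul_zero, add_zero]
      have h5 := pong (e := f) hn (abs_nonneg f) (abs_nonneg e) (sq_abs f).symm hFE hz'
      have h6 : (n : ℚ) * ((ψ ⬝ᵥ z) * f) = n * f * (ψ ⬝ᵥ z) := by ring
      rw [h6]
      exact h5
    · exact absurd rfl hij

end Pool.Agent.L5helper65.SL
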