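import Pool.Agent.L5helper65.SL.Reg

/-!
# Full vectors
-/

set_option autoImplicit false
set_option maxHeartbeats 400000
set_option linter.unusedSectionVars false
set_option linter.unusedSimpArgs false

namespace Pool.Agent.L5helper65.SL

open Matrix
open Pool.Agent.Helper460_CSP

variable {ι : Type} [DecidableEq ι] [Fintype ι] {H : Subgroup (SpecialLinearGroup ι ℤ)}

/-- the functionals of the transvections in `H` with a given vector -/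
def W (H : Subgroup (SpecialLinearGroup ι ℤ)) (v : ι → ℚ) : Submodule ℚ (ι → ℚ) where
  carrier := {φ | T H v φ}
  add_mem' := T.add_right
  zero_mem' := T.zero_right v
  smul_mem' c _ h := h.smul_right c

theorem mem_W {v φ : ι → ℚ} : φ ∈ W H v ↔ T H v φ := Iff.rfl

/-- all transvections with the vector `v` have a power in `H` -/
def Full (H : Subgroup (SpecialLinearGroup ι ℤ)) (v : ι → ℚ) : Prop :=
  ∀ φ : ι → ℚ, φ ⬝ᵥ v = 0 → T H v φ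

/-- the action of `1 + s x ξ` and of its inverse -/
theorem act {g : SpecialLinearGroup ι ℤ} {s : ℤ} {x ξ : ι → ℚ}
    (hg : qm g = 1 + (s : ℚ) • vecMulVec x ξ) (w : ι → ℚ) :
    qm g *ᵥ w = w + ((s : ℚ) * (ξ ⬝ᵥ w)) • x := by
  rw [hg, add_mulVec, one_mulVec, smul_mulVec, vv_mulVec, smul_smul]

theorem act_inv {g : SpecialLinearGroup ι ℤ} {s : ℤ} {x ξ : ι → ℚ} (h0 : ξ ⬝ᵥ x = 0)
    (hg : qm g = 1 + (s : ℚ) • vecMulVec x ξ) (w : ι → ℚ) :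
    qm g⁻¹ *ᵥ w = w - ((s : ℚ) * (ξ ⬝ᵥ w)) • x := by
  have := T.pow h0 hg (-1)
  rw [_root_.zpow_neg_one] at this
  rw [act this w]
  push_cast
  rw [mul_neg_one, neg_mul, neg_smul, sub_eq_add_neg]

/-- **two independent transvections with the same vector** -/
theorem full_of_two (hH : ZDense H) {v χ₁ χ₂ : ι → ℚ} (hv : v ≠ 0) (h1 : T H v χ₁) (h2 : T H v χ₂)
    (hli : ∀ a b : ℚ, a • χ₁ + b • χ₂ = 0 → a = 0 ∧ b = 0) : Full H v := by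
  intro φ hφ
  by_contra hT
  have hφW : φ ∉ W H v := hT
  obtain ⟨u, hu, hφu⟩ := sep _ hφW
  have hu1 : χ₁ ⬝ᵥ u = 0 := hu _ h1
  have hu2 : χ₂ ⬝ᵥ u = 0 := hu _ h2
  have hv1 : χ₁ ⬝ᵥ v = 0 := h1.1
  have hv2 : χ₂ ⬝ᵥ v = 0 := h2.1
  obtain ⟨i, hi⟩ : ∃ i, v i ≠ 0 := Function.ne_iff.1 hv
  obtain ⟨ξ, hξ⟩ : ∃ ξ, ξ = (φ ⬝ᵥ u) • (Pi.single i 1 : ι → ℚ) - (u i) • φ := ⟨_, rfl⟩
  have hξu : ξ ⬝ᵥ u = 0 := by
    rw [hξ, sub_dotProduct, smul_dotProduct, smul_dotProduct, single_dotProduct]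
    simp only [smul_eq_mul]
    ring
  have hξv : ξ ⬝ᵥ v ≠ 0 := by
    rw [hξ, sub_dotProduct, smul_dotProduct, smul_dotProduct, single_dotProduct, hφ]
    simp only [smul_eq_mul, mul_zero, sub_zero, one_mul]
    exact mul_ne_zero hφu hi
  -- evaluation of a combination
  have ev : ∀ (χ χ' : ι → ℚ), χ ⬝ᵥ v = 0 → χ ⬝ᵥ u = 0 → χ' ⬝ᵥ v = 0 → χ' ⬝ᵥ u = 0 →
      χ ∈ Submodule.span ℚ {χ', ξ, φ} → ∃ a : ℚ, a • χ' = χ := by
    intro χ χ' e1 e2 e3 e4 hm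
    obtain ⟨a, b, c, rfl⟩ := Submodule.mem_span_triple.1 hm
    rw [add_dotProduct, add_dotProduct, smul_dotProduct, smul_dotProduct, smul_dotProduct, e3, hφ,
      smul_zero, smul_zero, zero_add, add_zero, smul_eq_mul] at e1
    have hb : b = 0 := (mul_eq_zero.1 e1).resolve_right hξv
    rw [add_dotProduct, add_dotProduct, smul_dotProduct, smul_dotProduct, smul_dotProduct, e4, hξu,
      smul_zero, smul_zero, zero_add, zero_add, smul_eq_mul] at e2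
    have hc : c = 0 := (mul_eq_zero.1 e2).resolve_right hφu
    exact ⟨a, by rw [hb, hc, zero_smul, zero_smul, add_zero, add_zero]⟩
  have n1 : χ₁ ∉ Submodule.span ℚ {χ₂, ξ, φ} := by
    intro hm
    obtain ⟨a, ha⟩ := ev _ _ hv1 hu1 hv2 hu2 hm
    have := hli (-1) a (by rw [ha]; simp)
    exact absurd this.1 (by norm_num)
  have n2 : χ₂ ∉ Submodule.span ℚ {χ₁, ξ, φ} := by
    intro hm
    obtain ⟨a, ha⟩ := ev _ _ hv2 hu2 hv1 hu1 hm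
    have := hli a (-1) (by rw [ha]; simp)
    exact absurd this.2 (by norm_num)
  obtain ⟨x, hx, hx1⟩ := sep _ n1
  obtain ⟨y, hy, hy2⟩ := sep _ n2
  have hx2 : χ₂ ⬝ᵥ x = 0 := hx _ (Submodule.subset_span (by simp))
  have hxξ : ξ ⬝ᵥ x = 0 := hx _ (Submodule.subset_span (by simp))
  have hxφ : φ ⬝ᵥ x = 0 := hx _ (Submodule.subset_span (by simp))
  have hy1 : χ₁ ⬝ᵥ y = 0 := hy _ (Submodule.subset_span (by simp))
  have hyφ : φ ⬝ᵥ y = 0 := hy _ (Submodule.subset_span (by simp))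
  obtain ⟨-, s, hs, g₁, -, hg₁⟩ := T_top hxξ
  obtain ⟨-, t, ht, g₂, -, hg₂⟩ := T_top hyφ
  have hsQ : (s : ℚ) ≠ 0 := by exact_mod_cast hs
  have htQ : (t : ℚ) ≠ 0 := by exact_mod_cast ht
  -- the regular function
  have hF : (fun g => (χ₁ ⬝ᵥ (qm g *ᵥ v)) * ((χ₁ ⬝ᵥ (qm g⁻¹ *ᵥ v)) * (χ₂ ⬝ᵥ (qm g⁻¹ *ᵥ u)) -
      (χ₂ ⬝ᵥ (qm g⁻¹ *ᵥ v)) * (χ₁ ⬝ᵥ (qm g⁻¹ *ᵥ u)))) ∈ Reg ι :=
    reg_mul (reg_dv _ _) (reg_sub (reg_mul (reg_div _ _) (reg_div _ _))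
      (reg_mul (reg_div _ _) (reg_div _ _)))
  have h0 := hH _ hF (by
    intro h hh
    show (χ₁ ⬝ᵥ (qm h *ᵥ v)) * ((χ₁ ⬝ᵥ (qm h⁻¹ *ᵥ v)) * (χ₂ ⬝ᵥ (qm h⁻¹ *ᵥ u)) -
      (χ₂ ⬝ᵥ (qm h⁻¹ *ᵥ v)) * (χ₁ ⬝ᵥ (qm h⁻¹ *ᵥ u))) = 0
    by_cases hc : χ₁ ⬝ᵥ (qm h *ᵥ v) = 0
    · rw [hc, zero_mul]
    · obtain ⟨χ, hχ⟩ : ∃ χ, χ = (χ₁ ⬝ᵥ (qm h⁻¹ *ᵥ v)) • χ₂ - (χ₂ ⬝ᵥ (qm h⁻¹ *ᵥ v)) • χ₁ := ⟨_, rfl⟩
      have hTχ : T H v χ := by
        rw [hχ]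
        exact (W H v).sub_mem ((W H v).smul_mem _ h2) ((W H v).smul_mem _ h1)
      have h3 : (χ ᵥ* qm h⁻¹) ⬝ᵥ v = 0 := by
        rw [← dotProduct_mulVec, hχ, sub_dotProduct, smul_dotProduct, smul_dotProduct]
        simp only [smul_eq_mul]
        ring
      have h4 : T H v (χ ᵥ* qm h⁻¹) := h1.comm (hTχ.conj hh) h3 hc
      have h5 := hu _ h4
      rw [← dotProduct_mulVec, hχ, sub_dotProduct, smul_dotProduct, smul_dotProduct] at h5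
      simp only [smul_eq_mul] at h5
      rw [h5, mul_zero]) (g₁ * g₂)
  have e1 : qm (g₁ * g₂) *ᵥ v = v + ((s : ℚ) * (ξ ⬝ᵥ v)) • x := by
    rw [qm_mul, ← mulVec_mulVec, act hg₂, hφ, mul_zero, zero_smul, add_zero, act hg₁]
  have e2 : qm (g₁ * g₂)⁻¹ *ᵥ v = v - ((s : ℚ) * (ξ ⬝ᵥ v)) • x := by
    rw [_root_.mul_inv_rev, qm_mul, ← mulVec_mulVec, act_inv hxξ hg₁, act_inv hyφ hg₂, dotProduct_sub,
      dotProduct_smul, hφ, hxφ, smul_zero, sub_zero, mul_zero, zero_smul, sub_zero]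
  have e3 : qm (g₁ * g₂)⁻¹ *ᵥ u = u - ((t : ℚ) * (φ ⬝ᵥ u)) • y := by
    rw [_root_.mul_inv_rev, qm_mul, ← mulVec_mulVec, act_inv hxξ hg₁, hξu, mul_zero, zero_smul, sub_zero,
      act_inv hyφ hg₂]
  beta_reduce at h0
  rw [e1, e2, e3] at h0
  simp only [dotProduct_add, dotProduct_sub, dotProduct_smul, hv1, hv2, hu1, hu2, hx2, hy1,
    smul_eq_mul, mul_zero, zero_add, zero_sub, sub_zero, add_zero, neg_zero] at h0
  have : (s : ℚ) * (ξ ⬝ᵥ v) * (χ₁ ⬝ᵥ x) * (-((s : ℚ) * (ξ ⬝ᵥ v) * (χ₁ ⬝ᵥ x)) *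
      -((t : ℚ) * (φ ⬝ᵥ u) * (χ₂ ⬝ᵥ y))) ≠ 0 := by
    refine mul_ne_zero (mul_ne_zero (mul_ne_zero hsQ hξv) hx1) (mul_ne_zero (neg_ne_zero.2 ?_)
      (neg_ne_zero.2 ?_))
    · exact mul_ne_zero (mul_ne_zero hsQ hξv) hx1
    · exact mul_ne_zero (mul_ne_zero htQ hφu) hy2
  exact this h0

/-- general position -/
theorem exists_ne (hH : ZDense H) {ψ v : ι → ℚ} (hψ : ψ ≠ 0) (hv : v ≠ 0) :
    ∃ h ∈ H, ψ ⬝ᵥ (qm h *ᵥ v) ≠ 0 := by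
  by_contra hcon
  push Not at hcon
  have h0 := hH _ (reg_dv ψ v) hcon
  have h1 : ψ ⬝ᵥ v = 0 := by
    have := h0 1
    rw [qm_one, one_mulVec] at this
    exact this
  obtain ⟨i, hi⟩ : ∃ i, v i ≠ 0 := Function.ne_iff.1 hv
  have hn : ψ ∉ Submodule.span ℚ {(Pi.single i 1 : ι → ℚ)} := by
    intro hm
    obtain ⟨c, rfl⟩ := Submodule.mem_span_singleton.1 hm
    rw [smul_dotProduct, single_dotProduct, one_mul, smul_eq_mul] at h1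
    have hc : c = 0 := (mul_eq_zero.1 h1).resolve_right hi
    exact hψ (by rw [hc, zero_smul])
  obtain ⟨x, hx, hx'⟩ := sep _ hn
  have hx1 : (Pi.single i 1 : ι → ℚ) ⬝ᵥ x = 0 := hx _ (Submodule.mem_span_singleton_self _)
  obtain ⟨-, s, hs, g, -, hg⟩ := T_top hx1
  have h2 := h0 g
  beta_reduce at h2
  rw [act hg, dotProduct_add, h1, dotProduct_smul, single_dotProduct, one_mul, zero_add,
    smul_eq_mul] at h2
  have hsQ : (s : ℚ) ≠ 0 := by exact_mod_cast hs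
  exact mul_ne_zero (mul_ne_zero hsQ hi) hx' h2

theorem exists_two (h3 : 3 ≤ Fintype.card ι) (w₁ w₂ : ι → ℚ) :
    ∃ ψ : ι → ℚ, ψ ≠ 0 ∧ ψ ⬝ᵥ w₁ = 0 ∧ ψ ⬝ᵥ w₂ = 0 := by
  have hne : Submodule.span ℚ {w₁, w₂} ≠ ⊤ := by
    intro htop
    have h1 : Module.finrank ℚ (Submodule.span ℚ (({w₁, w₂} : Finset (ι → ℚ)) : Set (ι → ℚ))) ≤ 2 :=
      (finrank_span_finset_le_card _).trans Finset.card_le_two
    rw [Finset.coe_pair, htop, finrank_top, Module.finrank_fintype_fun_eq_card] at h1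
    omega
  obtain ⟨e, he⟩ : ∃ e, e ∉ Submodule.span ℚ {w₁, w₂} := by
    by_contra hcon
    push Not at hcon
    exact hne (Submodule.eq_top_iff'.2 hcon)
  obtain ⟨x, hx, hx'⟩ := sep _ he
  refine ⟨x, ?_, ?_, ?_⟩
  · rintro rfl
    simp at hx'
  · rw [dotProduct_comm]
    exact hx _ (Submodule.subset_span (by simp))
  · rw [dotProduct_comm]
    exact hx _ (Submodule.subset_span (by simp))

theorem Full.smul {v : ι → ℚ} (h : Full H v) (c : ℚ) : Full H (c • v) := by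
  intro φ hφ
  by_cases hc : c = 0
  · rw [hc, zero_smul]
    exact T.zero_left φ
  · rw [dotProduct_smul, smul_eq_mul] at hφ
    exact (h φ ((mul_eq_zero.1 hφ).resolve_left hc)).smul_left c

theorem Full.conj {v : ι → ℚ} (h : Full H v) {x : SpecialLinearGroup ι ℤ} (hx : x ∈ H) :
    Full H (qm x *ᵥ v) := by
  intro φ hφ
  have h1 := (h (φ ᵥ* qm x) (by rw [← dotProduct_mulVec, hφ])).conj hx
  rwa [vecMul_vecMul, qm_mul_inv, vecMul_one] at h1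

theorem Full.add (hH : ZDense H) (h3 : 3 ≤ Fintype.card ι) {v : ι → ℚ} (hv : v ≠ 0) (h : Full H v)
    {w₁ w₂ : ι → ℚ} (h1 : Full H w₁) (h2 : Full H w₂) : Full H (w₁ + w₂) := by
  obtain ⟨ψ, hψ, e1, e2⟩ := exists_two h3 w₁ w₂
  obtain ⟨x, hx, hne⟩ := exists_ne hH hψ hv
  have h4 := h.conj hx
  obtain ⟨v₃, hv₃⟩ : ∃ v₃, v₃ = qm x *ᵥ v := ⟨_, rfl⟩
  rw [← hv₃] at hne h4
  have h5 : T H (w₁ + w₂) ψ := (h1 ψ e1).add_left (h2 ψ e2)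
  intro φ hφ
  obtain ⟨c, hc⟩ : ∃ c, c = (φ ⬝ᵥ v₃) / (ψ ⬝ᵥ v₃) := ⟨_, rfl⟩
  have h6 : (φ - c • ψ) ⬝ᵥ v₃ = 0 := by
    rw [sub_dotProduct, smul_dotProduct, smul_eq_mul, hc, div_mul_cancel₀ _ hne, sub_self]
  have h7 : (φ - c • ψ) ⬝ᵥ (w₁ + w₂) = 0 := by
    rw [sub_dotProduct, smul_dotProduct, hφ, dotProduct_add, e1, e2, add_zero, smul_zero, sub_zero]
  have h8 : T H (w₁ + w₂) (φ - c • ψ) := h5.comm (h4 _ h6) h7 hne
  have h9 := h8.add_right (h5.smul_right c)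
  rwa [sub_add_cancel] at h9

/-- if one vector is full, then all vectors are full -/
theorem all_full (hH : ZDense H) (h3 : 3 ≤ Fintype.card ι) {v : ι → ℚ} (hv : v ≠ 0) (h : Full H v)
    (w : ι → ℚ) : Full H w := by
  let F : Submodule ℚ (ι → ℚ) :=
    { carrier := {w | Full H w}
      add_mem' := fun h1 h2 => Full.add hH h3 hv h h1 h2
      zero_mem' := fun φ _ => T.zero_left φ
      smul_mem' := fun c _ h => h.smul c }
  by_contra hw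
  have hw' : w ∉ F := hw
  obtain ⟨ψ, hψ, hψw⟩ := sep _ hw'
  have hψ0 : ψ ≠ 0 := by
    rintro rfl
    simp at hψw
  obtain ⟨x, hx, hne⟩ := exists_ne hH hψ0 hv
  apply hne
  rw [dotProduct_comm]
  exact hψ _ (h.conj hx)

end Pool.Agent.L5helper65.SL
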