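import Pool.Agent.L5helper65.SL.Mink

/-!
# Subgroups all of whose elements have powers in the group of a unipotent element
-/

set_option autoImplicit false
set_option maxHeartbeats 400000
set_option linter.unusedSectionVars false
set_option linter.unusedSimpArgs false

namespace Pool.Agent.L5helper65.SL

open Matrix
open Pool.Agent.Helper460_CSP

variable {ι : Type} [DecidableEq ι] [Fintype ι]

/-- the congruence subgroup of level three -/
def G3 (ι : Type) [DecidableEq ι] [Fintype ι] : Subgroup (SpecialLinearGroup ι ℤ) :=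
  (SpecialLinearGroup.map (Int.castRingHom (ZMod 3))).ker

theorem G3_relIndex (C : Subgroup (SpecialLinearGroup ι ℤ)) : (C ⊓ G3 ι).relIndex C ≠ 0 := by
  rw [Subgroup.inf_relIndex_left]
  have : (G3 ι).FiniteIndex := by
    unfold G3
    infer_instance
  have h2 : (G3 ι).IsFiniteRelIndex C := Subgroup.isFiniteRelIndex_of_finiteIndex
  exact Subgroup.relIndex_ne_zero

theorem G3_P3 {g : SpecialLinearGroup ι ℤ} (hg : g ∈ G3 ι) : P3 (mt g) := by
  have h1 : SpecialLinearGroup.map (Int.castRingHom (ZMod 3)) g = 1 := hg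
  have h2 : ∀ i j, (3 : ℤ) ∣ mt g i j - (1 : Matrix ι ι ℤ) i j := by
    intro i j
    have h3 : ((mt g i j : ℤ) : ZMod 3) = (1 : Matrix ι ι (ZMod 3)) i j :=
      congrFun (congrFun (congrArg Subtype.val h1) i) j
    have h4 : ((mt g i j : ℤ) : ZMod 3) = (((1 : Matrix ι ι ℤ) i j : ℤ) : ZMod 3) := by
      rw [h3, one_apply, one_apply]
      split_ifs <;> simp
    exact (ZMod.intCast_eq_intCast_iff_dvd_sub _ _ 3).1 h4.symm
  choose B hB using h2
  refine ⟨Matrix.of B, ?_⟩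
  ext i j
  rw [Matrix.add_apply, Matrix.smul_apply, Matrix.of_apply, smul_eq_mul, ← hB]
  ring

/-- a criterion for finite relative index -/
theorem relIndex_of {C : Subgroup (SpecialLinearGroup ι ℤ)} {u : SpecialLinearGroup ι ℤ} {D : ℤ}
    (hD : D ≠ 0) (d : SpecialLinearGroup ι ℤ → ℤ)
    (hmul : ∀ g ∈ C ⊓ G3 ι, ∀ h ∈ C ⊓ G3 ι, d (g * h) = d g + d h)
    (hker : ∀ g ∈ C ⊓ G3 ι, D ∣ d g → g ∈ Subgroup.zpowers u) :
    (Subgroup.zpowers u).relIndex C ≠ 0 := by
  refine Subgroup.relIndex_ne_zero_trans ?_ (G3_relIndex C)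
  have : NeZero D.natAbs := ⟨Int.natAbs_ne_zero.2 hD⟩
  let f : (C ⊓ G3 ι : Subgroup (SpecialLinearGroup ι ℤ)) →* Multiplicative (ZMod D.natAbs) :=
    { toFun := fun g => Multiplicative.ofAdd ((d g : ℤ) : ZMod D.natAbs)
      map_one' := by
        have h1 := hmul 1 (Subgroup.one_mem _) 1 (Subgroup.one_mem _)
        rw [mul_one] at h1
        have h2 : d 1 = 0 := by linarith
        show Multiplicative.ofAdd ((d ((1 : (C ⊓ G3 ι : Subgroup (SpecialLinearGroup ι ℤ))) :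
          SpecialLinearGroup ι ℤ) : ℤ) : ZMod D.natAbs) = 1
        rw [Subgroup.coe_one, h2, Int.cast_zero]
        rfl
      map_mul' := by
        intro g h
        show Multiplicative.ofAdd ((d ((g * h : (C ⊓ G3 ι : Subgroup (SpecialLinearGroup ι ℤ))) :
          SpecialLinearGroup ι ℤ) : ℤ) : ZMod D.natAbs) = _
        rw [Subgroup.coe_mul, hmul _ g.2 _ h.2, Int.cast_add]
        rfl }
  have h1 : f.ker ≤ (Subgroup.zpowers u).subgroupOf (C ⊓ G3 ι) := by
    intro g hg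
    rw [Subgroup.mem_subgroupOf]
    apply hker _ g.2
    have h2 : Multiplicative.ofAdd ((d g : ℤ) : ZMod D.natAbs) = 1 := hg
    have h3 : ((d g : ℤ) : ZMod D.natAbs) = 0 := h2
    have h4 := (ZMod.intCast_zmod_eq_zero_iff_dvd _ _).1 h3
    exact Int.natAbs_dvd.1 h4
  have h2 : f.ker.FiniteIndex := inferInstance
  have h3 : ((Subgroup.zpowers u).subgroupOf (C ⊓ G3 ι)).FiniteIndex := Subgroup.finiteIndex_of_le h1
  exact h3.index_ne_zero

/-- the case of a transvection -/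
theorem relIndex_trans {C : Subgroup (SpecialLinearGroup ι ℤ)} {u : SpecialLinearGroup ι ℤ}
    {v φ : ι → ℤ} (hv : v ≠ 0) (hφ : φ ≠ 0) (h0 : φ ⬝ᵥ v = 0) (hu : mt u = 1 + vecMulVec v φ)
    (hC : ∀ g ∈ C, ∃ k : ℕ, 0 < k ∧ ∃ m : ℤ, g ^ k = u ^ m) :
    (Subgroup.zpowers u).relIndex C ≠ 0 := by
  obtain ⟨i₀, hi⟩ : ∃ i, v i ≠ 0 := Function.ne_iff.1 hv
  obtain ⟨j₀, hj⟩ : ∃ j, φ j ≠ 0 := Function.ne_iff.1 hφ
  have hi' : v i₀ ≠ 0 := hi
  have hj' : φ j₀ ≠ 0 := hj
  have hD : v i₀ * φ j₀ ≠ 0 := mul_ne_zero hi' hj'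
  have key : ∀ g ∈ C ⊓ G3 ι, ∀ i j, (v i₀ * φ j₀) * (mt g - 1) i j =
      (mt g - 1) i₀ j₀ * (v i * φ j) := by
    intro g hg i j
    obtain ⟨k, hk, m, hm⟩ := hC g hg.1
    exact cent_form h0 hu (G3_P3 hg.2) hk hm i₀ j₀ i j
  refine relIndex_of hD (fun g => (mt g - 1) i₀ j₀) ?_ ?_
  · intro g hg h hh
    beta_reduce
    have h1 : mt (g * h) - 1 = (mt g - 1) + (mt h - 1) + (mt g - 1) * (mt h - 1) := by
      rw [mt_mul]
      simp only [sub_mul, mul_sub, one_mul, mul_one]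
      abel
    have h2 : ((mt g - 1) * (mt h - 1)) i₀ j₀ = 0 := by
      have h3 : (v i₀ * φ j₀) * (v i₀ * φ j₀) * ((mt g - 1) * (mt h - 1)) i₀ j₀ = 0 := by
        rw [mul_apply, Finset.mul_sum]
        have h4 : ∀ x, (v i₀ * φ j₀) * (v i₀ * φ j₀) * ((mt g - 1) i₀ x * (mt h - 1) x j₀) =
            ((mt g - 1) i₀ j₀ * (mt h - 1) i₀ j₀ * (v i₀ * φ j₀)) * (φ x * v x) := by
          intro x
          have e1 := key g hg i₀ x
          have e2 := key h hh x j₀
          linear_combination (v i₀ * φ j₀) * (mt h - 1) x j₀ * e1 +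
            ((mt g - 1) i₀ j₀ * (v i₀ * φ x)) * e2
        rw [Finset.sum_congr rfl fun x _ => h4 x, ← Finset.mul_sum]
        have h5 : ∑ x, φ x * v x = 0 := h0
        rw [h5, mul_zero]
      exact (mul_eq_zero.1 h3).resolve_left (mul_ne_zero hD hD)
    rw [h1, Matrix.add_apply, Matrix.add_apply, h2, add_zero]
  · rintro g hg ⟨t, ht⟩
    beta_reduce at ht
    refine Subgroup.mem_zpowers_iff.2 ⟨t, ?_⟩
    apply mt_inj
    rw [mt_zpow h0 hu]
    ext i j
    have h1 := key g hg i j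
    rw [ht] at h1
    have h2 : (v i₀ * φ j₀) * ((mt g - 1) i j - t * (v i * φ j)) = 0 := by linear_combination h1
    have h3 := (mul_eq_zero.1 h2).resolve_left hD
    rw [Matrix.sub_apply] at h3
    rw [Matrix.add_apply, Matrix.smul_apply, vecMulVec_apply, smul_eq_mul]
    linear_combination -h3

end Pool.Agent.L5helper65.SL
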