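import Pool.Agent.L5helper65.SL.Unip

/-!
# Finite index of the powers of a transvection in a centralizer
-/

set_option autoImplicit false
set_option maxHeartbeats 400000
set_option linter.unusedSectionVars false
set_option linter.unusedSimpArgs false

namespace Pool.Agent.L5helper65.SL

open Matrix
open Pool.Agent.Helper460_CSP

variable {ι : Type} [DecidableEq ι] [Fintype ι]

/-- infinite descent modulo powers of three -/
theorem desc {w : ι → ℤ} {X : Matrix ι ι ℤ} {c : ℤ} (hc : IsCoprime (3 : ℤ) c)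
    (h : ∀ i, c * w i + 3 * (X *ᵥ w) i = 0) : w = 0 := by
  have key : ∀ r : ℕ, ∀ i, (3 : ℤ) ^ r ∣ w i := by
    intro r
    induction r with
    | zero => intro i; simp
    | succ r ih =>
      intro i
      have h1 : (3 : ℤ) ^ r ∣ (X *ᵥ w) i := by
        show (3 : ℤ) ^ r ∣ ∑ j, X i j * w j
        exact Finset.dvd_sum fun j _ => (ih j).mul_left _
      have h2 : (3 : ℤ) ^ (r + 1) ∣ c * w i := by
        have h3 : c * w i = 3 * -(X *ᵥ w) i := by linear_combination h i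
        rw [h3, pow_succ, mul_comm]
        exact mul_dvd_mul_left _ ((dvd_neg).2 h1)
      exact (hc.pow_left).dvd_of_dvd_mul_left h2
  funext i
  by_contra hi
  have hi' : w i ≠ 0 := hi
  have h1 := key (w i).natAbs i
  have h2 : (3 : ℕ) ^ (w i).natAbs ∣ (w i).natAbs := by
    have := Int.natAbs_dvd_natAbs.2 h1
    rwa [Int.natAbs_pow] at this
  have h3 := Nat.le_of_dvd (Int.natAbs_pos.2 hi') h2
  have h4 : (w i).natAbs < 3 ^ (w i).natAbs := Nat.lt_pow_self (by norm_num)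
  omega

/-- congruent to one modulo three -/
def P3 (G : Matrix ι ι ℤ) : Prop := ∃ B : Matrix ι ι ℤ, G = 1 + (3 : ℤ) • B

theorem P3.mul {G G' : Matrix ι ι ℤ} (h : P3 G) (h' : P3 G') : P3 (G * G') := by
  obtain ⟨B, rfl⟩ := h
  obtain ⟨B', rfl⟩ := h'
  refine ⟨B + B' + (3 : ℤ) • (B * B'), ?_⟩
  simp only [add_mul, mul_add, one_mul, mul_one, smul_mul_smul_comm, smul_add, smul_smul]
  abel

theorem P3.pow {G : Matrix ι ι ℤ} (h : P3 G) (k : ℕ) : P3 (G ^ k) := by
  induction k with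
  | zero => exact ⟨0, by simp⟩
  | succ k ih =>
    rw [pow_succ]
    exact ih.mul h

theorem mink_one {G : Matrix ι ι ℤ} (hG : P3 G) {k : ℕ} (hk : IsCoprime (3 : ℤ) k) {z : ι → ℤ}
    (h : G ^ k *ᵥ z = z) : G *ᵥ z = z := by
  have hS : ∃ X : Matrix ι ι ℤ, ∑ i ∈ Finset.range k, G ^ i = (k : ℤ) • 1 + (3 : ℤ) • X := by
    clear h hk
    induction k with
    | zero => exact ⟨0, by simp⟩
    | succ k ih =>
      obtain ⟨X, hX⟩ := ih
      obtain ⟨B, hB⟩ := hG.pow k
      refine ⟨X + B, ?_⟩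
      rw [Finset.sum_range_succ, hX, hB, smul_add, Nat.cast_succ, add_smul, one_smul]
      abel
  obtain ⟨X, hX⟩ := hS
  have h1 : (∑ i ∈ Finset.range k, G ^ i) *ᵥ (G *ᵥ z - z) = 0 := by
    have h2 : G *ᵥ z - z = (G - 1) *ᵥ z := by rw [sub_mulVec, one_mulVec]
    rw [h2, mulVec_mulVec, geom_sum_mul, sub_mulVec, one_mulVec, h, sub_self]
  rw [hX] at h1
  have h3 : G *ᵥ z - z = 0 := by
    refine desc hk (X := X) ?_
    intro i
    have h4 := congrFun h1 i
    rw [add_mulVec, smul_mulVec, smul_mulVec, one_mulVec] at h4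
    exact h4
  exact sub_eq_zero.1 h3

theorem mink_three {G : Matrix ι ι ℤ} (hG : P3 G) {z : ι → ℤ} (h : G ^ 3 *ᵥ z = z) :
    G *ᵥ z = z := by
  obtain ⟨B, hB⟩ := hG
  have hS : ∑ i ∈ Finset.range 3, G ^ i = (3 : ℤ) • (1 + (3 : ℤ) • (B + B * B)) := by
    rw [Finset.sum_range_succ, Finset.sum_range_succ, Finset.sum_range_one, hB, pow_two]
    simp only [pow_zero, pow_one, add_mul, mul_add, one_mul, mul_one, smul_mul_smul_comm, smul_add,
      smul_smul]
    module
  have h1 : (∑ i ∈ Finset.range 3, G ^ i) *ᵥ (G *ᵥ z - z) = 0 := by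
    have h2 : G *ᵥ z - z = (G - 1) *ᵥ z := by rw [sub_mulVec, one_mulVec]
    rw [h2, mulVec_mulVec, geom_sum_mul, sub_mulVec, one_mulVec, h, sub_self]
  rw [hS] at h1
  have h3 : G *ᵥ z - z = 0 := by
    refine desc isCoprime_one_right (X := B + B * B) ?_
    intro i
    have h4 := congrFun h1 i
    rw [smul_mulVec, add_mulVec, one_mulVec, smul_mulVec] at h4
    have h5 : (3 : ℤ) * ((G *ᵥ z - z) i + 3 * ((B + B * B) *ᵥ (G *ᵥ z - z)) i) = 0 := h4
    have h6 := (mul_eq_zero.1 h5).resolve_left (by norm_num)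
    rw [one_mul]
    exact h6
  exact sub_eq_zero.1 h3

/-- **Minkowski's lemma** for a vector -/
theorem mink {G : Matrix ι ι ℤ} (hG : P3 G) {z : ι → ℤ} : ∀ k : ℕ, 0 < k → G ^ k *ᵥ z = z →
    G *ᵥ z = z := by
  intro k
  induction k using Nat.strong_induction_on with
  | _ k ih =>
  intro hk h
  by_cases h3 : 3 ∣ k
  · obtain ⟨m, rfl⟩ := h3
    rw [mul_comm, pow_mul] at h
    exact ih m (by omega) (by omega) (mink_three (hG.pow m) h)
  · refine mink_one hG (k := k) ?_ h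
    have h1 : Nat.Coprime 3 k := (Nat.Prime.coprime_iff_not_dvd Nat.prime_three).2 h3
    exact_mod_cast Nat.isCoprime_iff_coprime.2 h1

/-- the dual form -/
theorem mink' {G : Matrix ι ι ℤ} (hG : P3 G) {ψ : ι → ℤ} {k : ℕ} (hk : 0 < k)
    (h : ψ ᵥ* G ^ k = ψ) : ψ ᵥ* G = ψ := by
  have h1 : P3 Gᵀ := by
    obtain ⟨B, hB⟩ := hG
    exact ⟨Bᵀ, by rw [hB, transpose_add, transpose_one, transpose_smul]⟩
  have h2 : Gᵀ ^ k *ᵥ ψ = ψ := by
    rw [← transpose_pow, mulVec_transpose, h]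
  have h3 := mink h1 k hk h2
  rwa [mulVec_transpose] at h3

theorem mt_pow (g : SpecialLinearGroup ι ℤ) (k : ℕ) : mt (g ^ k) = mt g ^ k := by
  induction k with
  | zero => rw [pow_zero, pow_zero, mt_one]
  | succ k ih => rw [pow_succ, pow_succ, mt_mul, ih]

theorem mt_zpow {u : SpecialLinearGroup ι ℤ} {v φ : ι → ℤ} (h0 : φ ⬝ᵥ v = 0)
    (hu : mt u = 1 + vecMulVec v φ) (m : ℤ) : mt (u ^ m) = 1 + m • vecMulVec v φ := by
  have h1 := qm_zpow (cv_qm hu) (vv_sq (by rw [cv_dot, h0, Int.cast_zero])) m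
  ext i j
  have h2 := congrFun (congrFun h1 i) j
  have h3 : ((mt (u ^ m) i j : ℤ) : ℚ) = (1 : Matrix ι ι ℚ) i j + (m : ℚ) * ((v i : ℚ) * (φ j : ℚ)) := h2
  have h4 : (((1 : Matrix ι ι ℤ) i j : ℤ) : ℚ) = (1 : Matrix ι ι ℚ) i j := by
    rw [one_apply, one_apply]
    split_ifs <;> simp
  rw [← h4] at h3
  have h5 : mt (u ^ m) i j = (1 : Matrix ι ι ℤ) i j + m * (v i * φ j) := by exact_mod_cast h3
  rw [h5]
  rfl

/-- an element congruent to one modulo three, a power of which is a power of a transvection -/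
theorem cent_form {u g : SpecialLinearGroup ι ℤ} {v φ : ι → ℤ} (h0 : φ ⬝ᵥ v = 0)
    (hu : mt u = 1 + vecMulVec v φ) (hg : P3 (mt g)) {k : ℕ} (hk : 0 < k) {m : ℤ}
    (h : g ^ k = u ^ m) (i₀ j₀ : ι) (i j : ι) :
    (v i₀ * φ j₀) * (mt g - 1) i j = (mt g - 1) i₀ j₀ * (v i * φ j) := by
  have hm := mt_zpow h0 hu m
  rw [← h, mt_pow] at hm
  -- the kernel of `φ`
  have h1 : ∀ z, φ ⬝ᵥ z = 0 → mt g *ᵥ z = z := by
    intro z hz
    refine mink hg k hk ?_
    rw [hm, add_mulVec, one_mulVec, smul_mulVec, vecMulVec_mulVec, hz]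
    simp
  have h2 : ∀ ψ, ψ ⬝ᵥ v = 0 → ψ ᵥ* mt g = ψ := by
    intro ψ hψ
    refine mink' hg hk ?_
    rw [hm, vecMul_add, vecMul_one, vecMul_smul, vecMul_vecMulVec, hψ]
    simp
  have e1 : ∀ i j, φ j₀ * (mt g - 1) i j = φ j * (mt g - 1) i j₀ := by
    intro i j
    have h3 : φ ⬝ᵥ (φ j₀ • (Pi.single j 1 : ι → ℤ) - φ j • (Pi.single j₀ 1 : ι → ℤ)) = 0 := by
      rw [dotProduct_sub, dotProduct_smul, dotProduct_smul, dotProduct_single, dotProduct_single]
      simp only [smul_eq_mul]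
      ring
    have h4 := congrFun (h1 _ h3) i
    rw [mulVec_sub, mulVec_smul, mulVec_smul, mulVec_single_one, mulVec_single_one] at h4
    simp only [Pi.sub_apply, Pi.smul_apply, smul_eq_mul, col_apply, Matrix.transpose_apply] at h4
    rw [Matrix.sub_apply, Matrix.sub_apply, Matrix.one_apply, Matrix.one_apply]
    simp only [Pi.single_apply] at h4
    linear_combination h4
  have e2 : ∀ i j, v i₀ * (mt g - 1) i j = v i * (mt g - 1) i₀ j := by
    intro i j
    have h3 : (v i₀ • (Pi.single i 1 : ι → ℤ) - v i • (Pi.single i₀ 1 : ι → ℤ)) ⬝ᵥ v = 0 := by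
      rw [sub_dotProduct, smul_dotProduct, smul_dotProduct, single_dotProduct, single_dotProduct]
      simp only [smul_eq_mul]
      ring
    have h4 := congrFun (h2 _ h3) j
    rw [sub_vecMul, smul_vecMul, smul_vecMul, single_one_vecMul, single_one_vecMul] at h4
    simp only [Pi.sub_apply, Pi.smul_apply, smul_eq_mul, row_apply] at h4
    rw [Matrix.sub_apply, Matrix.sub_apply, Matrix.one_apply, Matrix.one_apply]
    simp only [Pi.single_apply, eq_comm] at h4 ⊢
    linear_combination h4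
  have e3 := e1 i j
  have e4 := e2 i j₀
  linear_combination (v i₀) * e3 + (φ j) * e4

end Pool.Agent.L5helper65.SL
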