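import Pool.Agent.L5helper65.SL.Comm

/-!
# Transvections with a centralizer which is not virtually cyclic
-/

set_option autoImplicit false
set_option maxHeartbeats 400000
set_option linter.unusedSectionVars false
set_option linter.unusedSimpArgs false

namespace Pool.Agent.L5helper65.SL

open Matrix
open Pool.Agent.Helper460_CSP

variable {ι : Type} [DecidableEq ι] [Fintype ι] {H : Subgroup (SpecialLinearGroup ι ℤ)}

theorem not_indep {a b : ι → ℚ} (ha : a ≠ 0)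
    (h : ¬ ∀ s t : ℚ, s • a + t • b = 0 → s = 0 ∧ t = 0) : ∃ c : ℚ, b = c • a := by
  push Not at h
  obtain ⟨s, t, h1, h2⟩ := h
  have ht : t ≠ 0 := by
    rintro rfl
    rw [zero_smul, add_zero] at h1
    rcases smul_eq_zero.1 h1 with h3 | h3
    · exact h2 h3 rfl
    · exact ha h3
  refine ⟨-(t⁻¹ * s), ?_⟩
  have h3 := congrArg (t⁻¹ • ·) h1
  simp only [smul_add, smul_smul, inv_mul_cancel₀ ht, one_smul, smul_zero] at h3
  rw [neg_smul]
  exact eq_neg_of_add_eq_zero_right h3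

theorem qm_sub_sq {g : SpecialLinearGroup ι ℤ} (h : (mt g - 1) * (mt g - 1) = 0) :
    (qm g - 1) * (qm g - 1) = 0 := by
  have h1 := congrArg (fun M => (Int.castRingHom ℚ).mapMatrix M) h
  simp only [map_mul, map_sub, map_one, map_zero] at h1
  exact h1

/-- a commuting element `g` with `(g - 1)² = 0` -/
theorem full_sq (hH : ZDense H) {x g : SpecialLinearGroup ι ℤ} (hxH : x ∈ H) (hgH : g ∈ H)
    {v φ : ι → ℤ} (hv : v ≠ 0) (hφ : φ ≠ 0) (h0 : φ ⬝ᵥ v = 0) (hx : mt x = 1 + vecMulVec v φ)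
    (hxg : x * g = g * x) (hsq : (mt g - 1) * (mt g - 1) = 0)
    (hind : ∀ k m : ℤ, g ^ k = x ^ m → k = 0) : ∃ p ≠ 0, Full H p := by
  have hφv : cv φ ⬝ᵥ cv v = 0 := by rw [cv_dot, h0, Int.cast_zero]
  have hvQ := cv_ne hv
  have hφQ := cv_ne hφ
  obtain ⟨A, hAdef⟩ : ∃ A, A = qm g - 1 := ⟨_, rfl⟩
  have hg : qm g = 1 + A := by
    rw [hAdef]
    abel
  have hA : A * A = 0 := by
    rw [hAdef]
    exact qm_sub_sq hsq
  have h1 : vecMulVec (cv v) (cv φ) * qm g = qm g * vecMulVec (cv v) (cv φ) := by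
    have h2 := congrArg qm hxg
    rw [qm_mul, qm_mul, cv_qm hx, add_mul, mul_add, one_mul, mul_one] at h2
    exact add_left_cancel h2
  obtain ⟨c, h2, h3⟩ := cent_eig hvQ hφQ h1
  have hc : c = 1 := by
    have e1 : A *ᵥ cv v = (c - 1) • cv v := by
      rw [hAdef, sub_mulVec, one_mulVec, h2, sub_smul, one_smul]
    have e2 : (A * A) *ᵥ cv v = ((c - 1) * (c - 1)) • cv v := by
      rw [← mulVec_mulVec, e1, mulVec_smul, e1, smul_smul]
    rw [hA, zero_mulVec] at e2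
    have e3 := (smul_eq_zero.1 e2.symm).resolve_right hvQ
    linarith [mul_self_eq_zero.1 e3]
  have hAv : A *ᵥ cv v = 0 := by
    rw [hAdef, sub_mulVec, one_mulVec, h2, hc, one_smul, sub_self]
  have hφA : cv φ ᵥ* A = 0 := by
    rw [hAdef, vecMul_sub, vecMul_one, h3, hc, one_smul, sub_self]
  have Tx := cv_T hxH h0 hx
  by_cases hcase : ∃ χ : ι → ℚ, A = vecMulVec (cv v) χ
  · obtain ⟨χ, hχ⟩ := hcase
    have hχv : χ ⬝ᵥ cv v = 0 := by
      rw [hχ, vv_mulVec] at hAv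
      exact (smul_eq_zero.1 hAv).resolve_right hvQ
    have Tg : T H (cv v) χ :=
      ⟨hχv, 1, one_ne_zero, g, hgH, by rw [hg, hχ, Int.cast_one, one_smul]⟩
    by_cases hli : ∀ a b : ℚ, a • cv φ + b • χ = 0 → a = 0 ∧ b = 0
    · exact ⟨cv v, hvQ, full_of_two hH hvQ Tx Tg hli⟩
    · obtain ⟨r, hr⟩ := not_indep hφQ hli
      exfalso
      have h5 : g ^ (r.den : ℤ) = x ^ r.num := by
        apply qm_inj
        rw [qm_zpow hg hA, qm_zpow (cv_qm hx) (vv_sq hφv), hχ, hr, vecMulVec_smul, smul_smul]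
        congr 2
        rw [mul_comm, Int.cast_natCast]
        exact Rat.mul_den_eq_num r
      exact Int.natCast_ne_zero.2 r.den_nz (hind _ _ h5)
  · -- a vector `a` with `A a` not in `ℚ v`
    have ha : ∃ a, A *ᵥ a ∉ Submodule.span ℚ {cv v} ∧ cv φ ⬝ᵥ a ≠ 0 := by
      obtain ⟨a₀, ha₀⟩ : ∃ a₀, A *ᵥ a₀ ∉ Submodule.span ℚ {cv v} := by
        by_contra hcon
        push Not at hcon
        apply hcase
        choose! χ hχ using fun j => Submodule.mem_span_singleton.1 (hcon (Pi.single j 1))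
        refine ⟨χ, ?_⟩
        ext i j
        have := congrFun (hχ j) i
        rw [mulVec_single_one] at this
        rw [vecMulVec_apply, mul_comm]
        exact this.symm
      obtain ⟨j, hj⟩ : ∃ j, cv φ j ≠ 0 := Function.ne_iff.1 hφQ
      have hb : cv φ ⬝ᵥ (Pi.single j 1 : ι → ℚ) ≠ 0 := by
        rw [dotProduct_single, mul_one]
        exact hj
      by_cases e1 : cv φ ⬝ᵥ a₀ = 0
      · by_cases e2 : A *ᵥ (Pi.single j 1 : ι → ℚ) ∈ Submodule.span ℚ {cv v}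
        · refine ⟨a₀ + Pi.single j 1, ?_, ?_⟩
          · intro hm
            rw [mulVec_add] at hm
            exact ha₀ ((Submodule.add_mem_iff_left _ e2).1 hm)
          · rw [dotProduct_add, e1, zero_add]
            exact hb
        · exact ⟨_, e2, hb⟩
      · exact ⟨a₀, ha₀, e1⟩
    obtain ⟨a, ha1, hφa⟩ := ha
    obtain ⟨ξ, hξa, hξv⟩ : ∃ ξ : ι → ℚ, ξ ⬝ᵥ a = 0 ∧ ξ ⬝ᵥ cv v ≠ 0 := by
      have hn : cv v ∉ Submodule.span ℚ {a} := by
        intro hm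
        obtain ⟨r, hr⟩ := Submodule.mem_span_singleton.1 hm
        have hr0 : r ≠ 0 := by
          rintro rfl
          exact hvQ (by rw [← hr, zero_smul])
        apply ha1
        have : A *ᵥ a = 0 := by
          rw [← hr, mulVec_smul] at hAv
          exact (smul_eq_zero.1 hAv).resolve_left hr0
        rw [this]
        exact Submodule.zero_mem _
      obtain ⟨ξ, e1, e2⟩ := sep _ hn
      exact ⟨ξ, by rw [dotProduct_comm]; exact e1 _ (Submodule.mem_span_singleton_self _),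
        by rw [dotProduct_comm]; exact e2⟩
    obtain ⟨θ, hθv, hθA⟩ : ∃ θ : ι → ℚ, θ ⬝ᵥ cv v = 0 ∧ θ ⬝ᵥ (A *ᵥ a) ≠ 0 := by
      obtain ⟨ξ, e1, e2⟩ := sep _ ha1
      exact ⟨ξ, by rw [dotProduct_comm]; exact e1 _ (Submodule.mem_span_singleton_self _),
        by rw [dotProduct_comm]; exact e2⟩
    obtain ⟨F, hF⟩ : ∃ F : SpecialLinearGroup ι ℤ → ℚ, F = fun h => (cv φ ⬝ᵥ (qm h *ᵥ cv v)) *
        ((cv φ ⬝ᵥ (qm h⁻¹ *ᵥ cv v)) * (θ ⬝ᵥ (qm h⁻¹ *ᵥ (A *ᵥ (qm h *ᵥ cv v)))) -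
          (cv φ ⬝ᵥ (qm h⁻¹ *ᵥ (A *ᵥ (qm h *ᵥ cv v)))) * (θ ⬝ᵥ (qm h⁻¹ *ᵥ cv v))) := ⟨_, rfl⟩
    have hFR : F ∈ Reg ι := by
      rw [hF]
      exact reg_mul (reg_dv _ _) (reg_sub (reg_mul (reg_div _ _) (reg_mid _ _ _))
        (reg_mul (reg_mid _ _ _) (reg_div _ _)))
    obtain ⟨-, s, hs, g₀, -, hg₀⟩ := T_top hξa
    have hsQ : (s : ℚ) ≠ 0 := by exact_mod_cast hs
    have hFg : F g₀ ≠ 0 := by
      have e1 : qm g₀ *ᵥ cv v = cv v + ((s : ℚ) * (ξ ⬝ᵥ cv v)) • a := act hg₀ _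
      have e2 : qm g₀⁻¹ *ᵥ cv v = cv v - ((s : ℚ) * (ξ ⬝ᵥ cv v)) • a := act_inv hξa hg₀ _
      have e3 : A *ᵥ (qm g₀ *ᵥ cv v) = ((s : ℚ) * (ξ ⬝ᵥ cv v)) • (A *ᵥ a) := by
        rw [e1, mulVec_add, hAv, zero_add, mulVec_smul]
      have e4 : qm g₀⁻¹ *ᵥ (A *ᵥ (qm g₀ *ᵥ cv v)) = ((s : ℚ) * (ξ ⬝ᵥ cv v)) •
          (A *ᵥ a - ((s : ℚ) * (ξ ⬝ᵥ (A *ᵥ a))) • a) := by
        rw [e3, mulVec_smul, act_inv hξa hg₀]
      have e5 : cv φ ⬝ᵥ (A *ᵥ a) = 0 := by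
        rw [dotProduct_mulVec, hφA, zero_dotProduct]
      rw [hF]
      beta_reduce
      rw [e4, e1, e2]
      simp only [dotProduct_add, dotProduct_sub, dotProduct_smul, hφv, hθv, e5, smul_eq_mul,
        zero_add, zero_sub]
      have p1 : (s : ℚ) * (ξ ⬝ᵥ cv v) ≠ 0 := mul_ne_zero hsQ hξv
      obtain ⟨X, hX⟩ : ∃ X, X = (s : ℚ) * (ξ ⬝ᵥ cv v) := ⟨_, rfl⟩
      rw [← hX] at p1 ⊢
      have : X ^ 3 * (cv φ ⬝ᵥ a) ^ 2 * (θ ⬝ᵥ (A *ᵥ a)) ≠ 0 :=
        mul_ne_zero (mul_ne_zero (pow_ne_zero _ p1) (pow_ne_zero _ hφa)) hθA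
      intro h00
      apply this
      linear_combination -h00
    obtain ⟨h, hh, hne⟩ : ∃ z ∈ H, F z ≠ 0 := by
      by_contra hcon
      push Not at hcon
      exact hFg (hH F hFR hcon _)
    obtain ⟨q, hq, d1, d2, d3, -⟩ := comm_conj hx hg h0 hA hAv hφA hxH hgH hh
    have d3' := d3 θ hθv
    rw [hF] at hne
    beta_reduce at hne
    rw [← d3'] at hne
    -- the second transvection
    obtain ⟨v₁, hv₁⟩ : ∃ v₁, v₁ = mt q *ᵥ v := ⟨_, rfl⟩
    obtain ⟨φ₁, hφ₁⟩ : ∃ φ₁, φ₁ = φ ᵥ* mt q⁻¹ := ⟨_, rfl⟩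
    have cv₁ : cv v₁ = qm q *ᵥ cv v := by rw [hv₁, cv_mulVec]
    have cφ₁ : cv φ₁ = cv φ ᵥ* qm q⁻¹ := by rw [hφ₁, cv_vecMul]
    have i1 : φ ⬝ᵥ v₁ = 0 := by
      have : cv φ ⬝ᵥ cv v₁ = 0 := by rw [cv₁, d1]
      rw [cv_dot] at this
      exact_mod_cast this
    have i2 : φ₁ ⬝ᵥ v = 0 := by
      have : cv φ₁ ⬝ᵥ cv v = 0 := by rw [cφ₁, ← dotProduct_mulVec, d2]
      rw [cv_dot] at this
      exact_mod_cast this
    have i3 : φ₁ ⬝ᵥ v₁ = 0 := by
      have : cv φ₁ ⬝ᵥ cv v₁ = 0 := by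
        rw [cφ₁, cv₁, ← dotProduct_mulVec, mulVec_mulVec, qm_inv_mul, one_mulVec, hφv]
      rw [cv_dot] at this
      exact_mod_cast this
    have hyH : q * x * q⁻¹ ∈ H := H.mul_mem (H.mul_mem hq hxH) (H.inv_mem hq)
    have ey : mt (q * x * q⁻¹) = 1 + vecMulVec v₁ φ₁ := by
      have hqq : mt q * mt q⁻¹ = 1 := by rw [← mt_mul, mul_inv_cancel, mt_one]
      rw [mt_mul, mt_mul, hx, mul_add, add_mul, mul_one, hqq, mul_vecMulVec, vecMulVec_mul, hv₁, hφ₁]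
    have hvv : ∀ α β : ℚ, α • cv v + β • cv v₁ = 0 → α = 0 ∧ β = 0 := by
      intro α β h00
      have h6 := congrArg (θ ⬝ᵥ ·) h00
      simp only [dotProduct_add, dotProduct_smul, hθv, smul_eq_mul, mul_zero, zero_add,
        dotProduct_zero] at h6
      rw [cv₁] at h6
      have hβ : β = 0 := (mul_eq_zero.1 h6).resolve_right hne
      rw [hβ, zero_smul, add_zero] at h00
      exact ⟨(smul_eq_zero.1 h00).resolve_right hvQ, hβ⟩
    by_cases hli : ∀ a b : ℚ, a • cv φ + b • cv φ₁ = 0 → a = 0 ∧ b = 0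
    · exact full_orth hH hxH hyH hx ey h0 i3 i1 i2 hvv hli
    · obtain ⟨r, hr⟩ := not_indep hφQ hli
      have hr0 : r ≠ 0 := by
        rintro rfl
        rw [zero_smul, cφ₁] at hr
        have h7 := congrArg (· ᵥ* qm q) hr
        simp only [vecMul_vecMul, qm_inv_mul, vecMul_one, zero_vecMul] at h7
        exact hφQ h7
      have Ty := cv_T hyH i3 ey
      have h8 : T H (cv v₁) (cv φ) := by
        have := Ty.smul_right r⁻¹
        rwa [hr, smul_smul, inv_mul_cancel₀ hr0, one_smul] at this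
      exact full_dual hH hφQ Tx h8 hvv

/-- **a transvection whose centralizer in `H` is not virtually cyclic** -/
theorem full_noncyclic (hH : ZDense H) {x g : SpecialLinearGroup ι ℤ} (hxH : x ∈ H) (hgH : g ∈ H)
    {v φ : ι → ℤ} (hv : v ≠ 0) (hφ : φ ≠ 0) (h0 : φ ⬝ᵥ v = 0) (hx : mt x = 1 + vecMulVec v φ)
    (hxg : x * g = g * x) (hind : ∀ k m : ℤ, g ^ k = x ^ m → k = 0) : ∃ p ≠ 0, Full H p := by
  by_cases hsq : ∀ k : ℕ, 0 < k → (mt (g ^ k) - 1) * (mt (g ^ k) - 1) ≠ 0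
  · exact full_cent hH hxH hgH hv hφ h0 hx hxg hsq
  · push Not at hsq
    obtain ⟨k, hk, e⟩ := hsq
    refine full_sq hH hxH (H.pow_mem hgH k) hv hφ h0 hx ?_ e ?_
    · exact ((show Commute x g from hxg).pow_right k)
    · intro m l h
      rw [← _root_.zpow_natCast, ← _root_.zpow_mul] at h
      rcases mul_eq_zero.1 (hind _ _ h) with h1 | h1
      · omega
      · exact h1

end Pool.Agent.L5helper65.SL
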