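import Pool.Agent.L5helper65.SL.Base

/-!
# Regular functions and dense subgroups
-/

set_option autoImplicit false
set_option maxHeartbeats 400000
set_option linter.unusedSectionVars false
set_option linter.unusedSimpArgs false

namespace Pool.Agent.L5helper65.SL

open Matrix
open Pool.Agent.Helper460_CSP

variable {ι : Type} [DecidableEq ι] [Fintype ι]

variable (ι) in
/-- the regular functions -/
def Reg : Subalgebra ℚ (SpecialLinearGroup ι ℤ → ℚ) :=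
  Algebra.adjoin ℚ {f | ∃ i j, f = fun g => ((mt g i j : ℤ) : ℚ)}

/-- Zariski density -/
def ZDense (H : Subgroup (SpecialLinearGroup ι ℤ)) : Prop :=
  ∀ f ∈ Reg ι, (∀ h ∈ H, f h = 0) → ∀ g, f g = 0

theorem reg_qm (i j : ι) : (fun g => qm g i j) ∈ Reg ι :=
  Algebra.subset_adjoin ⟨i, j, rfl⟩

theorem reg_const (c : ℚ) : (fun _ => c) ∈ Reg ι := (Reg ι).algebraMap_mem c

theorem reg_add {f g : SpecialLinearGroup ι ℤ → ℚ} (hf : f ∈ Reg ι) (hg : g ∈ Reg ι) :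
    (fun x => f x + g x) ∈ Reg ι := (Reg ι).add_mem hf hg

theorem reg_sub {f g : SpecialLinearGroup ι ℤ → ℚ} (hf : f ∈ Reg ι) (hg : g ∈ Reg ι) :
    (fun x => f x - g x) ∈ Reg ι := (Reg ι).sub_mem hf hg

theorem reg_mul {f g : SpecialLinearGroup ι ℤ → ℚ} (hf : f ∈ Reg ι) (hg : g ∈ Reg ι) :
    (fun x => f x * g x) ∈ Reg ι := (Reg ι).mul_mem hf hg

theorem reg_sum {κ : Type} (s : Finset κ) {f : κ → SpecialLinearGroup ι ℤ → ℚ}
    (hf : ∀ k, f k ∈ Reg ι) : (fun x => ∑ k ∈ s, f k x) ∈ Reg ι := by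
  have : (fun x => ∑ k ∈ s, f k x) = ∑ k ∈ s, f k := by
    funext x
    rw [Finset.sum_apply]
  rw [this]
  exact (Reg ι).sum_mem fun k _ => hf k

theorem reg_prod {κ : Type} (s : Finset κ) {f : κ → SpecialLinearGroup ι ℤ → ℚ}
    (hf : ∀ k, f k ∈ Reg ι) : (fun x => ∏ k ∈ s, f k x) ∈ Reg ι := by
  have : (fun x => ∏ k ∈ s, f k x) = ∏ k ∈ s, f k := by
    funext x
    rw [Finset.prod_apply]
  rw [this]
  exact (Reg ι).prod_mem fun k _ => hf k

theorem reg_det {M : SpecialLinearGroup ι ℤ → Matrix ι ι ℚ} (hM : ∀ i j, (fun g => M g i j) ∈ Reg ι) :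
    (fun g => (M g).det) ∈ Reg ι := by
  have : (fun g => (M g).det) =
      fun g => ∑ σ : Equiv.Perm ι, ((Equiv.Perm.sign σ : ℤ) : ℚ) * ∏ i, M g (σ i) i := by
    funext g
    rw [det_apply']
  rw [this]
  refine reg_sum _ fun σ => reg_mul (reg_const _) (reg_prod _ fun i => hM _ _)

theorem qm_inv (g : SpecialLinearGroup ι ℤ) : qm g⁻¹ = adjugate (qm g) := by
  apply qm_inv_of
  rw [adjugate_mul]
  have : (qm g).det = 1 := by
    have h1 : (qm g).det = ((Int.castRingHom ℚ) (mt g).det) := by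
      rw [RingHom.map_det]
      rfl
    rw [h1]
    have h2 : (mt g).det = 1 := g.2
    rw [h2, map_one]
  rw [this, one_smul]

theorem reg_inv (i j : ι) : (fun g => qm g⁻¹ i j) ∈ Reg ι := by
  have : (fun g : SpecialLinearGroup ι ℤ => qm g⁻¹ i j) =
      fun g => (updateRow (qm g) j (Pi.single i 1)).det := by
    funext g
    rw [qm_inv, adjugate_apply]
  rw [this]
  apply reg_det
  intro a b
  by_cases h : a = j
  · subst h
    have : (fun g : SpecialLinearGroup ι ℤ => updateRow (qm g) a (Pi.single i 1) a b) =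
        fun _ => (Pi.single i (1 : ℚ) : ι → ℚ) b := by
      funext g
      rw [updateRow_self]
    rw [this]
    exact reg_const _
  · have : (fun g : SpecialLinearGroup ι ℤ => updateRow (qm g) j (Pi.single i 1) a b) =
        fun g => qm g a b := by
      funext g
      rw [updateRow_ne h]
    rw [this]
    exact reg_qm _ _

/-- matrix-valued and vector-valued regular functions -/
theorem reg_mulVec {M : SpecialLinearGroup ι ℤ → Matrix ι ι ℚ} {v : SpecialLinearGroup ι ℤ → ι → ℚ}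
    (hM : ∀ i j, (fun g => M g i j) ∈ Reg ι) (hv : ∀ i, (fun g => v g i) ∈ Reg ι) (i : ι) :
    (fun g => (M g *ᵥ v g) i) ∈ Reg ι := by
  show (fun g => ∑ j, M g i j * v g j) ∈ Reg ι
  exact reg_sum _ fun j => reg_mul (hM i j) (hv j)

theorem reg_dot (φ : ι → ℚ) {v : SpecialLinearGroup ι ℤ → ι → ℚ}
    (hv : ∀ i, (fun g => v g i) ∈ Reg ι) : (fun g => φ ⬝ᵥ v g) ∈ Reg ι := by
  show (fun g => ∑ j, φ j * v g j) ∈ Reg ι
  exact reg_sum _ fun j => reg_mul (reg_const _) (hv j)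

theorem reg_qv (v : ι → ℚ) (i : ι) : (fun g => (qm g *ᵥ v) i) ∈ Reg ι :=
  reg_mulVec (M := fun g => qm g) (v := fun _ => v) (fun i j => reg_qm i j) (fun i => reg_const (v i)) i

theorem reg_iv {v : SpecialLinearGroup ι ℤ → ι → ℚ} (hv : ∀ i, (fun g => v g i) ∈ Reg ι) (i : ι) :
    (fun g => (qm g⁻¹ *ᵥ v g) i) ∈ Reg ι :=
  reg_mulVec (M := fun g => qm g⁻¹) (v := v) (fun i j => reg_inv i j) hv i

theorem reg_dv (φ v : ι → ℚ) : (fun g => φ ⬝ᵥ (qm g *ᵥ v)) ∈ Reg ι :=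
  reg_dot φ (v := fun g => qm g *ᵥ v) (reg_qv v)

theorem reg_div (φ v : ι → ℚ) : (fun g => φ ⬝ᵥ (qm g⁻¹ *ᵥ v)) ∈ Reg ι :=
  reg_dot φ (v := fun g => qm g⁻¹ *ᵥ v) (reg_iv (v := fun _ => v) fun i => reg_const (v i))

theorem reg_mid (φ v : ι → ℚ) (M : Matrix ι ι ℚ) :
    (fun g => φ ⬝ᵥ (qm g⁻¹ *ᵥ (M *ᵥ (qm g *ᵥ v)))) ∈ Reg ι :=
  reg_dot φ (v := fun g => qm g⁻¹ *ᵥ (M *ᵥ (qm g *ᵥ v)))
    (reg_iv (v := fun g => M *ᵥ (qm g *ᵥ v))
      (reg_mulVec (M := fun _ => M) (v := fun g => qm g *ᵥ v) (fun i j => reg_const (M i j)) (reg_qv v)))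

/-- congruence -/
def Cong (M : ℤ) (g h : SpecialLinearGroup ι ℤ) : Prop := ∀ i j, M ∣ mt h i j - mt g i j

/-- density in the congruence topology -/
def PDense (H : Subgroup (SpecialLinearGroup ι ℤ)) : Prop :=
  ∀ M : ℤ, M ≠ 0 → ∀ g, ∃ h ∈ H, Cong M g h

theorem reg_cong {f : SpecialLinearGroup ι ℤ → ℚ} (hf : f ∈ Reg ι) :
    ∃ D : ℤ, D ≠ 0 ∧ ∃ F : SpecialLinearGroup ι ℤ → ℤ, (∀ g, (D : ℚ) * f g = F g) ∧
      ∀ M g h, Cong M g h → M ∣ F h - F g := by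
  unfold Reg at hf
  induction hf using Algebra.adjoin_induction with
  | mem f hf =>
    obtain ⟨i, j, rfl⟩ := hf
    exact ⟨1, one_ne_zero, fun g => mt g i j, fun g => by simp, fun M g h H => H i j⟩
  | algebraMap r =>
    refine ⟨r.den, Int.natCast_ne_zero.2 r.den_nz, fun _ => r.num, fun g => ?_, fun M g h _ => by simp⟩
    show ((r.den : ℤ) : ℚ) * r = r.num
    have := Rat.mul_den_eq_num r
    push_cast
    rw [mul_comm]
    exact this
  | add f₁ f₂ _ _ ih₁ ih₂ =>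
    obtain ⟨D₁, h1, F₁, e1, c1⟩ := ih₁
    obtain ⟨D₂, h2, F₂, e2, c2⟩ := ih₂
    refine ⟨D₁ * D₂, mul_ne_zero h1 h2, fun g => D₂ * F₁ g + D₁ * F₂ g, fun g => ?_, fun M g h H => ?_⟩
    · push_cast
      rw [← e1, ← e2, Pi.add_apply]
      ring
    · have : D₂ * F₁ h + D₁ * F₂ h - (D₂ * F₁ g + D₁ * F₂ g) =
        D₂ * (F₁ h - F₁ g) + D₁ * (F₂ h - F₂ g) := by ring
      rw [this]
      exact dvd_add ((c1 M g h H).mul_left _) ((c2 M g h H).mul_left _)
  | mul f₁ f₂ _ _ ih₁ ih₂ =>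
    obtain ⟨D₁, h1, F₁, e1, c1⟩ := ih₁
    obtain ⟨D₂, h2, F₂, e2, c2⟩ := ih₂
    refine ⟨D₁ * D₂, mul_ne_zero h1 h2, fun g => F₁ g * F₂ g, fun g => ?_, fun M g h H => ?_⟩
    · push_cast
      rw [← e1, ← e2, Pi.mul_apply]
      ring
    · have : F₁ h * F₂ h - F₁ g * F₂ g = (F₁ h - F₁ g) * F₂ h + F₁ g * (F₂ h - F₂ g) := by ring
      rw [this]
      exact dvd_add ((c1 M g h H).mul_right _) ((c2 M g h H).mul_left _)

theorem PDense.zdense {H : Subgroup (SpecialLinearGroup ι ℤ)} (hH : PDense H) : ZDense H := by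
  intro f hf h0 g
  by_contra hg
  obtain ⟨D, hD, F, e, c⟩ := reg_cong hf
  have h1 : F g ≠ 0 := by
    intro h2
    have := e g
    rw [h2, Int.cast_zero] at this
    rcases mul_eq_zero.1 this with h3 | h3
    · exact hD (by exact_mod_cast h3)
    · exact hg h3
  obtain ⟨h, hh, hc⟩ := hH (2 * F g) (mul_ne_zero two_ne_zero h1) g
  have h2 : F h = 0 := by
    have := e h
    rw [h0 h hh, mul_zero] at this
    exact_mod_cast this.symm
  have h3 := c _ g h hc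
  rw [h2, zero_sub, dvd_neg] at h3
  obtain ⟨t, ht⟩ := h3
  have h4 : F g * (2 * t - 1) = 0 := by linear_combination (-1 : ℤ) * ht
  rcases mul_eq_zero.1 h4 with h5 | h5
  · exact h1 h5
  · omega

/-- density in the profinite topology implies density in the congruence topology -/
theorem pdense_of {H : Subgroup (SpecialLinearGroup ι ℤ)}
    (hH : ∀ (Q : Type) [Group Q] [Finite Q] (f : SpecialLinearGroup ι ℤ →* Q),
      Function.Surjective f → ∀ q, ∃ h ∈ H, f h = q) : PDense H := by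
  intro M hM g
  have : NeZero M.natAbs := ⟨Int.natAbs_ne_zero.2 hM⟩
  let f : SpecialLinearGroup ι ℤ →* SpecialLinearGroup ι (ZMod M.natAbs) :=
    SpecialLinearGroup.map (Int.castRingHom (ZMod M.natAbs))
  obtain ⟨h, hh, e⟩ := hH f.range f.rangeRestrict f.rangeRestrict_surjective (f.rangeRestrict g)
  refine ⟨h, hh, fun i j => ?_⟩
  have e1 : f h = f g := congrArg Subtype.val e
  have e2 : ((mt h i j : ℤ) : ZMod M.natAbs) = ((mt g i j : ℤ) : ZMod M.natAbs) :=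
    congrFun (congrFun (congrArg Subtype.val e1) i) j
  have e3 := (ZMod.intCast_eq_intCast_iff_dvd_sub _ _ _).1 e2.symm
  exact Int.natAbs_dvd.1 e3

/-! ### linear algebra -/

/-- separation -/
theorem sep (S : Submodule ℚ (ι → ℚ)) {φ : ι → ℚ} (h : φ ∉ S) :
    ∃ x : ι → ℚ, (∀ χ ∈ S, χ ⬝ᵥ x = 0) ∧ φ ⬝ᵥ x ≠ 0 := by
  obtain ⟨f, h1, h2⟩ := Submodule.exists_le_ker_of_notMem h
  have key : ∀ χ, χ ⬝ᵥ ((dotProductEquiv ℚ ι).symm f) = f χ := by
    intro χ
    rw [dotProduct_comm]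
    conv_rhs => rw [← (dotProductEquiv ℚ ι).apply_symm_apply f]
    rfl
  refine ⟨(dotProductEquiv ℚ ι).symm f, fun χ hχ => ?_, ?_⟩
  · rw [key]
    exact h2 hχ
  · rw [key]
    exact h1

/-- integral multiples -/
theorem int_mul (v : ι → ℚ) : ∃ a : ℤ, a ≠ 0 ∧ ∃ w : ι → ℤ, ∀ i, (a : ℚ) * v i = w i := by
  refine ⟨∏ i, ((v i).den : ℤ), Finset.prod_ne_zero_iff.2 fun i _ => Int.natCast_ne_zero.2 (v i).den_nz,
    fun i => (v i).num * ∏ j ∈ Finset.univ.erase i, ((v j).den : ℤ), fun i => ?_⟩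
  rw [← Finset.mul_prod_erase Finset.univ _ (Finset.mem_univ i)]
  push_cast
  have := Rat.mul_den_eq_num (v i)
  calc ((v i).den : ℚ) * (∏ j ∈ Finset.univ.erase i, ((v j).den : ℚ)) * v i
      = (v i * (v i).den) * ∏ j ∈ Finset.univ.erase i, ((v j).den : ℚ) := by ring
    _ = _ := by rw [this]

/-- the full group contains all transvections -/
theorem T_top {v φ : ι → ℚ} (h : φ ⬝ᵥ v = 0) : T ⊤ v φ := by
  obtain ⟨a, ha, w, hw⟩ := int_mul v
  obtain ⟨b, hb, ψ, hψ⟩ := int_mul φ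
  have h1 : ψ ⬝ᵥ w = 0 := by
    have h2 : ((ψ ⬝ᵥ w : ℤ) : ℚ) = (b : ℚ) * a * (φ ⬝ᵥ v) := by
      unfold dotProduct
      push_cast
      rw [Finset.mul_sum]
      refine Finset.sum_congr rfl fun i _ => ?_
      rw [← hw, ← hψ]
      ring
    rw [h, mul_zero] at h2
    exact_mod_cast h2
  have hdet : (1 + vecMulVec w ψ).det = 1 := by
    rw [vecMulVec_eq Unit, det_one_add_replicateCol_mul_replicateRow, h1, add_zero]
  refine ⟨h, a * b, mul_ne_zero ha hb, ⟨1 + vecMulVec w ψ, hdet⟩, Subgroup.mem_top _, ?_⟩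
  ext i j
  show (((1 : Matrix ι ι ℤ) i j + w i * ψ j : ℤ) : ℚ) = (1 : Matrix ι ι ℚ) i j + ((a * b : ℤ) : ℚ) * (v i * φ j)
  push_cast
  rw [← hw, ← hψ]
  have : (((1 : Matrix ι ι ℤ) i j : ℤ) : ℚ) = (1 : Matrix ι ι ℚ) i j := by
    rw [one_apply, one_apply]
    split_ifs <;> simp
  rw [this]
  ring

end Pool.Agent.L5helper65.SL
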