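import Pool.Agent.L5helper65.SL.Idx

/-!
# The index of the powers of a unipotent element of `SL(3, ℤ)` in its centralizer
-/

set_option autoImplicit false
set_option maxHeartbeats 400000
set_option linter.unusedSectionVars false
set_option linter.unusedSimpArgs false

namespace Pool.Agent.L5helper65.SL

open Matrix
open Pool.Agent.Helper460_CSP

variable {C : Subgroup (SpecialLinearGroup (Fin 3) ℤ)}

/-- the elements congruent to one modulo three of the centralizer of a regular unipotent element -/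
theorem reg_form {u g : SpecialLinearGroup (Fin 3) ℤ} {N : Matrix (Fin 3) (Fin 3) ℚ}
    (hN : qm u = 1 + N) (hN3 : N * N * N = 0) (hN2 : N * N ≠ 0) (hug : u * g = g * u)
    (hg : P3 (mt g)) : ∃ b c : ℚ, qm g = 1 + b • N + c • (N * N) := by
  have hc : N * qm g = qm g * N := by
    have h1 := congrArg qm hug
    rw [qm_mul, qm_mul, hN, add_mul, mul_add, one_mul, mul_one] at h1
    exact add_left_cancel h1
  obtain ⟨a, b, c, hG⟩ := regular' hN3 hN2 hc
  refine ⟨b, c, ?_⟩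
  obtain ⟨e, he⟩ : ∃ e, (N * N) *ᵥ e ≠ 0 := by
    by_contra hcon
    push Not at hcon
    apply hN2
    ext i j
    have := congrFun (hcon (Pi.single j 1)) i
    rw [mulVec_single_one] at this
    exact this
  have h3 : N * (N * N) = 0 := by rw [← mul_assoc, hN3]
  have h4 : N * N * (N * N) = 0 := by rw [← mul_assoc, hN3, zero_mul]
  have hev : qm g *ᵥ ((N * N) *ᵥ e) = a • ((N * N) *ᵥ e) := by
    rw [hG, mulVec_mulVec, add_mul, add_mul, smul_mul_assoc, smul_mul_assoc, smul_mul_assoc,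
      one_mul, h3, h4, smul_zero, smul_zero, add_zero, add_zero, smul_mulVec]
  have ha := eig_sq' he hev
  obtain ⟨w₀, hw₀⟩ : ∃ w₀, w₀ = (N * N) *ᵥ e := ⟨_, rfl⟩
  rw [← hw₀] at he hev
  obtain ⟨k, hk, w, hw⟩ := int_mul w₀
  have hkQ : (k : ℚ) ≠ 0 := by exact_mod_cast hk
  have cw : cv w = (k : ℚ) • w₀ := by
    funext i
    exact (hw i).symm
  have h5 : qm g *ᵥ cv w = a • cv w := by
    rw [cw, mulVec_smul, hev, smul_comm]
  have h6 : qm (g * g) *ᵥ cv w = cv w := by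
    rw [qm_mul, ← mulVec_mulVec, h5, mulVec_smul, h5, smul_smul, ha, one_smul]
  rw [cv_mulVec] at h6
  have h7 : mt (g * g) *ᵥ w = w := by
    funext i
    have h8 := congrFun h6 i
    have h9 : (((mt (g * g) *ᵥ w) i : ℤ) : ℚ) = ((w i : ℤ) : ℚ) := h8
    exact_mod_cast h9
  have h8 : mt g *ᵥ w = w := by
    refine mink hg 2 (by norm_num) ?_
    rw [← mt_pow, pow_two]
    exact h7
  have h9 : a • cv w = cv w := by
    rw [← h5, cv_mulVec, h8]
  have h10 : cv w ≠ 0 := by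
    rw [cw]
    exact smul_ne_zero hkQ he
  have ha1 : a = 1 := by
    have h11 : (a - 1) • cv w = 0 := by rw [sub_smul, one_smul, h9, sub_self]
    have := (smul_eq_zero.1 h11).resolve_right h10
    linarith
  rw [hG, ha1, one_smul]

theorem sub_pow_form {u g : SpecialLinearGroup (Fin 3) ℤ} {N : Matrix (Fin 3) (Fin 3) ℚ}
    (hN : qm u = 1 + N) (hN3 : N * N * N = 0) (hN2 : N * N ≠ 0) (hug : u * g = g * u) {t : ℤ} {c : ℚ}
    (hG : qm g = 1 + (t : ℚ) • N + c • (N * N)) {k : ℕ} (hk : 0 < k) {m : ℤ} (h : g ^ k = u ^ m) :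
    g = u ^ t := by
  have h3 : N * (N * N) = 0 := by rw [← mul_assoc, hN3]
  have h4 : N * N * (N * N) = 0 := by rw [← mul_assoc, hN3, zero_mul]
  have hPu : Pn N 1 u := ⟨0, by rw [hN, one_smul, zero_smul, add_zero]⟩
  have hPg : Pn N t g := ⟨c, hG⟩
  obtain ⟨h', hh'⟩ : ∃ h', h' = g * u ^ (-t) := ⟨_, rfl⟩
  have hPh : Pn N 0 h' := by
    have h5 := hPg.mul hN3 (hPu.zpow hN3 (-t))
    rw [← hh'] at h5
    have h6 : (t : ℚ) + ((-t : ℤ) : ℚ) * 1 = 0 := by push_cast; ring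
    rw [h6] at h5
    exact h5
  obtain ⟨c', hc'⟩ := hPh
  rw [zero_smul, add_zero] at hc'
  have hcomm : Commute g (u ^ (-t)) := (show Commute g u from hug.symm).zpow_right _
  have h5 : h' ^ k = u ^ (m - t * k) := by
    rw [hh', hcomm.mul_pow, h, ← _root_.zpow_natCast, ← _root_.zpow_mul, ← _root_.zpow_add]
    congr 1
    ring
  have h6 : qm (h' ^ k) = 1 + (k : ℚ) • (c' • (N * N)) := by
    have h7 := qm_zpow hc' (by rw [smul_mul_smul_comm, h4, smul_zero]) (k : ℤ)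
    rw [_root_.zpow_natCast] at h7
    exact_mod_cast h7
  obtain ⟨d, hd⟩ := hPu.zpow hN3 (m - t * k)
  rw [← h5, h6, mul_one] at hd
  have h8 := congrArg (fun M => N * M) hd
  simp only [mul_add, mul_one, mul_smul_comm, h3, smul_zero, add_zero] at h8
  have h9 : ((m - t * k : ℤ) : ℚ) • (N * N) = 0 := by
    have h10 : N + ((m - t * k : ℤ) : ℚ) • (N * N) = N + 0 := by rw [← h8, add_zero]
    exact add_left_cancel h10
  have h10 := (smul_eq_zero.1 h9).resolve_right hN2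
  have h11 : m - t * k = 0 := by exact_mod_cast h10
  rw [h11, _root_.zpow_zero] at h5
  rw [h5, qm_one] at h6
  have h12 : (k : ℚ) • (c' • (N * N)) = 0 := by
    have h13 : (1 : Matrix (Fin 3) (Fin 3) ℚ) + (k : ℚ) • (c' • (N * N)) = 1 + 0 := by
      rw [← h6, add_zero]
    exact add_left_cancel h13
  have hkQ : (k : ℚ) ≠ 0 := by
    have := hk.ne'
    exact_mod_cast this
  have h13 := (smul_eq_zero.1 h12).resolve_left hkQ
  rw [h13, add_zero, ← qm_one] at hc'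
  have h14 := qm_inj hc'
  rw [h14] at hh'
  have h15 : g = (u ^ (-t))⁻¹ := eq_inv_of_mul_eq_one_left hh'.symm
  rw [h15, ← _root_.zpow_neg, neg_neg]

/-- the case of a regular unipotent element of `SL(3, ℤ)` -/
theorem relIndex_reg {u : SpecialLinearGroup (Fin 3) ℤ}
    (hN3 : (qm u - 1) * (qm u - 1) * (qm u - 1) = 0) (hN2 : (qm u - 1) * (qm u - 1) ≠ 0)
    (hcom : ∀ g ∈ C, u * g = g * u)
    (hC : ∀ g ∈ C, ∃ k : ℕ, 0 < k ∧ ∃ m : ℤ, g ^ k = u ^ m) :
    (Subgroup.zpowers u).relIndex C ≠ 0 := by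
  obtain ⟨N, hN⟩ : ∃ N, N = qm u - 1 := ⟨_, rfl⟩
  rw [← hN] at hN3 hN2
  have hqu : qm u = 1 + N := by
    rw [hN]
    abel
  -- integrality
  obtain ⟨Z, hZ⟩ : ∃ Z : Matrix (Fin 3) (Fin 3) ℤ, Z = mt u - 1 := ⟨_, rfl⟩
  have hNZ : ∀ i j, N i j = ((Z i j : ℤ) : ℚ) := by
    intro i j
    rw [hN, hZ, Matrix.sub_apply, Matrix.sub_apply, Int.cast_sub]
    have h3 : (((1 : Matrix (Fin 3) (Fin 3) ℤ) i j : ℤ) : ℚ) = (1 : Matrix (Fin 3) (Fin 3) ℚ) i j := by
      rw [one_apply, one_apply]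
      split_ifs <;> simp
    rw [h3]
    rfl
  obtain ⟨i₀, j₀, h0⟩ : ∃ i j, (N * N) i j ≠ 0 := by
    by_contra hcon
    push Not at hcon
    apply hN2
    ext i j
    exact hcon i j
  have hD : (((Z * Z) i₀ j₀ : ℤ) : ℚ) = (N * N) i₀ j₀ := by
    rw [mul_apply, mul_apply, Int.cast_sum]
    exact Finset.sum_congr rfl fun x _ => by rw [Int.cast_mul, hNZ, hNZ]
  have hD0 : (Z * Z) i₀ j₀ ≠ 0 := by
    intro h
    apply h0
    rw [← hD, h, Int.cast_zero]
  have hd : ∀ g ∈ C ⊓ G3 (Fin 3), ∃ b c : ℚ, qm g = 1 + b • N + c • (N * N) ∧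
      (((Z * (mt g - 1)) i₀ j₀ : ℤ) : ℚ) = b * (((Z * Z) i₀ j₀ : ℤ) : ℚ) := by
    intro g hg
    obtain ⟨b, c, hG⟩ := reg_form hqu hN3 hN2 (hcom g hg.1) (G3_P3 hg.2)
    refine ⟨b, c, hG, ?_⟩
    rw [hD]
    have h1 : (((Z * (mt g - 1)) i₀ j₀ : ℤ) : ℚ) = (N * (qm g - 1)) i₀ j₀ := by
      rw [mul_apply, mul_apply, Int.cast_sum]
      refine Finset.sum_congr rfl fun x _ => ?_
      rw [Int.cast_mul, hNZ, Matrix.sub_apply, Matrix.sub_apply, Int.cast_sub]
      have h3 : (((1 : Matrix (Fin 3) (Fin 3) ℤ) x j₀ : ℤ) : ℚ) =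
          (1 : Matrix (Fin 3) (Fin 3) ℚ) x j₀ := by
        rw [one_apply, one_apply]
        split_ifs <;> simp
      rw [h3]
      rfl
    have h2 : N * (qm g - 1) = b • (N * N) := by
      have h3 : N * (N * N) = 0 := by rw [← mul_assoc, hN3]
      rw [hG]
      simp only [mul_add, mul_sub, mul_one, mul_smul_comm, h3, smul_zero, add_zero]
      abel
    rw [h1, h2]
    rfl
  refine relIndex_of hD0 (fun g => (Z * (mt g - 1)) i₀ j₀) ?_ ?_
  · intro g hg h hh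
    beta_reduce
    obtain ⟨b, c, e1, e2⟩ := hd g hg
    obtain ⟨b', c', e1', e2'⟩ := hd h hh
    obtain ⟨b'', c'', e1'', e2''⟩ := hd (g * h) (Subgroup.mul_mem _ hg hh)
    have h1 : b'' = b + b' := by
      obtain ⟨c₃, hc₃⟩ := (show Pn N b g from ⟨c, e1⟩).mul hN3 (show Pn N b' h from ⟨c', e1'⟩)
      rw [e1''] at hc₃
      have h8 := congrArg (fun M => (N * (M - 1)) i₀ j₀) hc₃
      have h3 : N * (N * N) = 0 := by rw [← mul_assoc, hN3]
      have h9 : ∀ b c : ℚ, N * (1 + b • N + c • (N * N) - 1) = b • (N * N) := by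
        intro b c
        simp only [mul_add, mul_sub, mul_one, mul_smul_comm, h3, smul_zero, add_zero]
        abel
      simp only [h9] at h8
      have h10 : b'' * (N * N) i₀ j₀ = (b + b') * (N * N) i₀ j₀ := h8
      exact mul_right_cancel₀ h0 h10
    have h2 : (((Z * (mt (g * h) - 1)) i₀ j₀ : ℤ) : ℚ) =
        (((Z * (mt g - 1)) i₀ j₀ + (Z * (mt h - 1)) i₀ j₀ : ℤ) : ℚ) := by
      rw [e2'', Int.cast_add, e2, e2', h1]
      ring
    exact_mod_cast h2
  · rintro g hg ⟨t, ht⟩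
    beta_reduce at ht
    obtain ⟨b, c, e1, e2⟩ := hd g hg
    have hb : b = t := by
      rw [ht, Int.cast_mul] at e2
      have h1 : (((Z * Z) i₀ j₀ : ℤ) : ℚ) ≠ 0 := by exact_mod_cast hD0
      have h2 : (((Z * Z) i₀ j₀ : ℤ) : ℚ) * b = (((Z * Z) i₀ j₀ : ℤ) : ℚ) * t := by
        rw [e2]
        ring
      exact mul_left_cancel₀ h1 h2
    rw [hb] at e1
    obtain ⟨k, hk, m, hm⟩ := hC g hg.1
    exact Subgroup.mem_zpowers_iff.2 ⟨t, (sub_pow_form hqu hN3 hN2 (hcom g hg.1) e1 hk hm).symm⟩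

/-- the case of a unipotent element of `SL(3, ℤ)` -/
theorem relIndex_uni {u : SpecialLinearGroup (Fin 3) ℤ}
    (hN3 : (qm u - 1) * (qm u - 1) * (qm u - 1) = 0) (hu1 : u ≠ 1)
    (hcom : ∀ g ∈ C, u * g = g * u)
    (hC : ∀ g ∈ C, ∃ k : ℕ, 0 < k ∧ ∃ m : ℤ, g ^ k = u ^ m) :
    (Subgroup.zpowers u).relIndex C ≠ 0 := by
  by_cases h1 : (qm u - 1) * (qm u - 1) = 0
  · have hN0 : qm u - 1 ≠ 0 := by
      intro h
      apply hu1
      apply qm_inj
      rw [qm_one]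
      exact sub_eq_zero.1 h
    obtain ⟨v, φ, hv, hφ, h0, e⟩ := rank_one h1 hN0
    have e' : qm u = 1 + vecMulVec v φ := by
      rw [← e]
      abel
    obtain ⟨m, hm, w, ψ, hw, hψ, hψw, e2⟩ := integral_pow hv hφ h0 e'
    have h2 : (Subgroup.zpowers (u ^ m)).relIndex C ≠ 0 := by
      refine relIndex_trans hw hψ hψw e2 ?_
      intro g hg
      obtain ⟨k, hk, l, hl⟩ := hC g hg
      refine ⟨k * m.natAbs, Nat.mul_pos hk (Int.natAbs_pos.2 hm), l * m.sign, ?_⟩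
      rw [pow_mul, hl, ← _root_.zpow_natCast, ← _root_.zpow_mul, ← _root_.zpow_mul]
      congr 1
      have h3 : m * m.sign = m.natAbs := Int.mul_sign_self m
      rw [← h3]
      ring
    intro h3
    exact h2 (Subgroup.relIndex_eq_zero_of_le_left
      (Subgroup.zpowers_le.2 (Subgroup.zpow_mem_zpowers u m)) h3)
  · exact relIndex_reg hN3 h1 hcom hC

end Pool.Agent.L5helper65.SL
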