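import Pool.Agent.L5helper65.SL.Reg3
import Pool.Agent.L5helper65.SL.Free

/-!
# Subgroups which contain a transvection
-/

set_option autoImplicit false
set_option maxHeartbeats 400000
set_option linter.unusedSectionVars false
set_option linter.unusedSimpArgs false

namespace Pool.Agent.L5helper65.SL

open Matrix
open Pool.Agent.Helper460_CSP

variable {ι : Type} [DecidableEq ι] [Fintype ι] {H : Subgroup (SpecialLinearGroup ι ℤ)}

/-- **the dichotomy for pairs of transvections** -/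
theorem dichotomy (hH : ZDense H) (hno : ¬ ∃ p ≠ 0, Full H p) (h3 : 3 ≤ Fintype.card ι)
    {x y : SpecialLinearGroup ι ℤ} (hx : x ∈ H) (hy : y ∈ H) {v φ w ψ : ι → ℤ} (hv : v ≠ 0)
    (hφ : φ ≠ 0) (hw : w ≠ 0) (hψ : ψ ≠ 0) (h1 : φ ⬝ᵥ v = 0) (h2 : ψ ⬝ᵥ w = 0)
    (ex : mt x = 1 + vecMulVec v φ) (ey : mt y = 1 + vecMulVec w ψ) :
    (∃ k m : ℤ, k ≠ 0 ∧ m ≠ 0 ∧ x ^ k = y ^ m) ∨ Function.Injective (FreeGroup.lift ![x, y]) := by
  by_cases hc : ∃ k m : ℤ, k ≠ 0 ∧ m ≠ 0 ∧ x ^ k = y ^ m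
  · exact Or.inl hc
  right
  have ex' := cv_qm ex
  have ey' := cv_qm ey
  have q1 : cv φ ⬝ᵥ cv v = 0 := by rw [cv_dot, h1, Int.cast_zero]
  have q2 : cv ψ ⬝ᵥ cv w = 0 := by rw [cv_dot, h2, Int.cast_zero]
  have hind : ∀ k l : ℤ, y ^ k = x ^ l → k = 0 := by
    intro k l h3
    by_contra hk
    have hl : l ≠ 0 := by
      rintro rfl
      rw [zpow_zero] at h3
      have h4 := congrArg qm h3
      rw [qm_zpow ey' (vv_sq q2), qm_one] at h4
      have h5 : (k : ℚ) • vecMulVec (cv w) (cv ψ) = 0 := by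
        have h6 : (1 : Matrix ι ι ℚ) + (k : ℚ) • vecMulVec (cv w) (cv ψ) = 1 + 0 := by
          rw [h4, add_zero]
        exact add_left_cancel h6
      obtain ⟨i, hi⟩ : ∃ i, w i ≠ 0 := Function.ne_iff.1 hw
      obtain ⟨j, hj⟩ : ∃ j, ψ j ≠ 0 := Function.ne_iff.1 hψ
      have h7 := congrFun (congrFun h5 i) j
      have h8 : (k : ℚ) * ((w i : ℚ) * (ψ j : ℚ)) = 0 := h7
      have h9 : k * (w i * ψ j) = 0 := by exact_mod_cast h8
      exact mul_ne_zero hk (mul_ne_zero hi hj) h9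
    exact hc ⟨l, k, hl, hk, h3.symm⟩
  have hlarge : 5 ≤ |(φ ⬝ᵥ w) * (ψ ⬝ᵥ v)| := by
    by_contra hcon
    apply hno
    exact full_pair hH h3 hx hy hv hφ hw hψ h1 h2 ex ey hind (by omega)
  refine free_pair ex' ey' q1 q2 rfl rfl ?_
  rw [cv_dot, cv_dot, mul_comm]
  have : (5 : ℚ) ≤ ((|(φ ⬝ᵥ w) * (ψ ⬝ᵥ v)| : ℤ) : ℚ) := by exact_mod_cast hlarge
  push_cast at this
  linarith

/-- a conjugate of a transvection -/
theorem conj_form {u s : SpecialLinearGroup ι ℤ} {v φ : ι → ℤ} (hu : mt u = 1 + vecMulVec v φ) :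
    mt (s * u * s⁻¹) = 1 + vecMulVec (mt s *ᵥ v) (φ ᵥ* mt s⁻¹) := by
  rw [mt_mul, mt_mul, hu, mul_add, add_mul, mul_one, ← mt_mul, mul_inv_cancel, mt_one,
    mul_vecMulVec, vecMulVec_mul]

theorem mulVec_ne {s : SpecialLinearGroup ι ℤ} {v : ι → ℤ} (hv : v ≠ 0) : mt s *ᵥ v ≠ 0 := by
  intro h
  apply hv
  have h1 := congrArg (mt s⁻¹ *ᵥ ·) h
  simp only [mulVec_mulVec, ← mt_mul, inv_mul_cancel, mt_one, one_mulVec, mulVec_zero] at h1
  exact h1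

theorem vecMul_ne {s : SpecialLinearGroup ι ℤ} {φ : ι → ℤ} (hφ : φ ≠ 0) : φ ᵥ* mt s ≠ 0 := by
  intro h
  apply hφ
  have h1 := congrArg (· ᵥ* mt s⁻¹) h
  simp only [vecMul_vecMul, ← mt_mul, mul_inv_cancel, mt_one, vecMul_one, zero_vecMul] at h1
  exact h1

/-- the dual form of `eig_sq` -/
theorem eig_sq_dual {g : SpecialLinearGroup ι ℤ} {φ : ι → ℤ} (hφ : φ ≠ 0) {c : ℚ}
    (h : cv φ ᵥ* qm g = c • cv φ) : c * c = 1 := by
  refine eig_sq (g := g.transpose) hφ ?_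
  have h1 : qm g.transpose = (qm g)ᵀ := by
    ext i j
    rfl
  rw [h1, mulVec_transpose, h]

/-- a conjugate of a transvection which has a common power with it -/
theorem conj_eq {u s : SpecialLinearGroup ι ℤ} {v φ : ι → ℤ} (hv : v ≠ 0) (hφ : φ ≠ 0)
    (h0 : φ ⬝ᵥ v = 0) (hu : mt u = 1 + vecMulVec v φ) {k m : ℤ} (hk : k ≠ 0) (hm : m ≠ 0)
    (h : u ^ k = (s * u * s⁻¹) ^ m) : s * u * s⁻¹ = u ∨ s * u * s⁻¹ = u⁻¹ := by
  obtain ⟨w, hw⟩ : ∃ w, w = mt s *ᵥ v := ⟨_, rfl⟩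
  obtain ⟨ψ, hψ⟩ : ∃ ψ, ψ = φ ᵥ* mt s⁻¹ := ⟨_, rfl⟩
  have hw0 : w ≠ 0 := by rw [hw]; exact mulVec_ne hv
  have hψ0 : ψ ≠ 0 := by rw [hψ]; exact vecMul_ne hφ
  have ey := conj_form (s := s) hu
  rw [← hw, ← hψ] at ey
  have h1 : ψ ⬝ᵥ w = 0 := by
    rw [hw, hψ, ← dotProduct_mulVec, mulVec_mulVec, ← mt_mul, inv_mul_cancel, mt_one, one_mulVec, h0]
  have h2 := mt_zpow h0 hu k
  rw [h, mt_zpow h1 ey m] at h2
  have h3 : ∀ i j, m * (w i * ψ j) = k * (v i * φ j) := by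
    intro i j
    have h5 : m • vecMulVec w ψ = k • vecMulVec v φ := add_left_cancel h2
    have h4 := congrFun (congrFun h5 i) j
    exact h4
  obtain ⟨i₀, hi⟩ : ∃ i, v i ≠ 0 := Function.ne_iff.1 hv
  obtain ⟨j₀, hj⟩ : ∃ j, φ j ≠ 0 := Function.ne_iff.1 hφ
  obtain ⟨i₁, hi₁⟩ : ∃ i, w i ≠ 0 := Function.ne_iff.1 hw0
  obtain ⟨j₁, hj₁⟩ : ∃ j, ψ j ≠ 0 := Function.ne_iff.1 hψ0
  have hmQ : (m : ℚ) ≠ 0 := by exact_mod_cast hm
  have hi₁Q : (w i₁ : ℚ) ≠ 0 := by exact_mod_cast hi₁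
  have hj₁Q : (ψ j₁ : ℚ) ≠ 0 := by exact_mod_cast hj₁
  have h3Q : ∀ i j, (m : ℚ) * ((w i : ℚ) * (ψ j : ℚ)) = k * ((v i : ℚ) * (φ j : ℚ)) := by
    intro i j
    exact_mod_cast h3 i j
  have hc1 : qm s *ᵥ cv v = ((k : ℚ) * φ j₁ / (m * ψ j₁)) • cv v := by
    rw [cv_mulVec, ← hw]
    funext i
    show (w i : ℚ) = ((k : ℚ) * φ j₁ / (m * ψ j₁)) * (v i : ℚ)
    have h4 := h3Q i j₁
    field_simp
    linear_combination h4
  have hc2 : cv φ ᵥ* qm s⁻¹ = ((k : ℚ) * v i₁ / (m * w i₁)) • cv φ := by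
    rw [cv_vecMul, ← hψ]
    funext j
    show (ψ j : ℚ) = ((k : ℚ) * v i₁ / (m * w i₁)) * (φ j : ℚ)
    have h4 := h3Q i₁ j
    field_simp
    linear_combination h4
  have e1 := eig_sq hv hc1
  have e2 := eig_sq_dual hφ hc2
  rw [cv_mulVec, ← hw] at hc1
  rw [cv_vecMul, ← hψ] at hc2
  obtain ⟨c, hc⟩ : ∃ c, c = (k : ℚ) * φ j₁ / (m * ψ j₁) := ⟨_, rfl⟩
  obtain ⟨d, hd⟩ : ∃ d, d = (k : ℚ) * v i₁ / (m * w i₁) := ⟨_, rfl⟩
  rw [← hc] at hc1 e1
  rw [← hd] at hc2 e2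
  have ey' := cv_qm ey
  rw [hc1, hc2, smul_vecMulVec, vecMulVec_smul, smul_smul] at ey'
  have hcd : (c * d) * (c * d) = 1 := by linear_combination d * d * e1 + e2
  rcases mul_self_eq_one_iff.1 hcd with h5 | h5
  · left
    apply qm_inj
    rw [ey', h5, one_smul, cv_qm hu]
  · right
    apply qm_inj
    have h6 := qm_zpow (cv_qm hu) (vv_sq (by rw [cv_dot, h0, Int.cast_zero])) (-1)
    rw [_root_.zpow_neg_one] at h6
    rw [ey', h5, h6]
    push_cast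
    rfl

/-- the centralizer has finite index if all conjugates are `u` or `u⁻¹` -/
theorem cent_relIndex {G : Type} [Group G] {S : Subgroup G} {u : G}
    (h : ∀ s ∈ S, s * u * s⁻¹ = u ∨ s * u * s⁻¹ = u⁻¹) :
    (S ⊓ Subgroup.centralizer {u}).relIndex S ≠ 0 := by
  have h1 : Finite (S ⧸ (S ⊓ Subgroup.centralizer {u}).subgroupOf S) := by
    have hfin : Finite ({u, u⁻¹} : Set G) := Set.Finite.to_subtype (Set.toFinite _)
    let f : S ⧸ (S ⊓ Subgroup.centralizer {u}).subgroupOf S → ({u, u⁻¹} : Set G) :=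
      Quotient.lift (fun s : S => (⟨(s : G) * u * (s : G)⁻¹, h s s.2⟩ : ({u, u⁻¹} : Set G))) (by
        intro a b hab
        have h2 : a⁻¹ * b ∈ (S ⊓ Subgroup.centralizer {u}).subgroupOf S :=
          QuotientGroup.leftRel_apply.1 hab
        rw [Subgroup.mem_subgroupOf] at h2
        have h3 : u * ((a⁻¹ * b : S) : G) = ((a⁻¹ * b : S) : G) * u :=
          (Subgroup.mem_centralizer_iff.1 h2.2) u rfl
        apply Subtype.ext
        show (a : G) * u * (a : G)⁻¹ = (b : G) * u * (b : G)⁻¹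
        rw [Subgroup.coe_mul, Subgroup.coe_inv] at h3
        have h4 : (b : G) * u = (a : G) * (((a : G)⁻¹ * b) * u) := by group
        rw [h4, ← h3]
        group)
    refine Finite.of_injective f ?_
    intro a b
    induction a using QuotientGroup.induction_on with
    | H a =>
    induction b using QuotientGroup.induction_on with
    | H b =>
    intro hab
    have h3 : (a : G) * u * (a : G)⁻¹ = (b : G) * u * (b : G)⁻¹ := congrArg Subtype.val hab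
    rw [QuotientGroup.eq, Subgroup.mem_subgroupOf]
    refine Subgroup.mem_inf.2 ⟨(a⁻¹ * b).2, ?_⟩
    rw [Subgroup.mem_centralizer_iff]
    rintro x rfl
    rw [Subgroup.coe_mul, Subgroup.coe_inv]
    have h4 : x = (a : G)⁻¹ * ((a : G) * x * (a : G)⁻¹) * a := by group
    have h5 : x * ((a : G)⁻¹ * b) = (a : G)⁻¹ * ((a : G) * x * (a : G)⁻¹) * b := by group
    rw [h5, h3]
    group
  have h2 : ((S ⊓ Subgroup.centralizer {u}).subgroupOf S).FiniteIndex :=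
    Subgroup.finiteIndex_of_finite_quotient
  exact h2.index_ne_zero

theorem pow_nat {G : Type} [Group G] {g u : G} (h : ¬ ∀ k m : ℤ, g ^ k = u ^ m → k = 0) :
    ∃ k : ℕ, 0 < k ∧ ∃ m : ℤ, g ^ k = u ^ m := by
  push Not at h
  obtain ⟨k, m, h1, h2⟩ := h
  refine ⟨k.natAbs, Int.natAbs_pos.2 h2, m * k.sign, ?_⟩
  rw [← _root_.zpow_natCast, ← Int.mul_sign_self, _root_.zpow_mul, h1, ← _root_.zpow_mul]

/-- **subgroups which contain a transvection** -/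
theorem sub_index (hH : ZDense H) (hno : ¬ ∃ p ≠ 0, Full H p) (h3 : 3 ≤ Fintype.card ι)
    {S : Subgroup (SpecialLinearGroup ι ℤ)} (hS : S ≤ H) {u : SpecialLinearGroup ι ℤ} (hu : u ∈ S)
    {v φ : ι → ℤ} (hv : v ≠ 0) (hφ : φ ≠ 0) (h0 : φ ⬝ᵥ v = 0) (eu : mt u = 1 + vecMulVec v φ)
    (hnf : ∀ s ∈ S, ¬ Function.Injective (FreeGroup.lift ![u, s * u * s⁻¹])) :
    (Subgroup.zpowers u).relIndex S ≠ 0 := by
  have h1 : ∀ s ∈ S, s * u * s⁻¹ = u ∨ s * u * s⁻¹ = u⁻¹ := by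
    intro s hs
    have hys : s * u * s⁻¹ ∈ H := hS (S.mul_mem (S.mul_mem hs hu) (S.inv_mem hs))
    have hd := dichotomy hH hno h3 (hS hu) hys hv hφ (mulVec_ne (s := s) hv)
      (vecMul_ne (s := s⁻¹) hφ) h0
      (by rw [← dotProduct_mulVec, mulVec_mulVec, ← mt_mul, inv_mul_cancel, mt_one, one_mulVec, h0])
      eu (conj_form eu)
    rcases hd with ⟨k, m, hk, hm, h⟩ | h
    · exact conj_eq hv hφ h0 eu hk hm h
    · exact absurd h (hnf s hs)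
  refine Subgroup.relIndex_ne_zero_trans ?_ (cent_relIndex h1)
  refine relIndex_trans hv hφ h0 eu ?_
  rintro g ⟨hgS, hgC⟩
  apply pow_nat
  intro hind
  apply hno
  exact full_noncyclic hH (hS hu) (hS hgS) hv hφ h0 eu
    ((Subgroup.mem_centralizer_iff.1 hgC) u rfl) hind

/-- **centralizers of unipotent elements of `SL(3, ℤ)`** -/
theorem uni_index {H : Subgroup (SpecialLinearGroup (Fin 3) ℤ)} (hH : ZDense H)
    (hno : ¬ ∃ p ≠ 0, Full H p) {u : SpecialLinearGroup (Fin 3) ℤ} (hu : u ∈ H)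
    (uu : (qm u - 1) * (qm u - 1) * (qm u - 1) = 0) (hu1 : u ≠ 1) :
    (Subgroup.zpowers u).relIndex (H ⊓ Subgroup.centralizer {u}) ≠ 0 := by
  refine relIndex_uni uu hu1 ?_ ?_
  · rintro g ⟨-, hgC⟩
    exact (Subgroup.mem_centralizer_iff.1 hgC) u rfl
  · rintro g ⟨hgH, hgC⟩
    apply pow_nat
    intro hind
    apply hno
    exact full_uni_cent hH hu hgH ((Subgroup.mem_centralizer_iff.1 hgC) u rfl) uu hu1 hind

end Pool.Agent.L5helper65.SL
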