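import Pool.Agent.L5helper65.SL.Cent

/-!
# Commuting unipotent elements of `SL(3, ℤ)`
-/

set_option autoImplicit false
set_option maxHeartbeats 400000
set_option linter.unusedSectionVars false
set_option linter.unusedSimpArgs false

namespace Pool.Agent.L5helper65.SL

open Matrix
open Pool.Agent.Helper460_CSP

/-- independent vectors -/
def Ind3 (a b c : Fin 3 → ℚ) : Prop :=
  ∀ α β γ : ℚ, α • a + β • b + γ • c = 0 → α = 0 ∧ β = 0 ∧ γ = 0

theorem span3 {a b c : Fin 3 → ℚ} (h : Ind3 a b c) (z : Fin 3 → ℚ) :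
    ∃ α β γ : ℚ, z = α • a + β • b + γ • c := by
  have hli : LinearIndependent ℚ ![a, b, c] := by
    rw [Fintype.linearIndependent_iff]
    intro g hg
    rw [Fin.sum_univ_three] at hg
    obtain ⟨h1, h2, h3⟩ := h _ _ _ hg
    intro i
    fin_cases i
    · exact h1
    · exact h2
    · exact h3
  have hsp := hli.span_eq_top_of_card_eq_finrank' (by simp)
  have hz : z ∈ Submodule.span ℚ (Set.range ![a, b, c]) := by rw [hsp]; trivial
  obtain ⟨g, hg⟩ := (Submodule.mem_span_range_iff_exists_fun ℚ).1 hz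
  rw [Fin.sum_univ_three] at hg
  exact ⟨_, _, _, hg.symm⟩

/-- matrices which agree on independent vectors -/
theorem mat3 {a b c : Fin 3 → ℚ} (h : Ind3 a b c) {A B : Matrix (Fin 3) (Fin 3) ℚ}
    (ha : A *ᵥ a = B *ᵥ a) (hb : A *ᵥ b = B *ᵥ b) (hc : A *ᵥ c = B *ᵥ c) : A = B := by
  have key : ∀ z, A *ᵥ z = B *ᵥ z := by
    intro z
    obtain ⟨α, β, γ, rfl⟩ := span3 h z
    simp only [mulVec_add, mulVec_smul, ha, hb, hc]
  ext i j
  have := congrFun (key (Pi.single j 1)) i
  rw [mulVec_single_one, mulVec_single_one] at this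
  exact this

/-- square zero matrices have rank one -/
theorem rank_one {N : Matrix (Fin 3) (Fin 3) ℚ} (hN : N * N = 0) (h0 : N ≠ 0) :
    ∃ v φ : Fin 3 → ℚ, v ≠ 0 ∧ φ ≠ 0 ∧ φ ⬝ᵥ v = 0 ∧ N = vecMulVec v φ := by
  obtain ⟨e, he⟩ : ∃ e, N *ᵥ e ≠ 0 := by
    by_contra hcon
    push Not at hcon
    apply h0
    ext i j
    have := congrFun (hcon (Pi.single j 1)) i
    rw [mulVec_single_one] at this
    exact this
  obtain ⟨v, hv⟩ : ∃ v, v = N *ᵥ e := ⟨_, rfl⟩
  rw [← hv] at he
  have hNN : ∀ z, N *ᵥ (N *ᵥ z) = 0 := by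
    intro z
    rw [mulVec_mulVec, hN, zero_mulVec]
  have hNv : N *ᵥ v = 0 := by rw [hv, hNN]
  have key : ∀ f, ∃ c : ℚ, N *ᵥ f = c • v := by
    intro f
    by_contra hcon
    push Not at hcon
    have hind : Ind3 v (N *ᵥ f) e := by
      intro α β γ h
      have h1 := congrArg (N *ᵥ ·) h
      simp only [mulVec_add, mulVec_smul, hNv, hNN, smul_zero, zero_add, mulVec_zero, ← hv] at h1
      have hγ : γ = 0 := (smul_eq_zero.1 h1).resolve_right he
      rw [hγ, zero_smul, add_zero] at h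
      have hβ : β = 0 := by
        by_contra hβ
        apply hcon (-(β⁻¹ * α))
        have h2 := congrArg (β⁻¹ • ·) h
        simp only [smul_add, smul_smul, inv_mul_cancel₀ hβ, one_smul, smul_zero] at h2
        rw [neg_smul]
        exact eq_neg_of_add_eq_zero_right h2
      rw [hβ, zero_smul, add_zero] at h
      exact ⟨(smul_eq_zero.1 h).resolve_right he, hβ, hγ⟩
    obtain ⟨α, β, γ, hf⟩ := span3 hind f
    apply hcon γ
    conv_lhs => rw [hf]
    rw [mulVec_add, mulVec_add, mulVec_smul, mulVec_smul, mulVec_smul, hNv, hNN, smul_zero,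
      smul_zero, zero_add, zero_add, ← hv]
  choose c hc using key
  have hN' : N = vecMulVec v (fun j => c (Pi.single j 1)) := by
    ext i j
    have := congrFun (hc (Pi.single j 1)) i
    rw [mulVec_single_one] at this
    rw [vecMulVec_apply, mul_comm]
    exact this
  refine ⟨v, fun j => c (Pi.single j 1), he, ?_, ?_, hN'⟩
  · intro h1
    apply h0
    rw [hN', h1, vecMulVec_zero]
  · have h1 := hNv
    rw [hN', vv_mulVec] at h1
    exact (smul_eq_zero.1 h1).resolve_right he

/-- the centralizer of a regular nilpotent matrix -/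
theorem regular {N M : Matrix (Fin 3) (Fin 3) ℚ} (hN3 : N * N * N = 0) (hN2 : N * N ≠ 0)
    (hM3 : M * M * M = 0) (hc : N * M = M * N) : ∃ b c : ℚ, M = b • N + c • (N * N) := by
  obtain ⟨e, he⟩ : ∃ e, (N * N) *ᵥ e ≠ 0 := by
    by_contra hcon
    push Not at hcon
    apply hN2
    ext i j
    have := congrFun (hcon (Pi.single j 1)) i
    rw [mulVec_single_one] at this
    exact this
  have h3 : ∀ z, N *ᵥ (N *ᵥ (N *ᵥ z)) = 0 := by
    intro z
    rw [mulVec_mulVec, mulVec_mulVec, hN3, zero_mulVec]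
  rw [← mulVec_mulVec] at he
  have hind : Ind3 e (N *ᵥ e) (N *ᵥ (N *ᵥ e)) := by
    intro α β γ h
    have h1 := congrArg (fun z => N *ᵥ (N *ᵥ z)) h
    simp only [mulVec_add, mulVec_smul, h3, smul_zero, add_zero, mulVec_zero] at h1
    have hα : α = 0 := (smul_eq_zero.1 h1).resolve_right he
    rw [hα, zero_smul, zero_add] at h
    have h2 := congrArg (fun z => N *ᵥ z) h
    simp only [mulVec_add, mulVec_smul, h3, smul_zero, add_zero, mulVec_zero] at h2
    have hβ : β = 0 := (smul_eq_zero.1 h2).resolve_right he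
    rw [hβ, zero_smul, zero_add] at h
    exact ⟨hα, hβ, (smul_eq_zero.1 h).resolve_right he⟩
  obtain ⟨a, b, c, hM⟩ := span3 hind (M *ᵥ e)
  have hM' : M = a • 1 + b • N + c • (N * N) := by
    have hcz : ∀ z, M *ᵥ (N *ᵥ z) = N *ᵥ (M *ᵥ z) := by
      intro z
      rw [mulVec_mulVec, mulVec_mulVec, hc]
    have hr : ∀ z, (a • (1 : Matrix (Fin 3) (Fin 3) ℚ) + b • N + c • (N * N)) *ᵥ z =
        a • z + b • (N *ᵥ z) + c • (N *ᵥ (N *ᵥ z)) := by
      intro z
      rw [add_mulVec, add_mulVec, smul_mulVec, smul_mulVec, smul_mulVec, one_mulVec, mulVec_mulVec]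
    apply mat3 hind
    · rw [hM, hr]
    · rw [hcz, hM, hr]
      simp only [mulVec_add, mulVec_smul]
    · rw [hcz, hcz, hM, hr]
      simp only [mulVec_add, mulVec_smul]
  have ha : a = 0 := by
    have h4 : M *ᵥ (N *ᵥ (N *ᵥ e)) = a • (N *ᵥ (N *ᵥ e)) := by
      conv_lhs => rw [hM']
      rw [add_mulVec, add_mulVec, smul_mulVec, smul_mulVec, smul_mulVec, one_mulVec,
        ← mulVec_mulVec, h3, mulVec_zero, smul_zero, smul_zero, add_zero, add_zero]
    have h5 : (M * M * M) *ᵥ (N *ᵥ (N *ᵥ e)) = (a * a * a) • (N *ᵥ (N *ᵥ e)) := by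
      rw [← mulVec_mulVec, ← mulVec_mulVec, h4, mulVec_smul, mulVec_smul, h4, mulVec_smul, h4,
        smul_smul, smul_smul]
    rw [hM3, zero_mulVec] at h5
    have h6 := (smul_eq_zero.1 h5.symm).resolve_right he
    rcases mul_eq_zero.1 h6 with h7 | h7
    · rcases mul_eq_zero.1 h7 with h8 | h8 <;> exact h8
    · exact h7
  exact ⟨b, c, by rw [hM', ha, zero_smul, zero_add]⟩

variable {H : Subgroup (SpecialLinearGroup (Fin 3) ℤ)}

/-- elements of the unipotent group of a regular nilpotent matrix -/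
def Pn (N : Matrix (Fin 3) (Fin 3) ℚ) (b : ℚ) (z : SpecialLinearGroup (Fin 3) ℤ) : Prop :=
  ∃ c : ℚ, qm z = 1 + b • N + c • (N * N)

theorem Pn.mul {N : Matrix (Fin 3) (Fin 3) ℚ} (hN3 : N * N * N = 0) {b b' : ℚ}
    {z z' : SpecialLinearGroup (Fin 3) ℤ} (h : Pn N b z) (h' : Pn N b' z') :
    Pn N (b + b') (z * z') := by
  obtain ⟨c, hc⟩ := h
  obtain ⟨c', hc'⟩ := h'
  refine ⟨c + c' + b * b', ?_⟩
  have h3 : N * (N * N) = 0 := by rw [← mul_assoc, hN3]
  have h4 : N * N * (N * N) = 0 := by rw [← mul_assoc, hN3, zero_mul]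
  rw [qm_mul, hc, hc']
  simp only [add_mul, mul_add, one_mul, mul_one, smul_mul_smul_comm, h3, h4, hN3, smul_zero, add_zero]
  module

theorem Pn.inv {N : Matrix (Fin 3) (Fin 3) ℚ} (hN3 : N * N * N = 0) {b : ℚ}
    {z : SpecialLinearGroup (Fin 3) ℤ} (h : Pn N b z) : Pn N (-b) z⁻¹ := by
  obtain ⟨c, hc⟩ := h
  refine ⟨b * b - c, qm_inv_of ?_⟩
  have h3 : N * (N * N) = 0 := by rw [← mul_assoc, hN3]
  have h4 : N * N * (N * N) = 0 := by rw [← mul_assoc, hN3, zero_mul]
  rw [hc]
  simp only [add_mul, mul_add, one_mul, mul_one, smul_mul_smul_comm, h3, h4, hN3, smul_zero, add_zero]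
  module

theorem Pn.pow {N : Matrix (Fin 3) (Fin 3) ℚ} (hN3 : N * N * N = 0) {b : ℚ}
    {z : SpecialLinearGroup (Fin 3) ℤ} (h : Pn N b z) (k : ℕ) : Pn N (k * b) (z ^ k) := by
  induction k with
  | zero => exact ⟨0, by rw [pow_zero, qm_one]; simp⟩
  | succ k ih =>
    have := ih.mul hN3 h
    rw [pow_succ, Nat.cast_succ, add_mul, one_mul]
    exact this

theorem Pn.zpow {N : Matrix (Fin 3) (Fin 3) ℚ} (hN3 : N * N * N = 0) {b : ℚ}
    {z : SpecialLinearGroup (Fin 3) ℤ} (h : Pn N b z) (k : ℤ) : Pn N (k * b) (z ^ k) := by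
  cases k with
  | ofNat m =>
    rw [Int.ofNat_eq_natCast, zpow_natCast, Int.cast_natCast]
    exact h.pow hN3 m
  | negSucc m =>
    rw [_root_.zpow_negSucc]
    have := (h.pow hN3 (m + 1)).inv hN3
    have e : (((Int.negSucc m : ℤ)) : ℚ) * b = -(((m + 1 : ℕ) : ℚ) * b) := by
      rw [Int.cast_negSucc]
      ring
    rw [e]
    exact this

/-- an integral transvection from a rational one -/
theorem T.integral {ι : Type} [DecidableEq ι] [Fintype ι] {H : Subgroup (SpecialLinearGroup ι ℤ)}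
    {v φ : ι → ℚ} (hv : v ≠ 0) (hφ : φ ≠ 0) (h : T H v φ) : ∃ z ∈ H, ∃ v' φ' : ι → ℤ,
      v' ≠ 0 ∧ φ' ≠ 0 ∧ φ' ⬝ᵥ v' = 0 ∧ mt z = 1 + vecMulVec v' φ' ∧
      ∃ r : ℚ, vecMulVec (cv v') (cv φ') = r • vecMulVec v φ := by
  obtain ⟨a, ha, w, hw⟩ := int_mul v
  obtain ⟨b, hb, ψ, hψ⟩ := int_mul φ
  have haQ : (a : ℚ) ≠ 0 := by exact_mod_cast ha
  have hbQ : (b : ℚ) ≠ 0 := by exact_mod_cast hb
  have cw : cv w = (a : ℚ) • v := by
    funext i
    exact (hw i).symm
  have cψ : cv ψ = (b : ℚ) • φ := by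
    funext i
    exact (hψ i).symm
  have hT : T H (cv w) (cv ψ) := by
    rw [cw, cψ]
    exact (h.smul_left _).smul_right _
  obtain ⟨h0, k, hk, z, hz, e⟩ := hT
  have hkQ : (k : ℚ) ≠ 0 := by exact_mod_cast hk
  have hw0 : w ≠ 0 := by
    rintro rfl
    have h1 : (a : ℚ) • v = 0 := by
      rw [← cw]
      funext i
      simp [cv]
    exact hv ((smul_eq_zero.1 h1).resolve_left haQ)
  have hψ0 : ψ ≠ 0 := by
    rintro rfl
    have h1 : (b : ℚ) • φ = 0 := by
      rw [← cψ]
      funext i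
      simp [cv]
    exact hφ ((smul_eq_zero.1 h1).resolve_left hbQ)
  refine ⟨z, hz, k • w, ψ, ?_, hψ0, ?_, ?_, k * (a * b), ?_⟩
  · exact smul_ne_zero hk hw0
  · rw [cv_dot] at h0
    have : ψ ⬝ᵥ w = 0 := by exact_mod_cast h0
    rw [dotProduct_smul, this, smul_zero]
  · ext i j
    have h1 := congrFun (congrFun e i) j
    have h2 : ((mt z i j : ℤ) : ℚ) = (1 : Matrix ι ι ℚ) i j + (k : ℚ) * ((w i : ℚ) * (ψ j : ℚ)) := h1
    have h3 : (((1 : Matrix ι ι ℤ) i j : ℤ) : ℚ) = (1 : Matrix ι ι ℚ) i j := by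
      rw [one_apply, one_apply]
      split_ifs <;> simp
    rw [← h3] at h2
    have h4 : mt z i j = (1 : Matrix ι ι ℤ) i j + k * (w i * ψ j) := by exact_mod_cast h2
    rw [h4, Matrix.add_apply, vecMulVec_apply, Pi.smul_apply, smul_eq_mul, mul_assoc]
  · rw [cv_smul, cw, cψ, smul_vecMulVec, smul_vecMulVec, vecMulVec_smul, smul_smul, smul_smul,
      mul_assoc]

theorem full_uni_reg (hH : ZDense H) {x y : SpecialLinearGroup (Fin 3) ℤ} (hx : x ∈ H) (hy : y ∈ H)
    (hxy : x * y = y * x) (ux : (qm x - 1) * (qm x - 1) * (qm x - 1) = 0)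
    (uy : (qm y - 1) * (qm y - 1) * (qm y - 1) = 0) (hind : ∀ p q : ℤ, x ^ p = y ^ q → p = 0 ∧ q = 0)
    (hreg : (qm x - 1) * (qm x - 1) ≠ 0) : ∃ p ≠ 0, Full H p := by
  obtain ⟨N, hN⟩ : ∃ N, N = qm x - 1 := ⟨_, rfl⟩
  rw [← hN] at ux hreg
  have hcomm : N * (qm y - 1) = (qm y - 1) * N := by
    have h1 : qm x * qm y = qm y * qm x := by rw [← qm_mul, hxy, qm_mul]
    rw [hN]
    simp only [sub_mul, mul_sub, one_mul, mul_one, h1]
    abel
  obtain ⟨b, c, hM⟩ := regular ux hreg uy hcomm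
  have px : Pn N 1 x := ⟨0, by rw [zero_smul, add_zero, one_smul, hN]; abel⟩
  have py : Pn N b y := ⟨c, by rw [add_assoc, ← hM]; abel⟩
  -- the element without a linear term
  have pz := (px.zpow ux (-b.num)).mul ux (py.zpow ux b.den)
  have e0 : (((-b.num : ℤ) : ℚ)) * 1 + (((b.den : ℤ) : ℤ) : ℚ) * b = 0 := by
    have := Rat.mul_den_eq_num b
    push_cast
    linear_combination this
  rw [e0] at pz
  obtain ⟨τ, hτ⟩ := pz
  rw [zero_smul, add_zero] at hτ
  have hτ0 : τ ≠ 0 := by
    rintro rfl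
    rw [zero_smul, add_zero, ← qm_one] at hτ
    have h1 := qm_inj hτ
    have h2 : x ^ b.num = y ^ ((b.den : ℕ) : ℤ) := by
      rw [_root_.zpow_neg, inv_mul_eq_one] at h1
      exact h1
    have h3 := (hind _ _ h2).2
    exact b.den_nz (by exact_mod_cast h3)
  have hNN : (N * N) * (N * N) = 0 := by rw [← mul_assoc, ux, zero_mul]
  obtain ⟨u, χ, hu, hχ, h0, hr⟩ := rank_one hNN hreg
  have hT : T H u χ := by
    refine ⟨h0, τ.num, ?_, (x ^ (-b.num) * y ^ ((b.den : ℕ) : ℤ)) ^ ((τ.den : ℕ) : ℤ),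
      H.zpow_mem (H.mul_mem (H.zpow_mem hx _) (H.zpow_mem hy _)) _, ?_⟩
    · exact Rat.num_ne_zero.2 hτ0
    · have h1 : τ • (N * N) * τ • (N * N) = 0 := by rw [smul_mul_smul_comm, hNN, smul_zero]
      rw [qm_zpow hτ h1, smul_smul, hr]
      congr 2
      have := Rat.mul_den_eq_num τ
      push_cast
      rw [mul_comm]
      exact this
  obtain ⟨z, hz, v', φ', hv', hφ', h0', ez, r, hr'⟩ := hT.integral hu hχ
  refine full_cent hH hz hx hv' hφ' h0' ez ?_ ?_
  · apply qm_inj
    rw [qm_mul, qm_mul, cv_qm ez, hr', ← hr]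
    have hx' : qm x = 1 + N := by rw [hN]; abel
    have h3 : N * (N * N) = 0 := by rw [← mul_assoc, ux]
    rw [hx']
    simp only [add_mul, mul_add, one_mul, mul_one, smul_mul_assoc, mul_smul_comm, h3, ux, smul_zero,
      add_zero]
    abel
  · intro k hk h5
    obtain ⟨c', hc'⟩ := px.pow ux k
    have h3 : N * (N * N) = 0 := by rw [← mul_assoc, ux]
    have h6 : (qm (x ^ k) - 1) * (qm (x ^ k) - 1) = ((k : ℚ) * k) • (N * N) := by
      rw [hc', mul_one]
      have : (1 + (k : ℚ) • N + c' • (N * N) - 1) = (k : ℚ) • N + c' • (N * N) := by abel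
      rw [this]
      simp only [add_mul, mul_add, smul_mul_smul_comm, h3, ux, hNN, smul_zero, add_zero]
    have h7 : (qm (x ^ k) - 1) * (qm (x ^ k) - 1) = 0 := by
      ext i j
      have h8 := congrFun (congrFun h5 i) j
      rw [mul_apply] at h8 ⊢
      have h9 : ∀ a b, (qm (x ^ k) - 1) a b = (((mt (x ^ k) - 1) a b : ℤ) : ℚ) := by
        intro a b
        rw [Matrix.sub_apply, Matrix.sub_apply]
        push_cast
        congr 1
        rw [one_apply, one_apply]
        split_ifs <;> simp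
      rw [Finset.sum_congr rfl fun a _ => by rw [h9, h9]]
      have h10 : (∑ a, (mt (x ^ k) - 1) i a * (mt (x ^ k) - 1) a j) = 0 := h8
      rw [Matrix.zero_apply, ← Int.cast_zero, ← h10]
      push_cast
      rfl
    rw [h7] at h6
    have hkQ : (k : ℚ) ≠ 0 := by
      have : k ≠ 0 := by omega
      exact_mod_cast this
    exact hreg ((smul_eq_zero.1 h6.symm).resolve_left (mul_ne_zero hkQ hkQ))

/-- **commuting unipotent elements of `SL(3, ℤ)`** -/
theorem full_uni (hH : ZDense H) {x y : SpecialLinearGroup (Fin 3) ℤ} (hx : x ∈ H) (hy : y ∈ H)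
    (hxy : x * y = y * x) (ux : (qm x - 1) * (qm x - 1) * (qm x - 1) = 0)
    (uy : (qm y - 1) * (qm y - 1) * (qm y - 1) = 0)
    (hind : ∀ p q : ℤ, x ^ p = y ^ q → p = 0 ∧ q = 0) : ∃ p ≠ 0, Full H p := by
  by_cases h1 : (qm x - 1) * (qm x - 1) = 0
  swap
  · exact full_uni_reg hH hx hy hxy ux uy hind h1
  by_cases h2 : (qm y - 1) * (qm y - 1) = 0
  swap
  · exact full_uni_reg hH hy hx hxy.symm uy ux (fun p q h => (hind q p h.symm).symm) h2
  have hx1 : qm x - 1 ≠ 0 := by
    intro h3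
    rw [sub_eq_zero, ← qm_one] at h3
    have h4 := qm_inj h3
    have h5 := (hind 1 0 (by rw [h4]; simp)).1
    exact one_ne_zero h5
  have hy1 : qm y - 1 ≠ 0 := by
    intro h3
    rw [sub_eq_zero, ← qm_one] at h3
    have h4 := qm_inj h3
    have h5 := (hind 0 1 (by rw [h4]; simp)).2
    exact one_ne_zero h5
  obtain ⟨v, φ, hv, hφ, hφv, e1⟩ := rank_one h1 hx1
  obtain ⟨w, ψ, hw, hψ, hψw, e2⟩ := rank_one h2 hy1
  have ex : qm x = 1 + vecMulVec v φ := by rw [← e1]; abel
  have ey : qm y = 1 + vecMulVec w ψ := by rw [← e2]; abel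
  have Tx : T H v φ := ⟨hφv, 1, one_ne_zero, x, hx, by rw [ex, Int.cast_one, one_smul]⟩
  have Ty : T H w ψ := ⟨hψw, 1, one_ne_zero, y, hy, by rw [ey, Int.cast_one, one_smul]⟩
  have hc : (φ ⬝ᵥ w) • vecMulVec v ψ = (ψ ⬝ᵥ v) • vecMulVec w φ := by
    have h3 : qm x * qm y = qm y * qm x := by rw [← qm_mul, hxy, qm_mul]
    rw [ex, ey] at h3
    simp only [add_mul, mul_add, one_mul, mul_one, vv_mul] at h3
    have h4 := h3
    have h5 : 1 + vecMulVec v φ + (vecMulVec w ψ + (φ ⬝ᵥ w) • vecMulVec v ψ) =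
        1 + vecMulVec v φ + (vecMulVec w ψ + (ψ ⬝ᵥ v) • vecMulVec w φ) := by
      calc _ = 1 + vecMulVec w ψ + (vecMulVec v φ + (ψ ⬝ᵥ v) • vecMulVec w φ) := by
            rw [← h4]
        _ = _ := by abel
    exact add_left_cancel (add_left_cancel h5)
  by_cases c1 : φ ⬝ᵥ w = 0
  · by_cases c2 : ψ ⬝ᵥ v = 0
    · by_cases d1 : ∀ a b : ℚ, a • v + b • w = 0 → a = 0 ∧ b = 0
      · by_cases d2 : ∀ a b : ℚ, a • φ + b • ψ = 0 → a = 0 ∧ b = 0
        · -- impossible
          exfalso
          have hsp : Submodule.span ℚ {v, w} ≠ ⊤ := by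
            intro htop
            have h1 : Module.finrank ℚ (Submodule.span ℚ
                (({v, w} : Finset (Fin 3 → ℚ)) : Set (Fin 3 → ℚ))) ≤ 2 :=
              (finrank_span_finset_le_card _).trans Finset.card_le_two
            rw [Finset.coe_pair, htop, finrank_top, Module.finrank_fintype_fun_eq_card] at h1
            simp at h1
          obtain ⟨e, he⟩ : ∃ e, e ∉ Submodule.span ℚ {v, w} := by
            by_contra hcon
            push Not at hcon
            exact hsp (Submodule.eq_top_iff'.2 hcon)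
          have hind3 : Ind3 v w e := by
            intro α β γ h
            have hγ : γ = 0 := by
              by_contra hγ
              apply he
              have h3 := congrArg (γ⁻¹ • ·) h
              simp only [smul_add, smul_smul, inv_mul_cancel₀ hγ, one_smul, smul_zero] at h3
              refine Submodule.mem_span_pair.2 ⟨-(γ⁻¹ * α), -(γ⁻¹ * β), ?_⟩
              rw [neg_smul, neg_smul]
              rw [← sub_eq_zero]
              have h4 : -((γ⁻¹ * α) • v) + -((γ⁻¹ * β) • w) - e =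
                -((γ⁻¹ * α) • v + (γ⁻¹ * β) • w + e) := by abel
              rw [h4, h3, neg_zero]
            rw [hγ, zero_smul, add_zero] at h
            exact ⟨(d1 _ _ h).1, (d1 _ _ h).2, hγ⟩
          have h3 : (ψ ⬝ᵥ e) • φ + (-(φ ⬝ᵥ e)) • ψ = 0 := by
            have h4 : ∀ z, ((ψ ⬝ᵥ e) • φ + (-(φ ⬝ᵥ e)) • ψ) ⬝ᵥ z = 0 := by
              intro z
              obtain ⟨α, β, γ, rfl⟩ := span3 hind3 z
              simp only [add_dotProduct, dotProduct_add, smul_dotProduct, dotProduct_smul, hφv, c1,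
                c2, hψw, smul_eq_mul]
              ring
            funext i
            have := h4 (Pi.single i 1)
            rw [dotProduct_single, mul_one] at this
            exact this
          have h4 := (d2 _ _ h3)
          have h5 : φ ⬝ᵥ e = 0 := neg_eq_zero.1 h4.2
          apply hφ
          funext i
          obtain ⟨α, β, γ, hz⟩ := span3 hind3 (Pi.single i 1)
          have h6 : φ ⬝ᵥ (Pi.single i 1) = 0 := by
            rw [hz]
            simp only [dotProduct_add, dotProduct_smul, hφv, c1, h5, smul_zero, add_zero]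
          rw [dotProduct_single, mul_one] at h6
          exact h6
        · -- the functionals are proportional
          push Not at d2
          obtain ⟨a, b, hab, hab'⟩ := d2
          have ha : b ≠ 0 := by
            intro hb
            rw [hb, zero_smul, add_zero] at hab
            exact hab' ((smul_eq_zero.1 hab).resolve_right hφ) hb
          have h3 : a ≠ 0 := by
            intro h4
            rw [h4, zero_smul, zero_add] at hab
            exact hψ ((smul_eq_zero.1 hab).resolve_left ha)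
          have h4 : φ = (a⁻¹ * -b) • ψ := by
            have h5 := congrArg (a⁻¹ • ·) hab
            simp only [smul_add, smul_smul, inv_mul_cancel₀ h3, one_smul, smul_zero] at h5
            rw [mul_neg, neg_smul]
            exact eq_neg_of_add_eq_zero_left h5
          have h5 : T H w φ := by
            rw [h4]
            exact Ty.smul_right _
          exact full_dual hH hφ Tx h5 d1
      · -- the vectors are proportional
        push Not at d1
        obtain ⟨a, b, hab, hab'⟩ := d1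
        have hb : b ≠ 0 := by
          intro hb
          rw [hb, zero_smul, add_zero] at hab
          exact hab' ((smul_eq_zero.1 hab).resolve_right hv) hb
        have hwv : w = (b⁻¹ * -a) • v := by
          have h5 := congrArg (b⁻¹ • ·) hab
          simp only [smul_add, smul_smul, inv_mul_cancel₀ hb, one_smul, smul_zero] at h5
          rw [mul_neg, neg_smul]
          exact eq_neg_of_add_eq_zero_right h5
        obtain ⟨c, hc'⟩ : ∃ c, c = b⁻¹ * -a := ⟨_, rfl⟩
        rw [← hc'] at hwv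
        have hc0 : c ≠ 0 := by
          rintro rfl
          exact hw (by rw [hwv, zero_smul])
        have hT : T H v ψ := by
          have h5 := Ty.smul_left c⁻¹
          rwa [hwv, smul_smul, inv_mul_cancel₀ hc0, one_smul] at h5
        by_cases d2 : ∀ a b : ℚ, a • φ + b • ψ = 0 → a = 0 ∧ b = 0
        · exact ⟨v, hv, full_of_two hH hv Tx hT d2⟩
        · exfalso
          push Not at d2
          obtain ⟨a', b', h6, h6'⟩ := d2
          have hb' : b' ≠ 0 := by
            intro hb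
            rw [hb, zero_smul, add_zero] at h6
            exact h6' ((smul_eq_zero.1 h6).resolve_right hφ) hb
          have hψφ : ψ = (b'⁻¹ * -a') • φ := by
            have h5 := congrArg (b'⁻¹ • ·) h6
            simp only [smul_add, smul_smul, inv_mul_cancel₀ hb', one_smul, smul_zero] at h5
            rw [mul_neg, neg_smul]
            exact eq_neg_of_add_eq_zero_right h5
          obtain ⟨r, hr⟩ : ∃ r, r = c * (b'⁻¹ * -a') := ⟨_, rfl⟩
          have ey' : qm y = 1 + r • vecMulVec v φ := by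
            rw [ey, hwv, hψφ, smul_vecMulVec, vecMulVec_smul, smul_smul, hr]
          have h7 : x ^ r.num = y ^ ((r.den : ℕ) : ℤ) := by
            apply qm_inj
            have hsq : vecMulVec v φ * vecMulVec v φ = 0 := vv_sq hφv
            rw [qm_zpow ex hsq, qm_zpow ey' (by rw [smul_mul_smul_comm, hsq, smul_zero]), smul_smul]
            congr 2
            have := Rat.mul_den_eq_num r
            push_cast
            rw [mul_comm]
            exact this.symm
          exact r.den_nz (by exact_mod_cast (hind _ _ h7).2)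
    · exact ⟨w, hw, full_heis hH hw hφ Ty Tx c1 c2⟩
  · by_cases c2 : ψ ⬝ᵥ v = 0
    · exact ⟨v, hv, full_heis hH hv hψ Tx Ty c2 c1⟩
    · exfalso
      -- `v` and `w` are proportional
      obtain ⟨j, hj⟩ : ∃ j, ψ j ≠ 0 := Function.ne_iff.1 hψ
      have h3 : ∀ i, (φ ⬝ᵥ w) * (v i * ψ j) = (ψ ⬝ᵥ v) * (w i * φ j) :=
        fun i => congrFun (congrFun hc i) j
      have h4 : v = ((φ ⬝ᵥ w * ψ j)⁻¹ * (ψ ⬝ᵥ v * φ j)) • w := by
        funext i
        have h5 := h3 i
        rw [Pi.smul_apply, smul_eq_mul]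
        field_simp
        linear_combination h5
      have h5 : ψ ⬝ᵥ v = 0 := by
        rw [h4, dotProduct_smul, hψw, smul_zero]
      exact c2 h5

end Pool.Agent.L5helper65.SL
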