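import Pool.Agent.L5helper65.SL.Fin

/-!
# Two transvections
-/

set_option autoImplicit false
set_option maxHeartbeats 400000
set_option linter.unusedSectionVars false
set_option linter.unusedSimpArgs false

namespace Pool.Agent.L5helper65.SL

open Matrix
open Pool.Agent.Helper460_CSP

variable {ι : Type} [DecidableEq ι] [Fintype ι] {H : Subgroup (SpecialLinearGroup ι ℤ)}

/-- a subgroup with a full vector has finite index -/
theorem finite_of_full {n : ℕ} {H : Subgroup (SpecialLinearGroup (Fin (n + 3)) ℤ)} (hH : ZDense H)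
    {v : Fin (n + 3) → ℚ} (hv : v ≠ 0) (h : Full H v) : H.index ≠ 0 := by
  obtain ⟨M, hM, hle⟩ := exists_level hH (by simp) hv h
  have : NeZero M.natAbs := ⟨Int.natAbs_ne_zero.2 hM⟩
  have h1 : (SpecialLinearGroup.map (n := Fin (n + 3)) (Int.castRingHom (ZMod M.natAbs))).ker ≤ H :=
    fun g hg => hle (bls hM n g (cgr_iff.2 hg))
  have h2 : (SpecialLinearGroup.map (n := Fin (n + 3)) (Int.castRingHom (ZMod M.natAbs))).ker.index ≠ 0 := by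
    have : (SpecialLinearGroup.map (n := Fin (n + 3)) (Int.castRingHom (ZMod M.natAbs))).ker.FiniteIndex :=
      Subgroup.finiteIndex_ker _
    exact this.index_ne_zero
  exact ne_zero_of_dvd_ne_zero h2 (Subgroup.index_dvd_of_le h1)

/-- a dense subgroup with a full vector is the full group -/
theorem top_of_full {n : ℕ} {H : Subgroup (SpecialLinearGroup (Fin (n + 3)) ℤ)} (hH : PDense H)
    {v : Fin (n + 3) → ℚ} (hv : v ≠ 0) (h : Full H v) : H = ⊤ := by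
  obtain ⟨M, hM, hle⟩ := exists_level hH.zdense (by simp) hv h
  rw [eq_top_iff]
  intro g _
  obtain ⟨x, hx, hc⟩ := hH M hM g
  have h1 : Cgr M (g⁻¹ * x) := by
    intro i j
    have e : mt (g⁻¹ * x) i j - (1 : Matrix (Fin (n + 3)) (Fin (n + 3)) ℤ) i j =
        ∑ k, mt g⁻¹ i k * (mt x k j - mt g k j) := by
      have e1 : (1 : Matrix (Fin (n + 3)) (Fin (n + 3)) ℤ) i j = ∑ k, mt g⁻¹ i k * mt g k j := by
        have := congrFun (congrFun (show mt g⁻¹ * mt g = 1 by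
          rw [← mt_mul, inv_mul_cancel, mt_one]) i) j
        rw [← this, mul_apply]
      rw [e1, mt_mul, mul_apply, ← Finset.sum_sub_distrib]
      exact Finset.sum_congr rfl fun k _ => by ring
    rw [e]
    exact Finset.dvd_sum fun k _ => (hc k j).mul_left _
  have h2 : g⁻¹ * x ∈ H := hle (bls hM n _ h1)
  have h3 := H.mul_mem hx (H.inv_mem h2)
  rwa [_root_.mul_inv_rev, inv_inv, mul_inv_cancel_left] at h3

theorem not_prop_of {φ ψ u : ι → ℚ} (hφ : φ ≠ 0) (h1 : φ ⬝ᵥ u = 0) (h2 : ψ ⬝ᵥ u ≠ 0) (a b : ℚ)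
    (h : a • φ + b • ψ = 0) : a = 0 ∧ b = 0 := by
  have h3 := congrArg (· ⬝ᵥ u) h
  simp only [add_dotProduct, smul_dotProduct, h1, zero_dotProduct, smul_zero, zero_add,
    smul_eq_mul, mul_zero] at h3
  have hb : b = 0 := (mul_eq_zero.1 h3).resolve_right h2
  rw [hb, zero_smul, add_zero] at h
  exact ⟨(smul_eq_zero.1 h).resolve_right hφ, hb⟩

/-- the Heisenberg group -/
theorem full_heis (hH : ZDense H) {v φ w ψ : ι → ℚ} (hv : v ≠ 0) (hψ : ψ ≠ 0) (h1 : T H v φ)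
    (h2 : T H w ψ) (h3 : ψ ⬝ᵥ v = 0) (h4 : φ ⬝ᵥ w ≠ 0) : Full H v := by
  have h5 : T H v ψ := h1.comm h2 h3 h4
  refine full_of_two hH hv h5 h1 ?_
  exact fun a b => not_prop_of hψ h2.1 h4 a b

/-- there is a position in which the functional does not vanish on the vector, nor for the inverse -/
theorem exists_pm {φ v : ι → ℚ} (hφ : φ ≠ 0) (hv : v ≠ 0) (h1 : φ ⬝ᵥ v = 0) :
    ∃ g : SpecialLinearGroup ι ℤ, φ ⬝ᵥ (qm g *ᵥ v) ≠ 0 ∧ φ ⬝ᵥ (qm g⁻¹ *ᵥ v) ≠ 0 := by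
  obtain ⟨i, hi⟩ : ∃ i, v i ≠ 0 := Function.ne_iff.1 hv
  have hn : φ ∉ Submodule.span ℚ {(Pi.single i 1 : ι → ℚ)} := by
    intro hm
    obtain ⟨c, rfl⟩ := Submodule.mem_span_singleton.1 hm
    rw [smul_dotProduct, single_dotProduct, one_mul, smul_eq_mul] at h1
    have hc : c = 0 := (mul_eq_zero.1 h1).resolve_right hi
    exact hφ (by rw [hc, zero_smul])
  obtain ⟨x, hx, hx'⟩ := sep _ hn
  have hx1 : (Pi.single i 1 : ι → ℚ) ⬝ᵥ x = 0 := hx _ (Submodule.mem_span_singleton_self _)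
  obtain ⟨-, s, hs, g, -, hg⟩ := T_top hx1
  have hsQ : (s : ℚ) ≠ 0 := by exact_mod_cast hs
  refine ⟨g, ?_, ?_⟩
  · rw [act hg, dotProduct_add, h1, dotProduct_smul, single_dotProduct, one_mul, zero_add,
      smul_eq_mul]
    exact mul_ne_zero (mul_ne_zero hsQ hi) hx'
  · rw [act_inv hx1 hg, dotProduct_sub, h1, dotProduct_smul, single_dotProduct, one_mul, zero_sub,
      smul_eq_mul]
    exact neg_ne_zero.2 (mul_ne_zero (mul_ne_zero hsQ hi) hx')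

/-- two transvections with the same functional and independent vectors -/
theorem full_dual (hH : ZDense H) {v w φ : ι → ℚ} (hφ : φ ≠ 0) (h1 : T H v φ) (h2 : T H w φ)
    (hli : ∀ a b : ℚ, a • v + b • w = 0 → a = 0 ∧ b = 0) : ∃ p ≠ 0, Full H p := by
  have hv : v ≠ 0 := by
    rintro rfl
    exact absurd (hli 1 0 (by simp)).1 one_ne_zero
  have hF : (fun g => (φ ⬝ᵥ (qm g *ᵥ v)) * (φ ⬝ᵥ (qm g⁻¹ *ᵥ v))) ∈ Reg ι :=
    reg_mul (reg_dv _ _) (reg_div _ _)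
  obtain ⟨g, hg1, hg2⟩ := exists_pm hφ hv h1.1
  obtain ⟨h, hh, hne⟩ : ∃ h ∈ H, (φ ⬝ᵥ (qm h *ᵥ v)) * (φ ⬝ᵥ (qm h⁻¹ *ᵥ v)) ≠ 0 := by
    by_contra hcon
    push Not at hcon
    exact mul_ne_zero hg1 hg2 (hH _ hF hcon g)
  obtain ⟨p, hp⟩ : ∃ p, p = (φ ⬝ᵥ (qm h *ᵥ w)) • v - (φ ⬝ᵥ (qm h *ᵥ v)) • w := ⟨_, rfl⟩
  have hp0 : p ≠ 0 := by
    intro h0
    rw [hp, sub_eq_add_neg, ← neg_smul] at h0
    exact (left_ne_zero_of_mul hne) (neg_eq_zero.1 (hli _ _ h0).2)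
  have hTp : T H p φ := by
    rw [hp, sub_eq_add_neg, ← neg_smul]
    exact (h1.smul_left _).add_left (h2.smul_left _)
  have hφp : φ ⬝ᵥ (qm h *ᵥ p) = 0 := by
    rw [hp, mulVec_sub, mulVec_smul, mulVec_smul, dotProduct_sub, dotProduct_smul, dotProduct_smul]
    simp only [smul_eq_mul]
    ring
  have hne2 : (φ ᵥ* qm h⁻¹) ⬝ᵥ v ≠ 0 := by
    rw [← dotProduct_mulVec]
    exact right_ne_zero_of_mul hne
  have h3 : T H (qm h *ᵥ p) φ := (hTp.conj hh).comm h1 hφp hne2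
  have hhp : qm h *ᵥ p ≠ 0 := by
    intro h0
    apply hp0
    have := congrArg (qm h⁻¹ *ᵥ ·) h0
    simp only [mulVec_mulVec, qm_inv_mul, one_mulVec, mulVec_zero] at this
    exact this
  exact ⟨qm h *ᵥ p, hhp, full_of_two hH hhp h3 (hTp.conj hh)
    fun a b => not_prop_of hφ h1.1 hne2 a b⟩

/-- division with a small remainder -/
theorem near (a b : ℤ) (hb : b ≠ 0) : ∃ m : ℤ, |2 * (a + m * b)| ≤ |b| := by
  refine ⟨-round ((a : ℚ) / b), ?_⟩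
  have hbQ : (b : ℚ) ≠ 0 := by exact_mod_cast hb
  have h := abs_sub_round ((a : ℚ) / b)
  have h1 : |(2 * ((a : ℚ) + -(round ((a : ℚ) / b) : ℚ) * b))| ≤ |(b : ℚ)| := by
    have e : (2 * ((a : ℚ) + -(round ((a : ℚ) / b) : ℚ) * b)) =
        2 * (((a : ℚ) / b - round ((a : ℚ) / b)) * b) := by
      field_simp
      ring
    rw [e, abs_mul, abs_mul, abs_of_pos (show (0 : ℚ) < 2 by norm_num)]
    have := abs_nonneg (b : ℚ)
    nlinarith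
  exact_mod_cast h1

/-- transvections in the plane of two transvections -/
theorem plane {v φ w ψ : ι → ℚ} {e f : ℤ} (hx : ∃ x ∈ H, qm x = 1 + vecMulVec v φ)
    (hy : ∃ y ∈ H, qm y = 1 + vecMulVec w ψ) (h1 : φ ⬝ᵥ v = 0) (h2 : ψ ⬝ᵥ w = 0)
    (hf : φ ⬝ᵥ w = f) (he : ψ ⬝ᵥ v = e) (hf0 : f ≠ 0) (he0 : e ≠ 0) (hef : |e * f| ≤ 3) :
    ∀ (N : ℕ) (α β : ℤ), |e| * α ^ 2 + |f| * β ^ 2 = N →
      T H ((α : ℚ) • v + (β : ℚ) • w) ((α * e : ℚ) • φ - (β * f : ℚ) • ψ) := by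
  obtain ⟨x, hxH, hx⟩ := hx
  obtain ⟨y, hyH, hy⟩ := hy
  have hTv : T H v φ := ⟨h1, 1, one_ne_zero, x, hxH, by rw [hx, Int.cast_one, one_smul]⟩
  have hTw : T H w ψ := ⟨h2, 1, one_ne_zero, y, hyH, by rw [hy, Int.cast_one, one_smul]⟩
  have hx' : qm x = 1 + ((1 : ℤ) : ℚ) • vecMulVec v φ := by rw [hx, Int.cast_one, one_smul]
  have hy' : qm y = 1 + ((1 : ℤ) : ℚ) • vecMulVec w ψ := by rw [hy, Int.cast_one, one_smul]
  intro N
  induction N using Nat.strong_induction_on with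
  | _ N ih =>
  intro α β hN
  by_cases hα : α = 0
  · subst hα
    have := (hTw.smul_left β).smul_right (-(β * f : ℚ))
    rw [neg_smul] at this
    simpa using this
  by_cases hβ : β = 0
  · subst hβ
    have := (hTv.smul_left α).smul_right (α * e : ℚ)
    simpa using this
  have hea : 0 < |e| := abs_pos.2 he0
  have hfa : 0 < |f| := abs_pos.2 hf0
  rw [abs_mul] at hef
  rcases le_total (|f| * β ^ 2) (|e| * α ^ 2) with hle | hle
  · -- reduce `α`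
    obtain ⟨m, hm⟩ := near α (β * f) (mul_ne_zero hβ hf0)
    obtain ⟨α', hα'⟩ : ∃ α', α' = α + m * (β * f) := ⟨_, rfl⟩
    rw [← hα'] at hm
    have hlt : |e| * α' ^ 2 < |e| * α ^ 2 := by
      have h3 : (2 * α') ^ 2 ≤ (β * f) ^ 2 := sq_le_sq.2 hm
      have h4 : (β * f) ^ 2 = β ^ 2 * |f| ^ 2 := by rw [mul_pow, sq_abs]
      have hβ2 : 0 < β ^ 2 := by positivity
      have h5 : 4 * (|e| * α' ^ 2) ≤ |e| * |f| * (|f| * β ^ 2) := by
        calc 4 * (|e| * α' ^ 2) = |e| * (2 * α') ^ 2 := by ring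
          _ ≤ |e| * (β * f) ^ 2 := mul_le_mul_of_nonneg_left h3 hea.le
          _ = |e| * |f| * (|f| * β ^ 2) := by rw [h4]; ring
      have h6 : |e| * |f| * (|f| * β ^ 2) ≤ 3 * (|f| * β ^ 2) :=
        mul_le_mul_of_nonneg_right hef (by positivity)
      have h7 : 0 < |f| * β ^ 2 := by positivity
      linarith
    obtain ⟨N', hN'⟩ : ∃ N' : ℕ, |e| * α' ^ 2 + |f| * β ^ 2 = N' :=
      ⟨(|e| * α' ^ 2 + |f| * β ^ 2).toNat, (Int.toNat_of_nonneg (by positivity)).symm⟩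
    have h8 := ih N' (by
      have : (N' : ℤ) < N := by rw [← hN', ← hN]; linarith
      exact_mod_cast this) α' β hN'
    -- apply `x ^ (-m)`
    have h9 := h8.conj (H.zpow_mem hxH (-m))
    have hxm := T.pow h1 hx' (-m)
    rw [one_mul] at hxm
    have hxm' : qm (x ^ (-m))⁻¹ = 1 + ((m : ℤ) : ℚ) • vecMulVec v φ := by
      have := T.pow h1 hx' m
      rw [one_mul] at this
      rw [← _root_.zpow_neg, neg_neg, this]
    rw [act hxm, hxm', vecMul_add, vecMul_one, vecMul_smul, vecMul_vecMulVec] at h9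
    have e1 : ((α' : ℚ) • v + (β : ℚ) • w + (((-m : ℤ) : ℚ) * (φ ⬝ᵥ ((α' : ℚ) • v + (β : ℚ) • w))) • v) =
        (α : ℚ) • v + (β : ℚ) • w := by
      rw [dotProduct_add, dotProduct_smul, dotProduct_smul, h1, hf, hα']
      simp only [smul_eq_mul, mul_zero, zero_add]
      push_cast
      module
    have e2 : ((α' * e : ℚ) • φ - (β * f : ℚ) • ψ + ((m : ℤ) : ℚ) •
        ((((α' * e : ℚ) • φ - (β * f : ℚ) • ψ) ⬝ᵥ v) • φ)) = (α * e : ℚ) • φ - (β * f : ℚ) • ψ := by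
      rw [sub_dotProduct, smul_dotProduct, smul_dotProduct, h1, he, hα']
      simp only [smul_eq_mul, mul_zero, zero_sub]
      push_cast
      module
    rw [e1, e2] at h9
    exact h9
  · -- reduce `β`
    obtain ⟨m, hm⟩ := near β (α * e) (mul_ne_zero hα he0)
    obtain ⟨β', hβ'⟩ : ∃ β', β' = β + m * (α * e) := ⟨_, rfl⟩
    rw [← hβ'] at hm
    have hlt : |f| * β' ^ 2 < |f| * β ^ 2 := by
      have h3 : (2 * β') ^ 2 ≤ (α * e) ^ 2 := sq_le_sq.2 hm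
      have h4 : (α * e) ^ 2 = α ^ 2 * |e| ^ 2 := by rw [mul_pow, sq_abs]
      have hα2 : 0 < α ^ 2 := by positivity
      have h5 : 4 * (|f| * β' ^ 2) ≤ |e| * |f| * (|e| * α ^ 2) := by
        calc 4 * (|f| * β' ^ 2) = |f| * (2 * β') ^ 2 := by ring
          _ ≤ |f| * (α * e) ^ 2 := mul_le_mul_of_nonneg_left h3 hfa.le
          _ = |e| * |f| * (|e| * α ^ 2) := by rw [h4]; ring
      have h6 : |e| * |f| * (|e| * α ^ 2) ≤ 3 * (|e| * α ^ 2) :=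
        mul_le_mul_of_nonneg_right hef (by positivity)
      have h7 : 0 < |e| * α ^ 2 := by positivity
      linarith
    obtain ⟨N', hN'⟩ : ∃ N' : ℕ, |e| * α ^ 2 + |f| * β' ^ 2 = N' :=
      ⟨(|e| * α ^ 2 + |f| * β' ^ 2).toNat, (Int.toNat_of_nonneg (by positivity)).symm⟩
    have h8 := ih N' (by
      have : (N' : ℤ) < N := by rw [← hN', ← hN]; linarith
      exact_mod_cast this) α β' hN'
    have h9 := h8.conj (H.zpow_mem hyH (-m))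
    have hym := T.pow h2 hy' (-m)
    rw [one_mul] at hym
    have hym' : qm (y ^ (-m))⁻¹ = 1 + ((m : ℤ) : ℚ) • vecMulVec w ψ := by
      have := T.pow h2 hy' m
      rw [one_mul] at this
      rw [← _root_.zpow_neg, neg_neg, this]
    rw [act hym, hym', vecMul_add, vecMul_one, vecMul_smul, vecMul_vecMulVec] at h9
    have e1 : ((α : ℚ) • v + (β' : ℚ) • w + (((-m : ℤ) : ℚ) * (ψ ⬝ᵥ ((α : ℚ) • v + (β' : ℚ) • w))) • w) =
        (α : ℚ) • v + (β : ℚ) • w := by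
      rw [dotProduct_add, dotProduct_smul, dotProduct_smul, h2, he, hβ']
      simp only [smul_eq_mul, mul_zero, add_zero]
      push_cast
      module
    have e2 : ((α * e : ℚ) • φ - (β' * f : ℚ) • ψ + ((m : ℤ) : ℚ) •
        ((((α * e : ℚ) • φ - (β' * f : ℚ) • ψ) ⬝ᵥ w) • ψ)) = (α * e : ℚ) • φ - (β * f : ℚ) • ψ := by
      rw [sub_dotProduct, smul_dotProduct, smul_dotProduct, h2, hf, hβ']
      simp only [smul_eq_mul, mul_zero, sub_zero]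
      push_cast
      module
    rw [e1, e2] at h9
    exact h9

/-- transvections in the plane, rational directions -/
theorem plane_rat {v φ w ψ : ι → ℚ} {e f : ℤ} (hx : ∃ x ∈ H, qm x = 1 + vecMulVec v φ)
    (hy : ∃ y ∈ H, qm y = 1 + vecMulVec w ψ) (h1 : φ ⬝ᵥ v = 0) (h2 : ψ ⬝ᵥ w = 0)
    (hf : φ ⬝ᵥ w = f) (he : ψ ⬝ᵥ v = e) (hf0 : f ≠ 0) (he0 : e ≠ 0) (hef : |e * f| ≤ 3) (α β : ℚ) :
    T H (α • v + β • w) ((α * e) • φ - (β * f) • ψ) := by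
  obtain ⟨d, hd, z, hz⟩ := int_mul (ι := Bool) (fun b => if b then α else β)
  have hdQ : (d : ℚ) ≠ 0 := by exact_mod_cast hd
  have z1 : (d : ℚ) * α = z true := hz true
  have z2 : (d : ℚ) * β = z false := hz false
  have hnn : 0 ≤ |e| * (z true) ^ 2 + |f| * (z false) ^ 2 := by positivity
  have h3 := plane hx hy h1 h2 hf he hf0 he0 hef _ (z true) (z false)
    (Int.toNat_of_nonneg hnn).symm
  have h4 := (h3.smul_left (d : ℚ)⁻¹).smul_right (d : ℚ)⁻¹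
  rw [← z1, ← z2] at h4
  have e1 : (d : ℚ)⁻¹ • (((d : ℚ) * α) • v + ((d : ℚ) * β) • w) = α • v + β • w := by
    rw [smul_add, smul_smul, smul_smul, inv_mul_cancel_left₀ hdQ, inv_mul_cancel_left₀ hdQ]
  have e2 : (d : ℚ)⁻¹ • (((d : ℚ) * α * e) • φ - ((d : ℚ) * β * f) • ψ) =
      (α * e) • φ - (β * f) • ψ := by
    rw [smul_sub, smul_smul, smul_smul, mul_assoc (d : ℚ), mul_assoc (d : ℚ),
      inv_mul_cancel_left₀ hdQ, inv_mul_cancel_left₀ hdQ]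
  rw [e1, e2] at h4
  exact h4

/-- **transvections in all rational directions of a plane** -/
theorem full_plane (hH : ZDense H) (h3 : 3 ≤ Fintype.card ι) {v φ w ψ : ι → ℚ} {e f : ℚ}
    (h1 : φ ⬝ᵥ v = 0) (h2 : ψ ⬝ᵥ w = 0)
    (hf : φ ⬝ᵥ w = f) (he : ψ ⬝ᵥ v = e) (hfQ : f ≠ 0) (heQ : e ≠ 0)
    (hpl : ∀ α β : ℚ, T H (α • v + β • w) ((α * e) • φ - (β * f) • ψ)) :
    v ≠ 0 ∧ Full H v := by
  have hv : v ≠ 0 := by
    rintro rfl
    rw [dotProduct_zero] at he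
    exact heQ he.symm
  have hφ : φ ≠ 0 := by
    rintro rfl
    rw [zero_dotProduct] at hf
    exact hfQ hf.symm
  have hTv : T H v φ := by
    have := (hpl 1 0).smul_right e⁻¹
    rw [one_smul, zero_smul, add_zero, zero_mul, zero_smul, sub_zero, one_mul, smul_smul,
      inv_mul_cancel₀ heQ, one_smul] at this
    exact this
  obtain ⟨u, hu, huφ, huψ⟩ := exists_two h3 φ ψ
  rw [dotProduct_comm] at huφ huψ
  obtain ⟨i, hi⟩ : ∃ i, u i ≠ 0 := Function.ne_iff.1 hu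
  -- the functional with the value one on `u`, `v`, `w`
  obtain ⟨η, hη⟩ : ∃ η, η = (u i)⁻¹ • (Pi.single i 1 : ι → ℚ) +
    ((1 - (u i)⁻¹ * w i) / f) • φ + ((1 - (u i)⁻¹ * v i) / e) • ψ := ⟨_, rfl⟩
  have ηu : η ⬝ᵥ u = 1 := by
    rw [hη, add_dotProduct, add_dotProduct, smul_dotProduct, smul_dotProduct, smul_dotProduct, huφ,
      huψ, single_dotProduct, one_mul, smul_zero, smul_zero, add_zero, add_zero, smul_eq_mul,
      inv_mul_cancel₀ hi]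
  have ηw : η ⬝ᵥ w = 1 := by
    rw [hη, add_dotProduct, add_dotProduct, smul_dotProduct, smul_dotProduct, smul_dotProduct, hf,
      h2, single_dotProduct, one_mul, smul_zero, add_zero, smul_eq_mul, smul_eq_mul,
      div_mul_cancel₀ _ hfQ]
    ring
  have ηv : η ⬝ᵥ v = 1 := by
    rw [hη, add_dotProduct, add_dotProduct, smul_dotProduct, smul_dotProduct, smul_dotProduct, h1,
      he, single_dotProduct, one_mul, smul_zero, add_zero, smul_eq_mul, smul_eq_mul,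
      div_mul_cancel₀ _ heQ]
    ring
  have ηy : η ⬝ᵥ (w - u) = 0 := by rw [dotProduct_sub, ηw, ηu, sub_self]
  obtain ⟨-, s, hs, g, -, hg⟩ := T_top ηy
  have hsQ : (s : ℚ) ≠ 0 := by exact_mod_cast hs
  -- the regular function
  have hF : (fun x => ((f * (ψ ⬝ᵥ (qm x⁻¹ *ᵥ v))) * (φ ⬝ᵥ (qm x *ᵥ v)) +
      (e * (φ ⬝ᵥ (qm x⁻¹ *ᵥ v))) * (φ ⬝ᵥ (qm x *ᵥ w))) *
      ((ψ ⬝ᵥ (qm x⁻¹ *ᵥ v)) * (φ ⬝ᵥ (qm x⁻¹ *ᵥ u)) -
        (φ ⬝ᵥ (qm x⁻¹ *ᵥ v)) * (ψ ⬝ᵥ (qm x⁻¹ *ᵥ u)))) ∈ Reg ι :=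
    reg_mul (reg_add (reg_mul (reg_mul (reg_const _) (reg_div _ _)) (reg_dv _ _))
      (reg_mul (reg_mul (reg_const _) (reg_div _ _)) (reg_dv _ _)))
      (reg_sub (reg_mul (reg_div _ _) (reg_div _ _)) (reg_mul (reg_div _ _) (reg_div _ _)))
  obtain ⟨h, hh, hne⟩ : ∃ x ∈ H, ((f * (ψ ⬝ᵥ (qm x⁻¹ *ᵥ v))) * (φ ⬝ᵥ (qm x *ᵥ v)) +
      (e * (φ ⬝ᵥ (qm x⁻¹ *ᵥ v))) * (φ ⬝ᵥ (qm x *ᵥ w))) *
      ((ψ ⬝ᵥ (qm x⁻¹ *ᵥ v)) * (φ ⬝ᵥ (qm x⁻¹ *ᵥ u)) -
        (φ ⬝ᵥ (qm x⁻¹ *ᵥ v)) * (ψ ⬝ᵥ (qm x⁻¹ *ᵥ u))) ≠ 0 := by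
    by_contra hcon
    push Not at hcon
    have h0 := hH _ hF hcon g
    beta_reduce at h0
    rw [act hg, act hg, act_inv ηy hg, act_inv ηy hg] at h0
    simp only [dotProduct_add, dotProduct_sub, dotProduct_smul, h1, h2, huφ, huψ, hf, he, ηu, ηv,
      ηw, smul_eq_mul, mul_one, sub_zero, mul_zero, zero_sub, zero_add] at h0
    have : (s : ℚ) ^ 3 * e ^ 2 * f ^ 3 = 0 := by linear_combination h0
    have h5 : (s : ℚ) ^ 3 * e ^ 2 * f ^ 3 ≠ 0 :=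
      mul_ne_zero (mul_ne_zero (pow_ne_zero _ hsQ) (pow_ne_zero _ heQ)) (pow_ne_zero _ hfQ)
    exact h5 this
  have hn1 := left_ne_zero_of_mul hne
  have hn2 := right_ne_zero_of_mul hne
  -- the transvection in the plane which kills `h⁻¹ v`
  have hp := hpl (f * (ψ ⬝ᵥ (qm h⁻¹ *ᵥ v))) (e * (φ ⬝ᵥ (qm h⁻¹ *ᵥ v)))
  obtain ⟨p, hp'⟩ : ∃ p, p = (f * (ψ ⬝ᵥ (qm h⁻¹ *ᵥ v))) • v +
    (e * (φ ⬝ᵥ (qm h⁻¹ *ᵥ v))) • w := ⟨_, rfl⟩
  obtain ⟨l, hl⟩ : ∃ l, l = (f * (ψ ⬝ᵥ (qm h⁻¹ *ᵥ v)) * e) • φ -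
    (e * (φ ⬝ᵥ (qm h⁻¹ *ᵥ v)) * f) • ψ := ⟨_, rfl⟩
  rw [← hp', ← hl] at hp
  have k1 : (l ᵥ* qm h⁻¹) ⬝ᵥ v = 0 := by
    rw [← dotProduct_mulVec, hl, sub_dotProduct, smul_dotProduct, smul_dotProduct]
    simp only [smul_eq_mul]
    ring
  have k2 : φ ⬝ᵥ (qm h *ᵥ p) ≠ 0 := by
    rw [hp', mulVec_add, mulVec_smul, mulVec_smul, dotProduct_add, dotProduct_smul, dotProduct_smul]
    exact hn1
  have k3 : (l ᵥ* qm h⁻¹) ⬝ᵥ u ≠ 0 := by
    rw [← dotProduct_mulVec, hl, sub_dotProduct, smul_dotProduct, smul_dotProduct]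
    simp only [smul_eq_mul]
    have : f * (ψ ⬝ᵥ (qm h⁻¹ *ᵥ v)) * e * (φ ⬝ᵥ (qm h⁻¹ *ᵥ u)) -
        e * (φ ⬝ᵥ (qm h⁻¹ *ᵥ v)) * f * (ψ ⬝ᵥ (qm h⁻¹ *ᵥ u)) =
        e * f * ((ψ ⬝ᵥ (qm h⁻¹ *ᵥ v)) * (φ ⬝ᵥ (qm h⁻¹ *ᵥ u)) -
        (φ ⬝ᵥ (qm h⁻¹ *ᵥ v)) * (ψ ⬝ᵥ (qm h⁻¹ *ᵥ u))) := by ring
    rw [this]
    exact mul_ne_zero (mul_ne_zero heQ hfQ) hn2
  have k4 : T H v (l ᵥ* qm h⁻¹) := hTv.comm (hp.conj hh) k1 k2
  exact ⟨hv, full_of_two hH hv hTv k4 fun a b => not_prop_of hφ huφ k3 a b⟩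

/-- **two transvections of small trace** -/
theorem full_braid (hH : ZDense H) (h3 : 3 ≤ Fintype.card ι) {v φ w ψ : ι → ℚ} {e f : ℤ}
    (hx : ∃ x ∈ H, qm x = 1 + vecMulVec v φ)
    (hy : ∃ y ∈ H, qm y = 1 + vecMulVec w ψ) (h1 : φ ⬝ᵥ v = 0) (h2 : ψ ⬝ᵥ w = 0)
    (hf : φ ⬝ᵥ w = f) (he : ψ ⬝ᵥ v = e) (hf0 : f ≠ 0) (he0 : e ≠ 0) (hef : |e * f| ≤ 3) :
    v ≠ 0 ∧ Full H v :=
  full_plane hH h3 h1 h2 hf he (by exact_mod_cast hf0) (by exact_mod_cast he0)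
    fun α β => plane_rat hx hy h1 h2 hf he hf0 he0 hef α β

/-- the coordinate plane -/
theorem full_corner (hH : ZDense H) (h3 : 3 ≤ Fintype.card ι) {a b : ι} (hab : a ≠ b)
    (hc : ∀ g : SpecialLinearGroup ι ℤ, (∀ i j, (i ≠ a ∧ i ≠ b) ∨ (j ≠ a ∧ j ≠ b) →
      mt g i j = (1 : Matrix ι ι ℤ) i j) → ∃ k : ℕ, k ≠ 0 ∧ g ^ k ∈ H) :
    ∃ p ≠ 0, Full H p := by
  refine ⟨Pi.single a 1, ?_⟩
  refine full_plane (φ := Pi.single b 1) (w := Pi.single b 1) (ψ := Pi.single a 1) (e := 1) (f := 1)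
    hH h3 (by simp [hab, hab.symm]) (by simp [hab, hab.symm]) (by simp) (by simp) one_ne_zero
    one_ne_zero ?_
  intro α β
  rw [mul_one, mul_one]
  have h0 : (α • (Pi.single b 1 : ι → ℚ) - β • (Pi.single a 1 : ι → ℚ)) ⬝ᵥ
      (α • (Pi.single a 1 : ι → ℚ) + β • (Pi.single b 1 : ι → ℚ)) = 0 := by
    simp only [sub_dotProduct, dotProduct_add, smul_dotProduct, dotProduct_smul, single_dotProduct,
      Pi.single_apply, smul_eq_mul, if_neg hab, if_neg hab.symm, if_true]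
    ring
  obtain ⟨-, k, hk, g, -, hg⟩ := T_top h0
  have hkQ : (k : ℚ) ≠ 0 := by exact_mod_cast hk
  obtain ⟨r, hr, hgr⟩ := hc g (by
    intro i j hij
    have h4 : (vecMulVec (α • (Pi.single a 1 : ι → ℚ) + β • (Pi.single b 1 : ι → ℚ))
        (α • (Pi.single b 1 : ι → ℚ) - β • (Pi.single a 1 : ι → ℚ))) i j = 0 := by
      rw [vecMulVec_apply]
      rcases hij with ⟨h5, h6⟩ | ⟨h5, h6⟩
      · simp [Pi.single_apply, h5, h6]
      · simp [Pi.single_apply, h5, h6]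
    have h5 := congrFun (congrFun hg i) j
    rw [Matrix.add_apply, Matrix.smul_apply, h4, smul_zero, add_zero] at h5
    have h6 : ((mt g i j : ℤ) : ℚ) = (((1 : Matrix ι ι ℤ) i j : ℤ) : ℚ) := by
      rw [show ((mt g i j : ℤ) : ℚ) = qm g i j from rfl, h5, one_apply, one_apply]
      split_ifs <;> simp
    exact_mod_cast h6)
  refine ⟨h0, k * r, mul_ne_zero hk (Int.natCast_ne_zero.2 hr), g ^ r, hgr, ?_⟩
  have := T.pow h0 hg r
  rw [zpow_natCast] at this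
  exact this

end Pool.Agent.L5helper65.SL
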