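import Pool.Agent.L5helper65.SL.Noncyc

/-!
# Centralizers of unipotent elements of `SL(3, ℤ)`
-/

set_option autoImplicit false
set_option maxHeartbeats 400000
set_option linter.unusedSectionVars false
set_option linter.unusedSimpArgs false

namespace Pool.Agent.L5helper65.SL

open Matrix
open Pool.Agent.Helper460_CSP

/-- an integral power of a rational transvection -/
theorem integral_pow {ι : Type} [DecidableEq ι] [Fintype ι] {u : SpecialLinearGroup ι ℤ}
    {v φ : ι → ℚ} (hv : v ≠ 0) (hφ : φ ≠ 0) (h0 : φ ⬝ᵥ v = 0) (hu : qm u = 1 + vecMulVec v φ) :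
    ∃ m : ℤ, m ≠ 0 ∧ ∃ w ψ : ι → ℤ, w ≠ 0 ∧ ψ ≠ 0 ∧ ψ ⬝ᵥ w = 0 ∧ mt (u ^ m) = 1 + vecMulVec w ψ := by
  obtain ⟨a, ha, w, hw⟩ := int_mul v
  obtain ⟨b, hb, ψ, hψ⟩ := int_mul φ
  have haQ : (a : ℚ) ≠ 0 := by exact_mod_cast ha
  have hbQ : (b : ℚ) ≠ 0 := by exact_mod_cast hb
  have cw : cv w = (a : ℚ) • v := by
    funext i
    exact (hw i).symm
  have cψ : cv ψ = (b : ℚ) • φ := by
    funext i
    exact (hψ i).symm
  refine ⟨a * b, mul_ne_zero ha hb, w, ψ, ?_, ?_, ?_, ?_⟩
  · rintro rfl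
    have h1 : (a : ℚ) • v = 0 := by
      rw [← cw]
      funext i
      simp [cv]
    exact hv ((smul_eq_zero.1 h1).resolve_left haQ)
  · rintro rfl
    have h1 : (b : ℚ) • φ = 0 := by
      rw [← cψ]
      funext i
      simp [cv]
    exact hφ ((smul_eq_zero.1 h1).resolve_left hbQ)
  · have h1 : cv ψ ⬝ᵥ cv w = 0 := by
      rw [cw, cψ, smul_dotProduct, dotProduct_smul, h0, smul_zero, smul_zero]
    rw [cv_dot] at h1
    exact_mod_cast h1
  · ext i j
    have h1 := congrFun (congrFun (qm_zpow hu (vv_sq h0) (a * b)) i) j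
    have h2 : ((mt (u ^ (a * b)) i j : ℤ) : ℚ) =
        (1 : Matrix ι ι ℚ) i j + ((a * b : ℤ) : ℚ) * (v i * φ j) := h1
    have h3 : (((1 : Matrix ι ι ℤ) i j : ℤ) : ℚ) = (1 : Matrix ι ι ℚ) i j := by
      rw [one_apply, one_apply]
      split_ifs <;> simp
    have h4 : ((mt (u ^ (a * b)) i j : ℤ) : ℚ) = (((1 : Matrix ι ι ℤ) i j + w i * ψ j : ℤ) : ℚ) := by
      rw [h2, ← h3]
      push_cast
      rw [← hw, ← hψ]
      ring
    have h5 : mt (u ^ (a * b)) i j = (1 : Matrix ι ι ℤ) i j + w i * ψ j := by exact_mod_cast h4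
    rw [h5, Matrix.add_apply, vecMulVec_apply]

/-- the centralizer of a regular nilpotent matrix -/
theorem regular' {N M : Matrix (Fin 3) (Fin 3) ℚ} (hN3 : N * N * N = 0) (hN2 : N * N ≠ 0)
    (hc : N * M = M * N) : ∃ a b c : ℚ, M = a • 1 + b • N + c • (N * N) := by
  obtain ⟨e, he⟩ : ∃ e, (N * N) *ᵥ e ≠ 0 := by
    by_contra hcon
    push Not at hcon
    apply hN2
    ext i j
    have := congrFun (hcon (Pi.single j 1)) i
    rw [mulVec_single_one] at this
    exact this
  have h3 : ∀ z, N *ᵥ (N *ᵥ (N *ᵥ z)) = 0 := by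
    intro z
    rw [mulVec_mulVec, mulVec_mulVec, hN3, zero_mulVec]
  rw [← mulVec_mulVec] at he
  have hind : Ind3 e (N *ᵥ e) (N *ᵥ (N *ᵥ e)) := by
    intro α β γ h
    have h1 := congrArg (fun z => N *ᵥ (N *ᵥ z)) h
    simp only [mulVec_add, mulVec_smul, h3, smul_zero, add_zero, mulVec_zero] at h1
    have hα : α = 0 := (smul_eq_zero.1 h1).resolve_right he
    rw [hα, zero_smul, zero_add] at h
    have h2 := congrArg (fun z => N *ᵥ z) h
    simp only [mulVec_add, mulVec_smul, h3, smul_zero, add_zero, mulVec_zero] at h2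
    have hβ : β = 0 := (smul_eq_zero.1 h2).resolve_right he
    rw [hβ, zero_smul, zero_add] at h
    exact ⟨hα, hβ, (smul_eq_zero.1 h).resolve_right he⟩
  obtain ⟨a, b, c, hM⟩ := span3 hind (M *ᵥ e)
  refine ⟨a, b, c, ?_⟩
  have hcz : ∀ z, M *ᵥ (N *ᵥ z) = N *ᵥ (M *ᵥ z) := by
    intro z
    rw [mulVec_mulVec, mulVec_mulVec, hc]
  have hr : ∀ z, (a • (1 : Matrix (Fin 3) (Fin 3) ℚ) + b • N + c • (N * N)) *ᵥ z =
      a • z + b • (N *ᵥ z) + c • (N *ᵥ (N *ᵥ z)) := by
    intro z
    rw [add_mulVec, add_mulVec, smul_mulVec, smul_mulVec, smul_mulVec, one_mulVec, mulVec_mulVec]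
  apply mat3 hind
  · rw [hM, hr]
  · rw [hcz, hM, hr]
    simp only [mulVec_add, mulVec_smul]
  · rw [hcz, hcz, hM, hr]
    simp only [mulVec_add, mulVec_smul]

/-- a rational eigenvalue of an integral matrix in `SL` -/
theorem eig_sq' {ι : Type} [DecidableEq ι] [Fintype ι] {g : SpecialLinearGroup ι ℤ} {v : ι → ℚ}
    (hv : v ≠ 0) {c : ℚ} (h : qm g *ᵥ v = c • v) : c * c = 1 := by
  obtain ⟨a, ha, w, hw⟩ := int_mul v
  have haQ : (a : ℚ) ≠ 0 := by exact_mod_cast ha
  have cw : cv w = (a : ℚ) • v := by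
    funext i
    exact (hw i).symm
  have hw0 : w ≠ 0 := by
    rintro rfl
    have h1 : (a : ℚ) • v = 0 := by
      rw [← cw]
      funext i
      simp [cv]
    exact hv ((smul_eq_zero.1 h1).resolve_left haQ)
  refine eig_sq hw0 (g := g) ?_
  rw [cw, mulVec_smul, h, smul_smul, smul_smul, mul_comm]

variable {H : Subgroup (SpecialLinearGroup (Fin 3) ℤ)}

/-- **a unipotent element of `SL(3, ℤ)` whose centralizer in `H` is not virtually cyclic** -/
theorem full_uni_cent (hH : ZDense H) {u g : SpecialLinearGroup (Fin 3) ℤ} (hu : u ∈ H) (hg : g ∈ H)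
    (hug : u * g = g * u) (uu : (qm u - 1) * (qm u - 1) * (qm u - 1) = 0) (hu1 : u ≠ 1)
    (hind : ∀ k m : ℤ, g ^ k = u ^ m → k = 0) : ∃ p ≠ 0, Full H p := by
  have hN0 : qm u - 1 ≠ 0 := by
    intro h
    apply hu1
    apply qm_inj
    rw [qm_one]
    exact sub_eq_zero.1 h
  by_cases h1 : (qm u - 1) * (qm u - 1) = 0
  · obtain ⟨v, φ, hv, hφ, h0, e⟩ := rank_one h1 hN0
    have e' : qm u = 1 + vecMulVec v φ := by
      rw [← e]
      abel
    obtain ⟨m, hm, w, ψ, hw, hψ, hψw, e2⟩ := integral_pow hv hφ h0 e'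
    refine full_noncyclic hH (H.zpow_mem hu m) hg hw hψ hψw e2 ?_ ?_
    · exact ((show Commute u g from hug).zpow_left m)
    · intro k l h
      rw [← _root_.zpow_mul] at h
      exact hind _ _ h
  · obtain ⟨N, hN⟩ : ∃ N, N = qm u - 1 := ⟨_, rfl⟩
    rw [← hN] at uu h1 hN0
    have hqu : qm u = 1 + N := by
      rw [hN]
      abel
    have hc : N * qm g = qm g * N := by
      rw [hN, sub_mul, mul_sub, one_mul, mul_one, ← qm_mul, ← qm_mul, hug]
    obtain ⟨a, b, c, hG⟩ := regular' uu h1 hc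
    obtain ⟨e, he⟩ : ∃ e, (N * N) *ᵥ e ≠ 0 := by
      by_contra hcon
      push Not at hcon
      apply h1
      ext i j
      have := congrFun (hcon (Pi.single j 1)) i
      rw [mulVec_single_one] at this
      exact this
    have h3 : N * (N * N) = 0 := by rw [← mul_assoc, uu]
    have h4 : N * N * (N * N) = 0 := by rw [← mul_assoc, uu, zero_mul]
    have ha : a * a = 1 := by
      refine eig_sq' (g := g) he ?_
      rw [hG, mulVec_mulVec, add_mul, add_mul, smul_mul_assoc, smul_mul_assoc, smul_mul_assoc,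
        one_mul, h3, h4, smul_zero, smul_zero, add_zero, add_zero, smul_mulVec]
    have hgg : qm (g * g) - 1 = (2 * a * b) • N + (2 * a * c + b * b) • (N * N) := by
      rw [qm_mul, hG]
      simp only [add_mul, mul_add, one_mul, mul_one, smul_mul_smul_comm, h3, h4, uu, smul_zero,
        add_zero, ha, one_smul]
      module
    refine full_uni hH hu (H.mul_mem hg hg) ?_ (by rw [← hN, uu]) ?_ ?_
    · exact ((show Commute u g from hug).mul_right (show Commute u g from hug))
    · rw [hgg]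
      simp only [add_mul, mul_add, smul_mul_smul_comm, h3, h4, uu, smul_zero, add_zero, zero_add,
        mul_assoc]
    · intro p q h
      have h5 : (g * g) ^ q = g ^ (2 * q) := by
        rw [_root_.zpow_mul]
        congr 1
        exact (zpow_two g).symm
      have hq : q = 0 := by
        have := hind (2 * q) p (by rw [← h5, h])
        omega
      refine ⟨?_, hq⟩
      rw [hq, _root_.zpow_zero] at h
      have h6 : Pn N 1 u := ⟨0, by rw [hqu, one_smul, zero_smul, add_zero]⟩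
      obtain ⟨d, hd⟩ := h6.zpow uu p
      rw [h, qm_one, mul_one] at hd
      have h7 := congrArg (fun M => N * M) hd
      simp only [mul_add, mul_one, mul_smul_comm, h3, smul_zero, add_zero] at h7
      have h8 : (p : ℚ) • (N * N) = 0 := by
        have h9 : N + (p : ℚ) • (N * N) = N + 0 := by rw [← h7, add_zero]
        exact add_left_cancel h9
      have h10 := (smul_eq_zero.1 h8).resolve_right h1
      exact_mod_cast h10

end Pool.Agent.L5helper65.SL
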